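import Mathlib

/-!
# Wills' 1990 conjecture: definitions and exact statements of all tasks

`L(K) ≤ Σ κ_i κ_{n-i}/κ_n V_i(K)` for every convex body `K ⊂ ℝⁿ`.
Every `S_X` below is the exact statement of task `X` of the table `h41w_tasks`.
-/

set_option autoImplicit false

open MeasureTheory Set
open scoped ENNReal NNReal Pointwise

namespace H41WI

/-- Euclidean space `ℝⁿ` -/
abbrev E (n : ℕ) := EuclideanSpace ℝ (Fin n)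

/-- volume of the unit ball of `ℝ^j` in closed form -/
noncomputable def kap (j : ℕ) : ℝ := Real.pi ^ ((j : ℝ) / 2) / Real.Gamma ((j : ℝ) / 2 + 1)

/-- `α_{i,n} = κ_i κ_{n-i} / κ_n` -/
noncomputable def alp (n i : ℕ) : ℝ := kap i * kap (n - i) / kap n

/-- volume of the parallel body `K + tB` -/
noncomputable def pvol {n : ℕ} (K : Set (E n)) (t : ℝ) : ℝ :=
  (volume (K + Metric.closedBall (0 : E n) t)).toReal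

/-- Steiner formula: `V 0, ..., V n` are the intrinsic volumes of `K` -/
def Steiner {n : ℕ} (K : Set (E n)) (V : ℕ → ℝ) : Prop :=
  ∀ t : ℝ, 0 ≤ t → pvol K t = ∑ i ∈ Finset.range (n + 1), kap (n - i) * V i * t ^ (n - i)

/-- nonempty compact convex set -/
structure Body {n : ℕ} (K : Set (E n)) : Prop where
  cpt : IsCompact K
  cvx : Convex ℝ K
  ne : K.Nonempty

/-- Gaussian integral `∫ exp(-a d(x,K)²) dx` -/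
noncomputable def gint {n : ℕ} (a : ℝ) (K : Set (E n)) : ℝ≥0∞ :=
  ∫⁻ x : E n, ENNReal.ofReal (Real.exp (-(a * Metric.infDist x K ^ 2)))

/-- integer points of `K` -/
def Zpts {n : ℕ} (K : Set (E n)) : Set (Fin n → ℤ) :=
  {z | (WithLp.toLp 2 (fun j => (z j : ℝ)) : E n) ∈ K}

/-! ## one dimension -/

/-- `z(x) = max 0 (x - t/(2a))` -/
noncomputable def zz (a t x : ℝ) : ℝ := max 0 (x - t / (2 * a))

/-- `I_a(t) = ∫_0^1 exp(-(t z(x) + a (x - z(x))²)) dx` -/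
noncomputable def II (a t : ℝ) : ℝ :=
  ∫ x in (0 : ℝ)..1, Real.exp (-(t * zz a t x + a * (x - zz a t x) ^ 2))

/-- the one-dimensional inequality with parameters `a, c` -/
def OneD (a c : ℝ) : Prop := ∀ t : ℝ, 0 ≤ t → (1 + Real.exp (-t)) / 2 ≤ c * II a t

def S_IIG : Prop := ∀ a t : ℝ, 0 < a → 0 ≤ t →
  (∫ x in (0 : ℝ)..1, Real.exp (-(a * x ^ 2))) ≤ II a t ∧
  (0 < t → (1 - Real.exp (-t)) / t ≤ II a t)

def S_CLO : Prop := ∀ a t : ℝ, 0 < a → 0 < t → t ≤ 2 * a →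
  II a t = (∫ x in (0 : ℝ)..(t / (2 * a)), Real.exp (-(a * x ^ 2))) +
    (Real.exp (-(t ^ 2 / (4 * a))) - Real.exp (t ^ 2 / (4 * a) - t)) / t

def S_EL1 : Prop :=
  (1 + Real.exp (-(31 / 10))) / 2 ≤ ∫ x in (0 : ℝ)..1, Real.exp (-(11 / 4 * x ^ 2))

def S_EL2 : Prop := ∀ t : ℝ, 0 < t → t ≤ 31 / 10 →
  (1 + Real.exp (-t)) / 2 ≤ (∫ x in (0 : ℝ)..(t / (11 / 2)), Real.exp (-(11 / 4 * x ^ 2))) +
    (Real.exp (-(t ^ 2 / 11)) - Real.exp (t ^ 2 / 11 - t)) / t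

def S_O11 : Prop := OneD (11 / 4) 1

def S_ML0 : Prop := ∀ w : ℝ, 0 < w →
  (∫ y in Set.Ioi w, Real.exp (-y ^ 2)) ≤ Real.exp (-w ^ 2) / (2 * w)

def S_MIL : Prop := ∀ w : ℝ, 47 / 200 ≤ w →
  (∫ y in Set.Ioi w, Real.exp (-y ^ 2)) ≤
    Real.exp (-w ^ 2) * (89 / 50 + 2 * w) / (2 * (1 + 89 / 50 * w + 2 * w ^ 2))

def S_REG : Prop := ∀ s w : ℝ, 0 < s → 0 < w → w ≤ √Real.pi * s →
  s * II (Real.pi * s ^ 2) (2 * √Real.pi * s * w) =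
    1 / 2 - (1 / √Real.pi) * (∫ y in Set.Ioi w, Real.exp (-y ^ 2)) +
      (Real.exp (-w ^ 2) - Real.exp (w ^ 2 - 2 * √Real.pi * s * w)) / (2 * √Real.pi * w)

def S_NI : Prop := ∀ w : ℝ, 47 / 200 ≤ w → w ≤ 2 / √Real.pi →
  17 * √Real.pi * w * Real.exp (w ^ 2 - 2 * √Real.pi * w)
      + 18 * Real.exp (2 * w ^ 2 - 2 * √Real.pi * w)
    ≤ √Real.pi * w * Real.exp (w ^ 2) + 18 / (1 + 89 / 50 * w + 2 * w ^ 2)

def S_NII : Prop := ∀ w : ℝ, 47 / 200 ≤ w → w ≤ 2 / √Real.pi →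
  Real.exp (2 * w ^ 2 - 5 / 2 * √Real.pi * w)
      + √Real.pi * w * Real.exp (w ^ 2 - 5 / 2 * √Real.pi * w)
    ≤ 1 / (1 + 89 / 50 * w + 2 * w ^ 2)

/-- the constant `c(s) = s (1 + e^{-4(s-1)}/17)` -/
noncomputable def cs (s : ℝ) : ℝ := s * (1 + Real.exp (-(4 * (s - 1))) / 17)

def S_R1 : Prop := ∀ s t : ℝ, 1 ≤ s → 0 < t → t ≤ 2 * √Real.pi * s * (47 / 200) →
  (1 + Real.exp (-t)) / 2 ≤ cs s * ((1 - Real.exp (-t)) / t)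

def S_R2 : Prop := ∀ s w : ℝ, 1 ≤ s → 47 / 200 ≤ w → w ≤ 2 / √Real.pi →
  (1 + Real.exp (-(2 * √Real.pi * s * w))) / 2 ≤
    cs s * II (Real.pi * s ^ 2) (2 * √Real.pi * s * w)

def S_R3 : Prop := ∀ s w : ℝ, 1 ≤ s → 2 / √Real.pi ≤ w → w ≤ √Real.pi * s →
  (1 + Real.exp (-(2 * √Real.pi * s * w))) / 2 ≤
    cs s * II (Real.pi * s ^ 2) (2 * √Real.pi * s * w)

def S_R4 : Prop := ∀ s t : ℝ, 1 ≤ s → 2 * Real.pi * s ^ 2 ≤ t →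
  (1 + Real.exp (-t)) / 2 ≤ cs s * ∫ x in (0 : ℝ)..1, Real.exp (-(Real.pi * s ^ 2 * x ^ 2))

def S_OPS : Prop := ∀ s : ℝ, 1 ≤ s → OneD (Real.pi * s ^ 2) (cs s)

/-! ## tensorisation -/

/-- log-concavity of an `ℝ≥0∞`-valued function on the line -/
def LC (f : ℝ → ℝ≥0∞) : Prop := ∀ x y t : ℝ, 0 < t → t < 1 →
  f x ^ (1 - t) * f y ^ t ≤ f ((1 - t) * x + t * y)

/-- Gaussian parallel function of a set `K ⊂ ℝ^m`: `sup_{y ∈ K} exp(-a |x-y|²)` -/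
noncomputable def Fs (a : ℝ) {m : ℕ} (K : Set (Fin m → ℝ)) (x : Fin m → ℝ) : ℝ≥0∞ :=
  ⨆ y ∈ K, ENNReal.ofReal (Real.exp (-(a * ∑ i, (x i - y i) ^ 2)))

/-- slice of `K ⊂ ℝ^{m+1}` at height `z` (first coordinate) -/
def slice {m : ℕ} (K : Set (Fin (m + 1) → ℝ)) (z : ℝ) : Set (Fin m → ℝ) :=
  {y | (Fin.cons z y : Fin (m + 1) → ℝ) ∈ K}

def S_INT : Prop := ∀ a c : ℝ, 0 < a → 0 < c → OneD a c → ∀ f G : ℝ → ℝ≥0∞, LC f →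
  (∀ x z : ℝ, ENNReal.ofReal (Real.exp (-(a * (x - z) ^ 2))) * f z ≤ G x) →
  ∀ k : ℝ, f k + f (k + 1) ≤ 2 * (ENNReal.ofReal c * ∫⁻ x in Set.Ioc k (k + 1), G x)

def S_SUM : Prop := ∀ a c : ℝ, 0 < a → 0 < c → OneD a c → ∀ f G : ℝ → ℝ≥0∞, LC f →
  (∀ x z : ℝ, ENNReal.ofReal (Real.exp (-(a * (x - z) ^ 2))) * f z ≤ G x) →
  ∑' k : ℤ, f (k : ℝ) ≤ ENNReal.ofReal c * ∫⁻ x, G x

def S_MEA : Prop := ∀ (a : ℝ) (m : ℕ) (K : Set (Fin m → ℝ)), Measurable (Fs a K)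

def S_FLC : Prop := ∀ (a : ℝ) (m : ℕ) (K0 K1 K2 : Set (Fin m → ℝ)) (t : ℝ), 0 ≤ a → 0 < t → t < 1 →
  (∀ y ∈ K0, ∀ y' ∈ K1, (1 - t) • y + t • y' ∈ K2) → ∀ u v : Fin m → ℝ,
  Fs a K0 u ^ (1 - t) * Fs a K1 v ^ t ≤ Fs a K2 ((1 - t) • u + t • v)

def S_GLB : Prop := ∀ (a : ℝ) (m : ℕ) (K : Set (Fin (m + 1) → ℝ)) (x z : ℝ) (y : Fin m → ℝ),
  ENNReal.ofReal (Real.exp (-(a * (x - z) ^ 2))) * Fs a (slice K z) y
    ≤ Fs a K (Fin.cons x y : Fin (m + 1) → ℝ)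

def S_TEN : Prop := ∀ a c : ℝ, 0 < a → 0 < c → OneD a c → ∀ (m : ℕ) (K : Set (Fin m → ℝ)),
  Convex ℝ K →
  (∑' z : Fin m → ℤ, K.indicator (fun _ => (1 : ℝ≥0∞)) (fun i => (z i : ℝ)))
    ≤ ENNReal.ofReal c ^ m * ∫⁻ x, Fs a K x

def S_TRF : Prop := ∀ (a : ℝ) (n : ℕ) (K : Set (E n)), 0 ≤ a → IsCompact K → K.Nonempty →
  (∫⁻ x : Fin n → ℝ, Fs a {y : Fin n → ℝ | (WithLp.toLp 2 y : E n) ∈ K} x) = gint a K

def S_CNT : Prop := ∀ a c : ℝ, 0 < a → 0 < c → OneD a c → ∀ (n : ℕ) (K : Set (E n)), Body K →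
  (Zpts K).Finite ∧ (((Zpts K).ncard : ℕ) : ℝ≥0∞) ≤ ENNReal.ofReal c ^ n * gint a K

/-! ## Gaussian integrals and intrinsic volumes -/

def S_KPV : Prop := ∀ (n : ℕ) (x : E n) (t : ℝ), 0 ≤ t →
  volume (Metric.closedBall x t) = ENNReal.ofReal (kap n * t ^ n)

def S_PAR : Prop := ∀ (n : ℕ) (K : Set (E n)) (t : ℝ), IsCompact K → K.Nonempty → 0 ≤ t →
  K + Metric.closedBall (0 : E n) t = {x | Metric.infDist x K ≤ t}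

def S_LAY : Prop := ∀ (n : ℕ) (K : Set (E n)) (a : ℝ), 0 < a → IsCompact K → K.Nonempty →
  gint a K = ∫⁻ r in Set.Ioi (0 : ℝ), ENNReal.ofReal (2 * a * r * Real.exp (-(a * r ^ 2))) *
    volume (K + Metric.closedBall (0 : E n) r)

def S_RAD : Prop := ∀ (a : ℝ) (j : ℕ), 0 < a →
  IntegrableOn (fun r : ℝ => 2 * a * r * Real.exp (-(a * r ^ 2)) * r ^ j) (Set.Ioi 0) ∧
  kap j * (∫ r in Set.Ioi (0 : ℝ), 2 * a * r * Real.exp (-(a * r ^ 2)) * r ^ j)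
    = √(Real.pi / a) ^ j

def S_GAU : Prop := ∀ (n : ℕ) (K : Set (E n)) (V : ℕ → ℝ) (a : ℝ), 0 < a → IsCompact K →
  K.Nonempty → Steiner K V →
  gint a K ≠ ⊤ ∧ (gint a K).toReal =
    ∑ i ∈ Finset.range (n + 1), V i * √(Real.pi / a) ^ (n - i)

def S_SCL : Prop := ∀ (n : ℕ) (K : Set (E n)) (V : ℕ → ℝ) (τ : ℝ), 0 < τ → Steiner K V →
  Steiner (τ • K) (fun i => V i * τ ^ i)

/-! ## Prékopa–Leindler consequences -/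

def S_PLV : Prop := ∀ (n : ℕ) (K : Set (E n)), Body K → ∀ v w t : ℝ, 0 < v → 0 < w → 0 < t → t < 1 →
  gint (Real.pi / v) K ^ (1 - t) * gint (Real.pi / w) K ^ t
    ≤ gint (Real.pi / ((1 - t) * v + t * w)) K

def S_PLT : Prop := ∀ (n : ℕ) (K : Set (E n)), Body K → ∀ v w t : ℝ, 0 < v → 0 < w → 0 < t → t < 1 →
  gint Real.pi (v • K) ^ (1 - t) * gint Real.pi (w • K) ^ t
    ≤ gint Real.pi (((1 - t) * v + t * w) • K)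

/-- hypothesis on a generalized polynomial: log-concavity on `(0,∞)` -/
def GLC (s : Finset ℕ) (p e : ℕ → ℝ) : Prop := ∀ x y t : ℝ, 0 < x → 0 < y → 0 < t → t < 1 →
  (∑ i ∈ s, p i * x ^ (e i)) ^ (1 - t) * (∑ i ∈ s, p i * y ^ (e i)) ^ t
    ≤ ∑ i ∈ s, p i * ((1 - t) * x + t * y) ^ (e i)

def S_MOT : Prop := ∀ (s : Finset ℕ) (p e : ℕ → ℝ), (∀ i ∈ s, 0 ≤ p i) → ∑ i ∈ s, p i = 1 →
  GLC s p e → ∀ v : ℝ, 0 < v →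
  ∑ i ∈ s, p i * v ^ (e i) ≤ Real.exp ((v - 1) * ∑ i ∈ s, p i * e i)

def S_MOV : Prop := ∀ (s : Finset ℕ) (p e : ℕ → ℝ), (∀ i ∈ s, 0 ≤ p i) → ∑ i ∈ s, p i = 1 →
  (∀ v : ℝ, 0 < v → ∑ i ∈ s, p i * v ^ (e i) ≤ Real.exp ((v - 1) * ∑ i ∈ s, p i * e i)) →
  ∑ i ∈ s, p i * (e i * (e i - 1)) ≤ (∑ i ∈ s, p i * e i) ^ 2

/-- total mass `W = Σ V_i` -/
noncomputable def Wt (n : ℕ) (V : ℕ → ℝ) : ℝ := ∑ i ∈ Finset.range (n + 1), V i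

/-- mean `m = Σ i V_i / W` -/
noncomputable def mn (n : ℕ) (V : ℕ → ℝ) : ℝ :=
  (∑ i ∈ Finset.range (n + 1), (i : ℝ) * V i) / Wt n V

/-- mean `e = Σ (n-i) V_i / W` -/
noncomputable def en (n : ℕ) (V : ℕ → ℝ) : ℝ :=
  (∑ i ∈ Finset.range (n + 1), ((n : ℝ) - i) * V i) / Wt n V

/-- the four consequences of log-concavity -/
structure PLC (n : ℕ) (V : ℕ → ℝ) : Prop where
  a : ∀ s : ℝ, 0 < s → ∑ i ∈ Finset.range (n + 1), V i * s ^ i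
        ≤ Wt n V * Real.exp ((s - 1) * mn n V)
  b : ∑ i ∈ Finset.range (n + 1), (i : ℝ) ^ 2 * V i ≤ Wt n V * (mn n V ^ 2 + mn n V)
  c : ∀ v : ℝ, 0 < v → ∑ i ∈ Finset.range (n + 1), V i * √v ^ (n - i)
        ≤ Wt n V * Real.exp ((v - 1) * (en n V / 2))
  d : ∑ i ∈ Finset.range (n + 1), ((n : ℝ) - i) ^ 2 * V i ≤ Wt n V * (en n V ^ 2 + 2 * en n V)

def S_PLC : Prop := ∀ (n : ℕ) (K : Set (E n)) (V : ℕ → ℝ), Body K → Steiner K V →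
  (∀ i ≤ n, 0 ≤ V i) → 0 < Wt n V → PLC n V

/-! ## Steiner polynomial -/

/-- `pr` is the metric projection onto `K` -/
structure IsProj {n : ℕ} (K : Set (E n)) (pr : E n → E n) : Prop where
  mem : ∀ x, pr x ∈ K
  dist_eq : ∀ x, ‖x - pr x‖ = Metric.infDist x K
  inner_le : ∀ x, ∀ y ∈ K, inner ℝ (x - pr x) (y - pr x) ≤ 0

def S_PRJ : Prop := ∀ (n : ℕ) (K : Set (E n)), Body K → ∃ pr : E n → E n, IsProj K pr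

def S_FRM : Prop := ∀ (n : ℕ) (K : Set (E n)) (pr : E n → E n), IsProj K pr →
  (∀ x y, ‖pr x - pr y‖ ^ 2 ≤ inner ℝ (pr x - pr y) (x - y)) ∧ LipschitzWith 1 pr

def S_GRD : Prop := ∀ (n : ℕ) (K : Set (E n)) (pr : E n → E n), IsProj K pr → ∀ x : E n,
  HasFDerivAt (fun y => ‖y - pr y‖ ^ 2 / 2) (innerSL ℝ (x - pr x)) x

def S_SYM : Prop := ∀ (n : ℕ) (K : Set (E n)) (pr : E n → E n), IsProj K pr →
  ∀ (x : E n) (P : E n →L[ℝ] E n), HasFDerivAt pr P x →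
  (∀ v w, inner ℝ (P v) w = inner ℝ v (P w)) ∧ ∀ v, ‖P v‖ ^ 2 ≤ inner ℝ (P v) v

def S_DET : Prop := ∀ (n : ℕ) (P : E n →L[ℝ] E n), (∀ v w, inner ℝ (P v) w = inner ℝ v (P w)) →
  (∀ v, ‖P v‖ ^ 2 ≤ inner ℝ (P v) v) →
  ∃ c : ℕ → ℝ, (∀ j, 0 ≤ c j) ∧ ∀ l : ℝ,
    (P + l • (ContinuousLinearMap.id ℝ (E n) - P)).det = ∑ j ∈ Finset.range (n + 1), c j * l ^ j

/-- the shell `{0 < d(x,K) ≤ l}` -/
def shell {n : ℕ} (K : Set (E n)) (l : ℝ) : Set (E n) :=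
  {x | 0 < Metric.infDist x K ∧ Metric.infDist x K ≤ l}

def S_INV : Prop := ∀ (n : ℕ) (K : Set (E n)) (pr : E n → E n), Body K → IsProj K pr →
  ∀ l : ℝ, 0 < l → Function.Injective (fun x => pr x + l • (x - pr x)) ∧
    (fun x => pr x + l • (x - pr x)) '' shell K 1 = shell K l

def S_NUL : Prop := ∀ (n : ℕ) (f : E n → E n) (C : ℝ≥0), LipschitzWith C f → ∀ s : Set (E n),
  volume s = 0 → volume (f '' s) = 0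

def S_ARE : Prop := ∀ (n : ℕ) (K : Set (E n)) (pr : E n → E n), Body K → IsProj K pr →
  ∀ l : ℝ, 0 < l →
  IntegrableOn (fun x => (fderiv ℝ pr x + l • (ContinuousLinearMap.id ℝ (E n) - fderiv ℝ pr x)).det)
    (shell K 1) ∧
  (volume (shell K l)).toReal = ∫ x in shell K 1,
    (fderiv ℝ pr x + l • (ContinuousLinearMap.id ℝ (E n) - fderiv ℝ pr x)).det

def S_STP : Prop := ∀ (n : ℕ) (K : Set (E n)), Body K → ∃ c : ℕ → ℝ, (∀ j, 0 ≤ c j) ∧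
  ∀ t : ℝ, 0 ≤ t → pvol K t = ∑ j ∈ Finset.range (n + 1), c j * t ^ j

def S_NNG : Prop := ∀ (n : ℕ) (K : Set (E n)), Body K → (∃ V : ℕ → ℝ, Steiner K V) ∧
  ∀ V : ℕ → ℝ, Steiner K V → ∀ i ≤ n, 0 ≤ V i

def S_V0 : Prop := ∀ (n : ℕ) (K : Set (E n)) (V : ℕ → ℝ), Body K → Steiner K V → V 0 = 1

def S_SEG : Prop := ∀ (n : ℕ) (K : Set (E n)), Body K → ∀ x ∈ K, ∀ y ∈ K,
  ENNReal.ofReal (1 + ‖x - y‖) ≤ gint Real.pi K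

def S_V1 : Prop := ∀ (n : ℕ) (K : Set (E n)) (V : ℕ → ℝ), 1 ≤ n → Body K → Steiner K V →
  ∀ x ∈ K, ∀ y ∈ K, ‖x - y‖ ≤ V 1

/-! ## the coefficients -/

def S_AL0 : Prop := ∀ n : ℕ, alp n 0 = 1 ∧ alp n n = 1 ∧
  ∀ i ≤ n, 0 < alp n i ∧ alp n (n - i) = alp n i

def S_AL1 : Prop := ∀ n : ℕ, 1 ≤ n → √(2 * (n : ℝ) / Real.pi) ≤ alp n 1

def S_AL2 : Prop := ∀ n i : ℕ, 2 ≤ i → i ≤ n → ((n : ℝ) / i) ^ ((i : ℝ) / 2) ≤ alp n i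

def S_ALV : Prop := alp 2 1 = 4 / Real.pi ∧ alp 3 1 = 3 / 2 ∧ alp 4 1 = 16 / (3 * Real.pi) ∧
  alp 5 1 = 15 / 8 ∧ alp 6 1 = 32 / (5 * Real.pi) ∧ alp 7 1 = 35 / 16 ∧
  alp 8 1 = 256 / (35 * Real.pi)

def S_SML : Prop := ∀ n : ℕ, 2 ≤ n → n ≤ 8 →
  √(4 * Real.pi / 11) ^ n + √(4 * Real.pi / 11) ^ (n - 1) ≤ 1 + alp n 1 ∧
  √(4 * Real.pi / 11) ^ (n - 1) ≤ alp n 1 ∧
  ∀ i, 2 ≤ i → i ≤ n → √(4 * Real.pi / 11) ^ (n - i) ≤ alp n i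

/-- `ρ = ½ log(π/2)` -/
noncomputable def rho : ℝ := Real.log (Real.pi / 2) / 2

def S_LBG : Prop := ∀ (n : ℕ) (p : ℕ → ℝ) (d m : ℝ), 1 ≤ n → 0 < d → (∀ i ≤ n, 0 ≤ p i) →
  ∑ i ∈ Finset.range (n + 1), p i = 1 → m = ∑ i ∈ Finset.range (n + 1), (i : ℝ) * p i →
  ∑ i ∈ Finset.range (n + 1), (i : ℝ) ^ 2 * p i ≤ m ^ 2 + d * m →
  Real.exp (m / 2 * Real.log (n / (m + d)) - rho * min 1 m)
    ≤ ∑ i ∈ Finset.range (n + 1), alp n i * p i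

def S_NM1 : Prop := ∀ n e : ℝ, 9 ≤ n → 0 ≤ e → e ≤ n / 2 →
  (4 * Real.pi / 11 - 1) * (e / 2) + rho * min 1 e ≤ e / 2 * Real.log (n / (e + 2))

def S_NM2 : Prop := ∀ n m : ℝ, 9 ≤ n → 1 / 2 ≤ m → m ≤ n / 2 →
  (m + 1) / 17 + rho * min 1 m ≤ m / 4 * Real.log (n / (m + 1))

/-- the purely algebraic conclusion for `n ≥ 9` -/
def S_BIG : Prop := ∀ (n : ℕ) (V : ℕ → ℝ) (L : ℝ), 9 ≤ n → (∀ i ≤ n, 0 ≤ V i) → V 0 = 1 →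
  2 ≤ Wt n V → PLC n V →
  L ≤ ∑ i ∈ Finset.range (n + 1), V i * √(4 * Real.pi / 11) ^ (n - i) →
  (∀ s : ℝ, 1 ≤ s → L ≤ (1 + Real.exp (-(4 * (s - 1))) / 17) ^ n *
      ∑ i ∈ Finset.range (n + 1), V i * s ^ i) →
  L ≤ ∑ i ∈ Finset.range (n + 1), alp n i * V i

/-- the algebraic conclusion for `2 ≤ n ≤ 8` -/
def S_SMN : Prop := ∀ (n : ℕ) (V : ℕ → ℝ) (L : ℝ), 2 ≤ n → n ≤ 8 → (∀ i ≤ n, 0 ≤ V i) →
  V 0 = 1 → 1 ≤ V 1 →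
  L ≤ ∑ i ∈ Finset.range (n + 1), V i * √(4 * Real.pi / 11) ^ (n - i) →
  L ≤ ∑ i ∈ Finset.range (n + 1), alp n i * V i

/-- `n = 1` -/
def S_N1 : Prop := ∀ (K : Set (E 1)) (V : ℕ → ℝ), Body K → Steiner K V →
  (((Zpts K).ncard : ℕ) : ℝ) ≤ 1 + V 1

/-- **Wills' conjecture (1990)** -/
def S_WILLS : Prop := ∀ (n : ℕ) (K : Set (E n)) (V : ℕ → ℝ), 1 ≤ n → Body K → Steiner K V →
  (((Zpts K).ncard : ℕ) : ℝ) ≤ ∑ i ∈ Finset.range (n + 1), alp n i * V i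

end H41WI
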