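import Mathlib
import Pool.Agent.H41R2.WI.Defs

set_option autoImplicit false

open MeasureTheory Set
open scoped ENNReal NNReal Pointwise

namespace H41WI

theorem AL0_kap_pos (j : ℕ) : 0 < kap j := by
  unfold kap
  apply div_pos (Real.rpow_pos_of_pos Real.pi_pos _)
  apply Real.Gamma_pos_of_pos
  positivity

theorem AL0_kap_zero : kap 0 = 1 := by
  unfold kap
  simp

theorem AL0 : S_AL0 := by
  intro n
  have hn := AL0_kap_pos n
  refine ⟨?_, ?_, ?_⟩
  · unfold alp
    rw [AL0_kap_zero, Nat.sub_zero, one_mul, div_self hn.ne']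
  · unfold alp
    rw [Nat.sub_self, AL0_kap_zero, mul_one, div_self hn.ne']
  · intro i hi
    refine ⟨?_, ?_⟩
    · unfold alp
      exact div_pos (mul_pos (AL0_kap_pos i) (AL0_kap_pos (n-i))) hn
    · unfold alp
      rw [Nat.sub_sub_self hi, mul_comm]

end H41WI
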