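import Mathlib
import Pool.Agent.H41R2.WI.Defs

set_option autoImplicit false

open Real

namespace H41WI

theorem AL1_gamma (x : ℝ) (hx : 0 < x) : √x * Gamma (x + 1 / 2) ≤ Gamma (x + 1) := by
  have h1 := Real.Gamma_mul_add_mul_le_rpow_Gamma_mul_rpow_Gamma (s := x) (t := x + 1)
    (a := 1 / 2) (b := 1 / 2) hx (by linarith) (by norm_num) (by norm_num) (by norm_num)
  have e : (1 : ℝ) / 2 * x + 1 / 2 * (x + 1) = x + 1 / 2 := by ring
  rw [e, ← Real.sqrt_eq_rpow, ← Real.sqrt_eq_rpow] at h1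
  have hG : 0 < Gamma x := Gamma_pos_of_pos hx
  have hG1 : Gamma (x + 1) = x * Gamma x := Gamma_add_one hx.ne'
  calc √x * Gamma (x + 1 / 2) ≤ √x * (√(Gamma x) * √(Gamma (x + 1))) :=
        mul_le_mul_of_nonneg_left h1 (sqrt_nonneg x)
    _ = √(x * Gamma x) * √(Gamma (x + 1)) := by rw [sqrt_mul hx.le]; ring
    _ = Gamma (x + 1) := by
        rw [← hG1]
        exact mul_self_sqrt (by rw [hG1]; positivity)

theorem AL1_kap1 : kap 1 = 2 := by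
  unfold kap
  have h1 : ((1 : ℕ) : ℝ) / 2 + 1 = 1 / 2 + 1 := by norm_num
  rw [h1, Gamma_add_one (by norm_num), Gamma_one_half_eq, Nat.cast_one, ← sqrt_eq_rpow]
  have : √π ≠ 0 := by positivity
  field_simp

theorem AL1 : S_AL1 := by
  intro n hn
  have hn0 : (0 : ℝ) < n := by exact_mod_cast hn
  have hx : (0 : ℝ) < (n : ℝ) / 2 := by positivity
  have hg := AL1_gamma _ hx
  unfold alp
  rw [AL1_kap1]
  unfold kap
  have e1 : ((n - 1 : ℕ) : ℝ) / 2 + 1 = (n : ℝ) / 2 + 1 / 2 := by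
    rw [Nat.cast_sub hn]; push_cast; ring
  have e2 : ((n - 1 : ℕ) : ℝ) / 2 = (n : ℝ) / 2 - 1 / 2 := by
    rw [Nat.cast_sub hn]; push_cast; ring
  rw [e1, e2, rpow_sub pi_pos, ← sqrt_eq_rpow]
  have hG1 : 0 < Gamma ((n : ℝ) / 2 + 1 / 2) := Gamma_pos_of_pos (by positivity)
  have hG2 : 0 < Gamma ((n : ℝ) / 2 + 1) := Gamma_pos_of_pos (by positivity)
  have hp : 0 < π ^ ((n : ℝ) / 2) := rpow_pos_of_pos pi_pos _
  have hs : 0 < √π := sqrt_pos.2 pi_pos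
  have e3 : 2 * (π ^ ((n : ℝ) / 2) / √π / Gamma ((n : ℝ) / 2 + 1 / 2)) /
      (π ^ ((n : ℝ) / 2) / Gamma ((n : ℝ) / 2 + 1)) =
      2 / √π * (Gamma ((n : ℝ) / 2 + 1) / Gamma ((n : ℝ) / 2 + 1 / 2)) := by
    field_simp
  have e4 : √(2 * (n : ℝ) / π) = 2 / √π * √((n : ℝ) / 2) := by
    have : 2 * (n : ℝ) / π = (2 / √π) ^ 2 * ((n : ℝ) / 2) := by
      rw [div_pow, sq_sqrt pi_pos.le]
      ring
    rw [this, sqrt_mul (by positivity), sqrt_sq (by positivity)]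
  rw [e3, e4]
  apply mul_le_mul_of_nonneg_left _ (by positivity)
  rw [le_div_iff₀ hG1]
  exact hg

end H41WI
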