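import Mathlib
import Pool.Agent.H41R2.WI.Defs

set_option autoImplicit false

open MeasureTheory Set
open scoped ENNReal NNReal Pointwise

namespace H41WI

/-- generalized binomial coefficient -/
noncomputable def AL2_bt (a b : ℝ) : ℝ :=
  Real.Gamma (a+b+1) / (Real.Gamma (a+1) * Real.Gamma (b+1))

theorem AL2_alp (n i : ℕ) (hi : i ≤ n) : alp n i = AL2_bt (((n-i : ℕ):ℝ)/2) ((i:ℝ)/2) := by
  unfold alp kap AL2_bt
  have h1 : ((n-i : ℕ):ℝ) = (n:ℝ) - i := by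
    rw [Nat.cast_sub hi]
  rw [h1]
  have e : ((n:ℝ) - i)/2 + (i:ℝ)/2 + 1 = (n:ℝ)/2 + 1 := by ring
  rw [e]
  have e2 : Real.pi ^ ((n:ℝ)/2) = Real.pi ^ ((i:ℝ)/2) * Real.pi ^ (((n:ℝ)-i)/2) := by
    rw [← Real.rpow_add Real.pi_pos]
    congr 1
    ring
  rw [e2]
  have p1 : Real.pi ^ ((i:ℝ)/2) ≠ 0 := (Real.rpow_pos_of_pos Real.pi_pos _).ne'
  have p2 : Real.pi ^ (((n:ℝ)-i)/2) ≠ 0 := (Real.rpow_pos_of_pos Real.pi_pos _).ne'
  have g1 : Real.Gamma ((i:ℝ)/2+1) ≠ 0 := (Real.Gamma_pos_of_pos (by positivity)).ne'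
  have hin : (i:ℝ) ≤ n := by exact_mod_cast hi
  have g2 : Real.Gamma (((n:ℝ)-i)/2+1) ≠ 0 := (Real.Gamma_pos_of_pos (by linarith)).ne'
  have g3 : Real.Gamma ((n:ℝ)/2+1) ≠ 0 := (Real.Gamma_pos_of_pos (by positivity)).ne'
  field_simp

theorem AL2_bt_pos (a b : ℝ) (ha : 0 ≤ a) (hb : 0 ≤ b) : 0 < AL2_bt a b := by
  unfold AL2_bt
  apply div_pos (Real.Gamma_pos_of_pos (by positivity))
  exact mul_pos (Real.Gamma_pos_of_pos (by positivity)) (Real.Gamma_pos_of_pos (by positivity))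

theorem AL2_bt_succ (a b : ℝ) (ha : 0 ≤ a) (hb : 0 ≤ b) :
    AL2_bt a (b+1) = (a+b+1)/(b+1) * AL2_bt a b := by
  unfold AL2_bt
  rw [show a + (b+1) + 1 = (a+b+1) + 1 by ring, Real.Gamma_add_one (s := a+b+1) (by positivity),
    Real.Gamma_add_one (s := b+1) (by positivity)]
  have g1 : Real.Gamma (a+1) ≠ 0 := (Real.Gamma_pos_of_pos (by positivity)).ne'
  have g2 : Real.Gamma (b+1) ≠ 0 := (Real.Gamma_pos_of_pos (by positivity)).ne'
  have h : b + 1 ≠ 0 := by positivity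
  field_simp

theorem AL2_bt_comm (a b : ℝ) : AL2_bt a b = AL2_bt b a := by
  unfold AL2_bt
  rw [add_comm a b, mul_comm (Real.Gamma (a+1))]

theorem AL2_step (a b : ℝ) (ha : 0 ≤ a) (hb : 0 < b) (h : ((a+b)/b)^b ≤ AL2_bt a b) :
    ((a+(b+1))/(b+1))^(b+1) ≤ AL2_bt a (b+1) := by
  rw [AL2_bt_succ a b ha hb.le]
  have h0 : 0 < (a+(b+1))/(b+1) := by positivity
  rw [Real.rpow_add_one h0.ne', mul_comm, ← add_assoc]
  apply mul_le_mul_of_nonneg_left _ (by positivity)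
  refine le_trans ?_ h
  apply Real.rpow_le_rpow (by positivity) _ hb.le
  rw [div_le_div_iff₀ (by positivity) hb]
  nlinarith

theorem AL2_one (a : ℝ) (ha : 0 ≤ a) : ((a+1)/1)^(1:ℝ) ≤ AL2_bt a 1 := by
  rw [Real.rpow_one, div_one]
  unfold AL2_bt
  rw [Real.Gamma_add_one (s := a+1) (by positivity)]
  have g1 : Real.Gamma (a+1) ≠ 0 := (Real.Gamma_pos_of_pos (by positivity)).ne'
  have g2 : Real.Gamma (1+1) = 1 := by
    rw [show (1:ℝ)+1 = 2 by norm_num]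
    exact Real.Gamma_two
  rw [g2]
  field_simp
  exact le_refl _

theorem AL2_sq_step (a : ℝ) (ha : 0 ≤ a) (h : ((a+3/2)/(3/2))^3 ≤ (AL2_bt a (3/2))^2) :
    (((a+1)+3/2)/(3/2))^3 ≤ (AL2_bt (a+1) (3/2))^2 := by
  rw [AL2_bt_comm (a+1) (3/2), AL2_bt_succ (3/2) a (by norm_num) ha, AL2_bt_comm (3/2) a, mul_pow]
  have h1 : ((3/2+a+1)/(a+1))^2 * ((a+3/2)/(3/2))^3 ≤ ((3/2+a+1)/(a+1))^2 * (AL2_bt a (3/2))^2 :=
    mul_le_mul_of_nonneg_left h (by positivity)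
  refine le_trans ?_ h1
  rw [div_pow _ _ 3, div_pow _ _ 2, div_pow (a+3/2) (3/2) 3, div_mul_div_comm,
    div_le_div_iff₀ (by positivity) (by positivity)]
  have h2 : (a+1)^2*(a+5/2) ≤ (a+3/2)^3 := by nlinarith
  have h3 : (a+5/2)^2 * ((a+1)^2*(a+5/2)) ≤ (a+5/2)^2 * (a+3/2)^3 :=
    mul_le_mul_of_nonneg_left h2 (by positivity)
  nlinarith

theorem AL2_sq (k : ℕ) : (((k:ℝ)/2+3/2)/(3/2))^3 ≤ (AL2_bt ((k:ℝ)/2) (3/2))^2 := by
  induction k using Nat.twoStepInduction with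
  | zero =>
    unfold AL2_bt
    have g2 : Real.Gamma (3/2+1) ≠ 0 := (Real.Gamma_pos_of_pos (by positivity)).ne'
    simp only [Nat.cast_zero, zero_div, zero_add, Real.Gamma_one, one_mul]
    rw [div_self g2]
    norm_num
  | one =>
    unfold AL2_bt
    rw [show ((1:ℕ):ℝ)/2 + 3/2 + 1 = 2 + 1 by norm_num,
      show ((1:ℕ):ℝ)/2 + 1 = 1/2 + 1 by norm_num,
      show (3/2:ℝ) + 1 = (1/2+1) + 1 by norm_num,
      Real.Gamma_add_one (s := 2) (by norm_num),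
      Real.Gamma_add_one (s := 1/2+1) (by norm_num),
      Real.Gamma_add_one (s := 1/2) (by norm_num), Real.Gamma_one_half_eq, Real.Gamma_two]
    have hpi := Real.pi_pos
    have h4 := Real.pi_lt_d2
    have e : (1 / 2 * √Real.pi * ((1 / 2 + 1) * (1 / 2 * √Real.pi))) = 3/8 * Real.pi := by
      have := Real.mul_self_sqrt hpi.le
      linear_combination 3/8 * this
    rw [e, div_pow _ _ 3, div_pow _ _ 2, div_le_div_iff₀ (by positivity) (by positivity)]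
    norm_num at h4 ⊢
    nlinarith
  | more k h _ =>
    have := AL2_sq_step ((k:ℝ)/2) (by positivity) h
    have e : (((k+2 : ℕ)):ℝ)/2 = (k:ℝ)/2+1 := by
      push_cast
      ring
    rw [e]
    exact this

theorem AL2_three (k : ℕ) : (((k:ℝ)/2+3/2)/(3/2))^(3/2:ℝ) ≤ AL2_bt ((k:ℝ)/2) (3/2) := by
  have h := AL2_sq k
  have h0 := AL2_bt_pos ((k:ℝ)/2) (3/2) (by positivity) (by norm_num)
  refine le_of_sq_le_sq ?_ h0.le
  refine le_trans (le_of_eq ?_) h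
  rw [← Real.rpow_natCast, ← Real.rpow_mul (by positivity)]
  norm_num

theorem AL2_main (k i : ℕ) : (((k:ℝ)/2+((i+2:ℕ):ℝ)/2)/(((i+2:ℕ):ℝ)/2))^(((i+2:ℕ):ℝ)/2) ≤
    AL2_bt ((k:ℝ)/2) (((i+2:ℕ):ℝ)/2) := by
  induction i using Nat.twoStepInduction with
  | zero =>
    have := AL2_one ((k:ℝ)/2) (by positivity)
    norm_num at this ⊢
    exact this
  | one =>
    have := AL2_three k
    norm_num at this ⊢
    exact this
  | more i h _ =>
    have := AL2_step ((k:ℝ)/2) (((i+2:ℕ):ℝ)/2) (by positivity) (by positivity) h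
    have e : (((i+2+2 : ℕ)):ℝ)/2 = ((i+2:ℕ):ℝ)/2+1 := by
      push_cast
      ring
    rw [e]
    exact this

theorem AL2 : S_AL2 := by
  intro n i hi hin
  rw [AL2_alp n i hin]
  obtain ⟨j, rfl⟩ : ∃ j, i = j + 2 := ⟨i-2, by omega⟩
  have := AL2_main (n-(j+2)) j
  refine le_trans (le_of_eq ?_) this
  congr 1
  rw [Nat.cast_sub hin]
  have : (0:ℝ) < ((j+2:ℕ):ℝ) := by positivity
  field_simp
  ring

end H41WI
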