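import Pool.Agent.H41R2.WI.Defs

set_option autoImplicit false

namespace H41WI

theorem ALV_rec (n : ℕ) : kap (n + 2) = kap n * (2 * Real.pi / ((n : ℝ) + 2)) := by
  unfold kap
  have h1 : ((n + 2 : ℕ) : ℝ) / 2 = (n : ℝ) / 2 + 1 := by
    push_cast
    ring
  have hG : Real.Gamma ((n : ℝ) / 2 + 1 + 1) = ((n : ℝ) / 2 + 1) * Real.Gamma ((n : ℝ) / 2 + 1) :=
    Real.Gamma_add_one (by positivity)
  have hpos : 0 < Real.Gamma ((n : ℝ) / 2 + 1) := Real.Gamma_pos_of_pos (by positivity)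
  rw [h1, hG, Real.rpow_add Real.pi_pos, Real.rpow_one]
  have h2 : ((n : ℝ) + 2) ≠ 0 := by positivity
  field_simp

theorem ALV_k0 : kap 0 = 1 := by
  unfold kap
  simp

theorem ALV_k1 : kap 1 = 2 := by
  unfold kap
  have hG : Real.Gamma (((1 : ℕ) : ℝ) / 2 + 1) = (1 / 2) * √Real.pi := by
    rw [Nat.cast_one, Real.Gamma_add_one (by norm_num), Real.Gamma_one_half_eq]
  rw [hG, Nat.cast_one, ← Real.sqrt_eq_rpow]
  have : √Real.pi ≠ 0 := (Real.sqrt_pos.mpr Real.pi_pos).ne'
  field_simp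

theorem ALV : S_ALV := by
  have k0 := ALV_k0
  have k1 := ALV_k1
  have k2 : kap 2 = Real.pi := by
    have := ALV_rec 0
    rw [k0] at this
    rw [this]
    push_cast
    ring
  have k3 : kap 3 = 4 * Real.pi / 3 := by
    have := ALV_rec 1
    rw [k1] at this
    rw [this]
    push_cast
    ring
  have k4 : kap 4 = Real.pi ^ 2 / 2 := by
    have := ALV_rec 2
    rw [k2] at this
    rw [this]
    push_cast
    ring
  have k5 : kap 5 = 8 * Real.pi ^ 2 / 15 := by
    have := ALV_rec 3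
    rw [k3] at this
    rw [this]
    push_cast
    ring
  have k6 : kap 6 = Real.pi ^ 3 / 6 := by
    have := ALV_rec 4
    rw [k4] at this
    rw [this]
    push_cast
    ring
  have k7 : kap 7 = 16 * Real.pi ^ 3 / 105 := by
    have := ALV_rec 5
    rw [k5] at this
    rw [this]
    push_cast
    ring
  have k8 : kap 8 = Real.pi ^ 4 / 24 := by
    have := ALV_rec 6
    rw [k6] at this
    rw [this]
    push_cast
    ring
  have hp : Real.pi ≠ 0 := Real.pi_ne_zero
  unfold S_ALV alp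
  norm_num only [k1, k2, k3, k4, k5, k6, k7, k8]
  refine ⟨?_, ?_, ?_, ?_, ?_, ?_, ?_⟩ <;> (try field_simp) <;> norm_num

end H41WI
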