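import Pool.Agent.H41R2.WI.Defs

set_option autoImplicit false

open MeasureTheory Set
open scoped ENNReal NNReal Pointwise

namespace H41WI

theorem ARE_meas {n : ℕ} (K : Set (E n)) (l : ℝ) : MeasurableSet (shell K l) := by
  have h : Continuous fun x : E n => Metric.infDist x K := Metric.continuous_infDist_pt K
  exact (measurableSet_lt measurable_const h.measurable).inter
    (measurableSet_le h.measurable measurable_const)

theorem ARE_lip {n : ℕ} (pr : E n → E n) (hL : LipschitzWith 1 pr) (l : ℝ) :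
    LipschitzWith (1 + ‖l‖₊ * (1 + 1)) (fun x => pr x + l • (x - pr x)) := by
  have h1 : LipschitzWith (1 + 1) (fun x : E n => x - pr x) := LipschitzWith.id.sub hL
  have h2 : LipschitzWith (‖l‖₊ * (1 + 1)) (fun x : E n => l • (x - pr x)) :=
    (lipschitzWith_smul l).comp h1
  exact hL.add h2

theorem ARE_fin {n : ℕ} (K : Set (E n)) (pr : E n → E n) (hK : Body K) (hpr : IsProj K pr) (l : ℝ) :
    volume (shell K l) < ⊤ := by
  obtain ⟨R, hR⟩ := hK.cpt.isBounded.subset_closedBall (0 : E n)
  refine lt_of_le_of_lt (measure_mono ?_)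
    (measure_closedBall_lt_top (μ := (volume : Measure (E n))) (x := (0 : E n)) (r := R + l))
  intro x hx
  have h1 := hpr.dist_eq x
  have h2 := hR (hpr.mem x)
  rw [mem_closedBall_zero_iff] at h2 ⊢
  have h3 : ‖x‖ ≤ ‖x - pr x‖ + ‖pr x‖ := by
    calc ‖x‖ = ‖(x - pr x) + pr x‖ := by rw [sub_add_cancel]
      _ ≤ _ := norm_add_le _ _
  have h4 := hx.2
  linarith

theorem ARE (hFRM : S_FRM) (hSYM : S_SYM) (hDET : S_DET) (hINV : S_INV) (hNUL : S_NUL) : S_ARE := by
  intro n K pr hK hpr l hl
  have hL : LipschitzWith 1 pr := (hFRM n K pr hpr).2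
  set g : E n → ℝ := fun x =>
    (fderiv ℝ pr x + l • (ContinuousLinearMap.id ℝ (E n) - fderiv ℝ pr x)).det with hg
  set D : Set (E n) := {x | DifferentiableAt ℝ pr x} with hD
  have hDm : MeasurableSet D := measurableSet_of_differentiableAt ℝ pr
  have hDae : ∀ᵐ x ∂(volume : Measure (E n)), x ∈ D := hL.ae_differentiableAt
  have hDnull : volume Dᶜ = 0 := by
    rw [← mem_ae_iff]; exact hDae
  have hAm := ARE_meas K 1
  have hderiv : ∀ x ∈ D, HasFDerivAt (fun x => pr x + l • (x - pr x))
      (fderiv ℝ pr x + l • (ContinuousLinearMap.id ℝ (E n) - fderiv ℝ pr x)) x := by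
    intro x hx
    have h1 : HasFDerivAt pr (fderiv ℝ pr x) x := (show DifferentiableAt ℝ pr x from hx).hasFDerivAt
    exact h1.add (((hasFDerivAt_id x).sub h1).const_smul l)
  obtain ⟨hinj, himg⟩ := hINV n K pr hK hpr l hl
  have hlint : ∫⁻ x in shell K 1 ∩ D, ENNReal.ofReal |g x| = volume (shell K l) := by
    rw [lintegral_abs_det_fderiv_eq_addHaar_image volume (hAm.inter hDm)
      (fun x hx => (hderiv x hx.2).hasFDerivWithinAt) hinj.injOn]
    apply le_antisymm
    · rw [← himg]
      exact measure_mono (image_mono inter_subset_left)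
    · have h1 : volume ((fun x => pr x + l • (x - pr x)) '' Dᶜ) = 0 :=
        hNUL n _ _ (ARE_lip pr hL l) _ hDnull
      have h2 : shell K l ⊆ (fun x => pr x + l • (x - pr x)) '' (shell K 1 ∩ D) ∪
          (fun x => pr x + l • (x - pr x)) '' Dᶜ := by
        rw [← himg]
        rintro _ ⟨x, hx, rfl⟩
        by_cases hxD : x ∈ D
        · exact Or.inl ⟨x, ⟨hx, hxD⟩, rfl⟩
        · exact Or.inr ⟨x, hxD, rfl⟩
      calc volume (shell K l) ≤ _ := measure_mono h2
        _ ≤ _ := measure_union_le _ _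
        _ = _ := by rw [h1, add_zero]
  have hAS : (shell K 1 ∩ D : Set (E n)) =ᵐ[volume] shell K 1 := by
    filter_upwards [hDae] with x hx
    have : (x ∈ shell K 1 ∩ D) = (x ∈ shell K 1) := by
      apply propext
      exact ⟨fun h => h.1, fun h => ⟨h, hx⟩⟩
    exact this
  have hlint2 : ∫⁻ x in shell K 1, ENNReal.ofReal |g x| = volume (shell K l) := by
    rw [← hlint, Measure.restrict_congr_set hAS]
  have hpos : ∀ x ∈ D, 0 ≤ g x := by
    intro x hx
    obtain ⟨h1, h2⟩ := hSYM n K pr hpr x (fderiv ℝ pr x)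
      (show DifferentiableAt ℝ pr x from hx).hasFDerivAt
    obtain ⟨c, hc, hcl⟩ := hDET n (fderiv ℝ pr x) h1 h2
    rw [hg]
    simp only
    rw [hcl l]
    exact Finset.sum_nonneg fun j _ => mul_nonneg (hc j) (pow_nonneg hl.le _)
  have hmeas : Measurable g := by
    have h1 : Measurable (fderiv ℝ pr) := measurable_fderiv ℝ pr
    have h2 : Continuous fun P : E n →L[ℝ] E n =>
        (P + l • (ContinuousLinearMap.id ℝ (E n) - P)).det := by
      apply ContinuousLinearMap.continuous_det.comp
      fun_prop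
    exact h2.measurable.comp h1
  have hae : 0 ≤ᵐ[volume.restrict (shell K 1)] g := by
    apply ae_restrict_of_ae
    filter_upwards [hDae] with x hx
    exact hpos x hx
  constructor
  · refine ⟨hmeas.aestronglyMeasurable, ?_⟩
    rw [HasFiniteIntegral]
    simp_rw [Real.enorm_eq_ofReal_abs]
    rw [hlint2]
    exact ARE_fin K pr hK hpr l
  · rw [integral_eq_lintegral_of_nonneg_ae hae hmeas.aestronglyMeasurable, ← hlint2]
    congr 1
    apply lintegral_congr_ae
    filter_upwards [hae] with x hx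
    rw [abs_of_nonneg hx]

end H41WI
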