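import Pool.Agent.H41R2.WI.Defs

/-! Task BIG (helper613): the algebraic conclusion for `n ≥ 9`. -/

set_option autoImplicit false

open MeasureTheory Set
open scoped ENNReal NNReal Pointwise

namespace H41WI

theorem BIG_mn_add_en (n : ℕ) (V : ℕ → ℝ) (hW : 0 < Wt n V) : mn n V + en n V = n := by
  have h : ∑ i ∈ Finset.range (n + 1), (i : ℝ) * V i +
      ∑ i ∈ Finset.range (n + 1), ((n : ℝ) - i) * V i = n * Wt n V := by
    rw [← Finset.sum_add_distrib, Wt, Finset.mul_sum]
    exact Finset.sum_congr rfl fun i _ => by ring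
  rw [mn, en, ← add_div, h]
  field_simp

theorem BIG_mn_ge (n : ℕ) (V : ℕ → ℝ) (hV : ∀ i ≤ n, 0 ≤ V i) (hV0 : V 0 = 1)
    (hW : 2 ≤ Wt n V) : 1 / 2 ≤ mn n V := by
  have h1 : Wt n V - 1 ≤ ∑ i ∈ Finset.range (n + 1), (i : ℝ) * V i := by
    rw [Wt, Finset.sum_range_succ', Finset.sum_range_succ' (fun i => (i : ℝ) * V i), hV0]
    have h2 : ∑ k ∈ Finset.range n, V (k + 1) ≤
        ∑ k ∈ Finset.range n, ((k + 1 : ℕ) : ℝ) * V (k + 1) := by
      refine Finset.sum_le_sum fun k hk => ?_
      have hk' := Finset.mem_range.1 hk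
      have h3 := hV (k + 1) (by omega)
      have h4 : (1 : ℝ) ≤ ((k + 1 : ℕ) : ℝ) := by
        push_cast
        linarith [Nat.cast_nonneg (α := ℝ) k]
      calc V (k + 1) = 1 * V (k + 1) := (one_mul _).symm
        _ ≤ _ := mul_le_mul_of_nonneg_right h4 h3
    have h5 : ((0 : ℕ) : ℝ) * 1 = 0 := by simp
    linarith
  rw [mn, le_div_iff₀ (by linarith)]
  linarith

theorem BIG_sum_reflect (n : ℕ) (f : ℕ → ℝ) :
    ∑ i ∈ Finset.range (n + 1), f (n - i) = ∑ i ∈ Finset.range (n + 1), f i := by
  have h := Finset.sum_range_reflect f (n + 1)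
  rw [← h]
  exact Finset.sum_congr rfl fun i _ => by congr 1

theorem BIG (h0 : S_AL0) (hL : S_LBG) (h1 : S_NM1) (h2 : S_NM2) : S_BIG := by
  intro n V L hn hV hV0 hW hP hL1 hL2
  have hW0 : 0 < Wt n V := by linarith
  have hne : (Wt n V) ≠ 0 := hW0.ne'
  have hn9 : (9 : ℝ) ≤ (n : ℝ) := by exact_mod_cast hn
  have hme := BIG_mn_add_en n V hW0
  have hm := BIG_mn_ge n V hV hV0 hW
  have he0 : 0 ≤ en n V := by
    rw [en]
    refine div_nonneg (Finset.sum_nonneg fun i hi => ?_) hW0.le
    have hi' := Finset.mem_range.1 hi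
    have h3 : (i : ℝ) ≤ n := by exact_mod_cast (by omega : i ≤ n)
    exact mul_nonneg (by linarith) (hV i (by omega))
  have hmW : ∑ i ∈ Finset.range (n + 1), (i : ℝ) * V i = mn n V * Wt n V := by
    rw [mn]; field_simp
  have heW : ∑ i ∈ Finset.range (n + 1), ((n : ℝ) - i) * V i = en n V * Wt n V := by
    rw [en]; field_simp
  rcases le_or_gt (en n V) (n / 2) with hc | hc
  · -- the mean of `n - i` is small
    have hA : L ≤ Wt n V * Real.exp ((4 * Real.pi / 11 - 1) * (en n V / 2)) :=
      hL1.trans (hP.c (4 * Real.pi / 11) (by positivity))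
    have e1 : ∑ i ∈ Finset.range (n + 1), V (n - i) / Wt n V = 1 := by
      rw [BIG_sum_reflect n (fun j => V j / Wt n V), ← Finset.sum_div]
      exact div_self hne
    have e2 : en n V = ∑ i ∈ Finset.range (n + 1), (i : ℝ) * (V (n - i) / Wt n V) := by
      have h3 : ∀ i ∈ Finset.range (n + 1), (i : ℝ) * (V (n - i) / Wt n V) =
          (fun j : ℕ => ((n : ℝ) - j) * V j / Wt n V) (n - i) := by
        intro i hi
        have hi' := Finset.mem_range.1 hi
        simp only
        rw [Nat.cast_sub (by omega)]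
        ring
      rw [Finset.sum_congr rfl h3,
        BIG_sum_reflect n (fun j : ℕ => ((n : ℝ) - j) * V j / Wt n V), ← Finset.sum_div]
      rfl
    have e3 : ∑ i ∈ Finset.range (n + 1), (i : ℝ) ^ 2 * (V (n - i) / Wt n V) ≤
        en n V ^ 2 + 2 * en n V := by
      have h3 : ∀ i ∈ Finset.range (n + 1), (i : ℝ) ^ 2 * (V (n - i) / Wt n V) =
          (fun j : ℕ => ((n : ℝ) - j) ^ 2 * V j / Wt n V) (n - i) := by
        intro i hi
        have hi' := Finset.mem_range.1 hi
        simp only
        rw [Nat.cast_sub (by omega)]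
        ring
      rw [Finset.sum_congr rfl h3,
        BIG_sum_reflect n (fun j : ℕ => ((n : ℝ) - j) ^ 2 * V j / Wt n V), ← Finset.sum_div, div_le_iff₀ hW0]
      linarith [hP.d]
    have e4 : ∑ i ∈ Finset.range (n + 1), alp n i * (V (n - i) / Wt n V) =
        (∑ i ∈ Finset.range (n + 1), alp n i * V i) / Wt n V := by
      have h3 : ∀ i ∈ Finset.range (n + 1), alp n i * (V (n - i) / Wt n V) =
          (fun j : ℕ => alp n j * V j / Wt n V) (n - i) := by
        intro i hi
        have hi' := Finset.mem_range.1 hi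
        simp only
        rw [((h0 n).2.2 i (by omega)).2]
        ring
      rw [Finset.sum_congr rfl h3,
        BIG_sum_reflect n (fun j : ℕ => alp n j * V j / Wt n V), ← Finset.sum_div]
    have hB := hL n (fun i => V (n - i) / Wt n V) 2 (en n V) (by omega) (by norm_num)
      (fun i _ => div_nonneg (hV _ (Nat.sub_le _ _)) hW0.le) e1 e2 e3
    rw [e4, le_div_iff₀ hW0] at hB
    have hC := h1 n (en n V) hn9 he0 hc
    have hD : Real.exp ((4 * Real.pi / 11 - 1) * (en n V / 2)) ≤
        Real.exp (en n V / 2 * Real.log (n / (en n V + 2)) - rho * min 1 (en n V)) :=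
      Real.exp_le_exp.2 (by linarith)
    have hE := mul_le_mul_of_nonneg_left hD hW0.le
    rw [mul_comm (Wt n V) (Real.exp (en n V / 2 * _ - _))] at hE
    exact hA.trans (hE.trans hB)
  · -- the mean of `i` is small
    have hm2 : mn n V ≤ n / 2 := by linarith
    set m := mn n V with hmdef
    have hm1 : 0 < m + 1 := by linarith
    have hn0 : (0 : ℝ) < n := by linarith
    have hq : 1 ≤ n / (m + 1) := by
      rw [le_div_iff₀ hm1]
      linarith
    have hlog : 0 ≤ Real.log (n / (m + 1)) := Real.log_nonneg hq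
    have hA := hL2 (1 + Real.log (n / (m + 1)) / 4) (by linarith)
    have hs0 : 0 < 1 + Real.log (n / (m + 1)) / 4 := by linarith
    have hexp : Real.exp (-(4 * (1 + Real.log (n / (m + 1)) / 4 - 1))) = (m + 1) / n := by
      have : -(4 * (1 + Real.log (n / (m + 1)) / 4 - 1)) = - Real.log (n / (m + 1)) := by ring
      rw [this, Real.exp_neg, Real.exp_log (by positivity), inv_div]
    rw [hexp] at hA
    have hpow : (1 + (m + 1) / n / 17) ^ n ≤ Real.exp ((m + 1) / 17) := by
      have h3 : 1 + (m + 1) / n / 17 ≤ Real.exp ((m + 1) / n / 17) := by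
        linarith [Real.add_one_le_exp ((m + 1) / n / 17)]
      calc (1 + (m + 1) / n / 17) ^ n ≤ Real.exp ((m + 1) / n / 17) ^ n :=
            pow_le_pow_left₀ (by positivity) h3 n
        _ = Real.exp ((m + 1) / 17) := by
            rw [← Real.exp_nat_mul]
            congr 1
            field_simp
    have hPa := hP.a (1 + Real.log (n / (m + 1)) / 4) hs0
    rw [← hmdef] at hPa
    have hS0 : 0 ≤ ∑ i ∈ Finset.range (n + 1), V i * (1 + Real.log (n / (m + 1)) / 4) ^ i :=
      Finset.sum_nonneg fun i hi =>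
        mul_nonneg (hV i (by have := Finset.mem_range.1 hi; omega)) (by positivity)
    have hA2 : L ≤ Real.exp ((m + 1) / 17) *
        (Wt n V * Real.exp ((1 + Real.log (n / (m + 1)) / 4 - 1) * m)) :=
      hA.trans (mul_le_mul hpow hPa hS0 (Real.exp_pos _).le)
    have e1 : ∑ i ∈ Finset.range (n + 1), V i / Wt n V = 1 := by
      rw [← Finset.sum_div]
      exact div_self hne
    have e2 : m = ∑ i ∈ Finset.range (n + 1), (i : ℝ) * (V i / Wt n V) := by
      rw [hmdef, mn, Finset.sum_div]
      exact Finset.sum_congr rfl fun i _ => by ring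
    have e3 : ∑ i ∈ Finset.range (n + 1), (i : ℝ) ^ 2 * (V i / Wt n V) ≤ m ^ 2 + 1 * m := by
      have h3 : ∑ i ∈ Finset.range (n + 1), (i : ℝ) ^ 2 * (V i / Wt n V) =
          (∑ i ∈ Finset.range (n + 1), (i : ℝ) ^ 2 * V i) / Wt n V := by
        rw [Finset.sum_div]
        exact Finset.sum_congr rfl fun i _ => by ring
      rw [h3, div_le_iff₀ hW0]
      have h4 := hP.b
      rw [← hmdef] at h4
      linarith
    have e4 : ∑ i ∈ Finset.range (n + 1), alp n i * (V i / Wt n V) =
        (∑ i ∈ Finset.range (n + 1), alp n i * V i) / Wt n V := by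
      rw [Finset.sum_div]
      exact Finset.sum_congr rfl fun i _ => by ring
    have hB := hL n (fun i => V i / Wt n V) 1 m (by omega) (by norm_num)
      (fun i hi => div_nonneg (hV _ hi) hW0.le) e1 e2 e3
    rw [e4, le_div_iff₀ hW0] at hB
    have hC := h2 n m hn9 hm hm2
    have hD : Real.exp ((m + 1) / 17) * Real.exp ((1 + Real.log (n / (m + 1)) / 4 - 1) * m) ≤
        Real.exp (m / 2 * Real.log (n / (m + 1)) - rho * min 1 m) := by
      rw [← Real.exp_add]
      apply Real.exp_le_exp.2
      have h3 : (1 + Real.log (n / (m + 1)) / 4 - 1) * m = m / 4 * Real.log (n / (m + 1)) := by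
        ring
      have h4 : m / 2 * Real.log (n / (m + 1)) =
          m / 4 * Real.log (n / (m + 1)) + m / 4 * Real.log (n / (m + 1)) := by ring
      rw [h3, h4]
      linarith
    have hE := mul_le_mul_of_nonneg_right hD hW0.le
    calc L ≤ Real.exp ((m + 1) / 17) *
        (Wt n V * Real.exp ((1 + Real.log (n / (m + 1)) / 4 - 1) * m)) := hA2
      _ = Real.exp ((m + 1) / 17) * Real.exp ((1 + Real.log (n / (m + 1)) / 4 - 1) * m) *
          Wt n V := by ring
      _ ≤ _ := hE.trans hB

end H41WI
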