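import Pool.Agent.H41R2.WI.Defs

set_option autoImplicit false

open MeasureTheory Set
open scoped ENNReal NNReal Pointwise

namespace H41WI

theorem CLO_cont (a t : ℝ) :
    Continuous fun x : ℝ => Real.exp (-(t * zz a t x + a * (x - zz a t x) ^ 2)) := by
  have h : Continuous fun x : ℝ => zz a t x := by
    unfold zz
    exact continuous_const.max (continuous_id.sub continuous_const)
  fun_prop

theorem CLO_right (a t : ℝ) (ha : 0 < a) (ht : 0 < t) :
    (∫ x in (t / (2 * a))..1, Real.exp (t ^ 2 / (4 * a) - t * x)) =
      (Real.exp (-(t ^ 2 / (4 * a))) - Real.exp (t ^ 2 / (4 * a) - t)) / t := by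
  have hderiv : ∀ x ∈ Set.uIcc (t / (2 * a)) 1,
      HasDerivAt (fun x : ℝ => -(Real.exp (t ^ 2 / (4 * a) - t * x)) / t)
        (Real.exp (t ^ 2 / (4 * a) - t * x)) x := by
    intro x _
    have h1 : HasDerivAt (fun x : ℝ => t ^ 2 / (4 * a) - t * x) (-(t * 1)) x := by
      simpa using ((hasDerivAt_id x).const_mul t).const_sub (t ^ 2 / (4 * a))
    have h2 := (h1.exp.neg).div_const t
    refine h2.congr_deriv ?_
    field_simp
  rw [intervalIntegral.integral_eq_sub_of_hasDerivAt hderiv
    (Continuous.intervalIntegrable (by fun_prop) _ _)]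
  have e1 : t ^ 2 / (4 * a) - t * (t / (2 * a)) = -(t ^ 2 / (4 * a)) := by
    field_simp
    ring
  rw [e1, mul_one]
  ring

theorem CLO : S_CLO := by
  intro a t ha ht hta
  have hu0 : 0 ≤ t / (2 * a) := by positivity
  have hu1 : t / (2 * a) ≤ 1 := by
    rw [div_le_one (by positivity)]
    exact hta
  have hi : ∀ p q : ℝ, IntervalIntegrable
      (fun x : ℝ => Real.exp (-(t * zz a t x + a * (x - zz a t x) ^ 2))) volume p q :=
    fun p q => (CLO_cont a t).intervalIntegrable p q
  unfold II
  rw [← intervalIntegral.integral_add_adjacent_intervals (hi 0 (t / (2 * a)))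
    (hi (t / (2 * a)) 1)]
  congr 1
  · apply intervalIntegral.integral_congr
    intro x hx
    rw [Set.uIcc_of_le hu0] at hx
    have hz : zz a t x = 0 := by
      unfold zz
      exact max_eq_left (by linarith [hx.2])
    simp only [hz, mul_zero, zero_add, sub_zero]
  · rw [← CLO_right a t ha ht]
    apply intervalIntegral.integral_congr
    intro x hx
    rw [Set.uIcc_of_le hu1] at hx
    have hz : zz a t x = x - t / (2 * a) := by
      unfold zz
      exact max_eq_right (by linarith [hx.1])
    simp only [hz]
    congr 1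
    field_simp
    ring

end H41WI
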