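import Pool.Agent.H41R2.WI.Defs

/-!
Task CNT: integer points of a convex body and the Gaussian integral.
-/

set_option autoImplicit false

open MeasureTheory Set
open scoped ENNReal NNReal Pointwise

namespace H41WI

theorem CNT_finite {n : ℕ} {K : Set (E n)} (hK : IsCompact K) : (Zpts K).Finite := by
  obtain ⟨R, hR⟩ := hK.isBounded.subset_closedBall (0 : E n)
  refine (Set.finite_Icc (fun _ : Fin n => -⌈R⌉) (fun _ => ⌈R⌉)).subset ?_
  intro z hz
  have h1 := hR hz
  rw [mem_closedBall_zero_iff] at h1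
  have h2 : ∀ i, |(z i : ℝ)| ≤ R := by
    intro i
    have := PiLp.norm_apply_le (WithLp.toLp 2 (fun j => (z j : ℝ)) : E n) i
    refine le_trans ?_ (this.trans h1)
    simp
  have h3 : ∀ i, |z i| ≤ ⌈R⌉ := by
    intro i
    have := (h2 i).trans (Int.le_ceil R)
    exact_mod_cast this
  exact ⟨fun i => (abs_le.1 (h3 i)).1, fun i => (abs_le.1 (h3 i)).2⟩

theorem CNT (h1 : S_TEN) (h2 : S_TRF) : S_CNT := by
  intro a c ha hc hO n K hK
  have hfin := CNT_finite hK.cpt
  refine ⟨hfin, ?_⟩
  set K' : Set (Fin n → ℝ) := {y | (WithLp.toLp 2 y : E n) ∈ K} with hK'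
  have hconv : Convex ℝ K' := by
    have := hK.cvx.linear_preimage ((WithLp.linearEquiv 2 ℝ (Fin n → ℝ)).symm.toLinearMap)
    exact this
  have h3 := h1 a c ha hc hO n K' hconv
  rw [h2 a n K ha.le hK.cpt hK.ne] at h3
  refine le_trans (le_of_eq ?_) h3
  have e1 : ∀ z : Fin n → ℤ, K'.indicator (fun _ => (1 : ℝ≥0∞)) (fun i => (z i : ℝ)) =
      (Zpts K).indicator (fun _ => (1 : ℝ≥0∞)) z := by
    intro z
    by_cases hz : z ∈ Zpts K
    · rw [Set.indicator_of_mem hz, Set.indicator_of_mem]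
      exact hz
    · rw [Set.indicator_of_notMem hz, Set.indicator_of_notMem]
      exact hz
  rw [tsum_congr e1, tsum_eq_sum (s := hfin.toFinset) (fun z hz => Set.indicator_of_notMem
    (by simpa using hz) _), Finset.sum_congr rfl (fun z hz => Set.indicator_of_mem
    (by simpa using hz) _), Finset.sum_const, nsmul_eq_mul, mul_one,
    Set.ncard_eq_toFinset_card _ hfin]

end H41WI
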