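import Pool.Agent.H41R2.WI.Defs

set_option autoImplicit false

open MeasureTheory Set
open scoped ENNReal NNReal Pointwise

namespace H41WI

theorem DET_poly (n : ℕ) (a b : Fin n → ℝ) (ha : ∀ k, 0 ≤ a k) (hb : ∀ k, 0 ≤ b k) :
    ∃ c : ℕ → ℝ, (∀ j, 0 ≤ c j) ∧ ∀ l : ℝ,
      ∏ k, (a k + l * b k) = ∑ j ∈ Finset.range (n + 1), c j * l ^ j := by
  classical
  set p : Polynomial ℝ := ∏ k, (Polynomial.C (a k) + Polynomial.C (b k) * Polynomial.X) with hp
  have hdeg : p.natDegree < n + 1 := by
    have h1 : p.natDegree ≤ ∑ k : Fin n, (Polynomial.C (a k) + Polynomial.C (b k) * Polynomial.X).natDegree :=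
      Polynomial.natDegree_prod_le _ _
    have h2 : ∀ k : Fin n, (Polynomial.C (a k) + Polynomial.C (b k) * Polynomial.X).natDegree ≤ 1 := by
      intro k
      rw [add_comm]
      exact Polynomial.natDegree_linear_le
    have h3 : ∑ k : Fin n, (Polynomial.C (a k) + Polynomial.C (b k) * Polynomial.X).natDegree
        ≤ ∑ _k : Fin n, 1 := Finset.sum_le_sum (fun k (_ : k ∈ Finset.univ) => h2 k)
    rw [Finset.sum_const, Finset.card_univ, Fintype.card_fin, smul_eq_mul, mul_one] at h3
    omega
  refine ⟨fun j => p.coeff j, ?_, ?_⟩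
  · have key : ∀ s : Finset (Fin n), ∀ j, 0 ≤ (∏ k ∈ s, (Polynomial.C (a k) + Polynomial.C (b k) * Polynomial.X)).coeff j := by
      intro s
      induction s using Finset.induction_on with
      | empty =>
        intro j
        rw [Finset.prod_empty, Polynomial.coeff_one]
        split_ifs
        · exact zero_le_one
        · exact le_refl 0
      | insert i s hi ih =>
        intro j
        rw [Finset.prod_insert hi, add_mul, mul_assoc, Polynomial.coeff_add, Polynomial.coeff_C_mul,
          Polynomial.coeff_C_mul]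
        refine add_nonneg (mul_nonneg (ha i) (ih j)) (mul_nonneg (hb i) ?_)
        rcases j with _ | j
        · simp
        · rw [Polynomial.coeff_X_mul]; exact ih j
    exact key Finset.univ
  · intro l
    rw [← Polynomial.eval_eq_sum_range' hdeg l, hp, Polynomial.eval_prod]
    refine Finset.prod_congr rfl fun k _ => ?_
    rw [Polynomial.eval_add, Polynomial.eval_mul, Polynomial.eval_C, Polynomial.eval_C,
      Polynomial.eval_X, mul_comm]

/-- **DET** -/
theorem DET : S_DET := by
  intro n P hsym hfirm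
  have hT : (P : E n →ₗ[ℝ] E n).IsSymmetric := fun v w => hsym v w
  have hn : Module.finrank ℝ (E n) = n := by simp
  set μ := hT.eigenvalues hn with hμ
  set b := hT.eigenvectorBasis hn with hb
  have happ : ∀ k, P (b k) = μ k • b k := by
    intro k
    exact hT.apply_eigenvectorBasis hn k
  have hnorm : ∀ k, ‖b k‖ = 1 := fun k => b.orthonormal.1 k
  have hmu : ∀ k, 0 ≤ μ k ∧ μ k ≤ 1 := by
    intro k
    have h1 := hfirm (b k)
    rw [happ k, norm_smul, hnorm k, real_inner_smul_left, real_inner_self_eq_norm_sq, hnorm k] at h1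
    simp only [Real.norm_eq_abs, mul_one, sq_abs, one_pow] at h1
    constructor
    · nlinarith [sq_nonneg (μ k)]
    · by_contra hcon
      push Not at hcon
      nlinarith
  obtain ⟨c, hc, hc2⟩ := DET_poly n μ (fun k => 1 - μ k) (fun k => (hmu k).1)
    (fun k => by linarith [(hmu k).2])
  refine ⟨c, hc, fun l => ?_⟩
  rw [← hc2 l]
  have hdet : (P + l • (ContinuousLinearMap.id ℝ (E n) - P)).det
      = LinearMap.det ((P + l • (ContinuousLinearMap.id ℝ (E n) - P) : E n →L[ℝ] E n) : E n →ₗ[ℝ] E n) := rfl
  rw [hdet, ← LinearMap.det_toMatrix b.toBasis]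
  have hM : LinearMap.toMatrix b.toBasis b.toBasis
      ((P + l • (ContinuousLinearMap.id ℝ (E n) - P) : E n →L[ℝ] E n) : E n →ₗ[ℝ] E n)
      = Matrix.diagonal (fun k => μ k + l * (1 - μ k)) := by
    ext i j
    rw [LinearMap.toMatrix_apply]
    have h1 : ((P + l • (ContinuousLinearMap.id ℝ (E n) - P) : E n →L[ℝ] E n) : E n →ₗ[ℝ] E n) (b.toBasis j)
        = (μ j + l * (1 - μ j)) • b j := by
      rw [OrthonormalBasis.coe_toBasis]
      simp only [ContinuousLinearMap.coe_coe, _root_.add_apply,
        _root_.smul_apply, _root_.sub_apply, ContinuousLinearMap.id_apply]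
      rw [happ j]
      module
    rw [h1, ← OrthonormalBasis.coe_toBasis, map_smul, Module.Basis.repr_self]
    rw [Matrix.diagonal_apply]
    simp only [Finsupp.smul_apply, smul_eq_mul, Finsupp.single_apply]
    by_cases h : j = i
    · subst h; simp
    · rw [if_neg h, if_neg (Ne.symm h)]; simp
  rw [hM, Matrix.det_diagonal]

end H41WI
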