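import Pool.Agent.H41R2.WI.Defs

set_option autoImplicit false

open MeasureTheory Set
open scoped ENNReal NNReal Pointwise

namespace H41WI

/-- Taylor polynomial of `exp (-y)` with `n` terms -/
noncomputable def EL1_T (n : ℕ) (y : ℝ) : ℝ := ∑ k ∈ Finset.range n, (-y) ^ k / (k.factorial : ℝ)

theorem EL1_T_deriv (n : ℕ) (y : ℝ) : HasDerivAt (EL1_T (n + 1)) (-EL1_T n y) y := by
  induction n with
  | zero =>
    have : EL1_T 1 = fun _ => 1 := by funext z; simp [EL1_T]
    rw [this]
    simpa [EL1_T] using hasDerivAt_const y (1 : ℝ)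
  | succ n ih =>
    have h1 : EL1_T (n + 1 + 1) = fun z => EL1_T (n + 1) z + (-z) ^ (n + 1) / ((n + 1).factorial : ℝ) := by
      funext z; simp [EL1_T, Finset.sum_range_succ]
    rw [h1]
    have h2 : HasDerivAt (fun z : ℝ => (-z) ^ (n + 1) / ((n + 1).factorial : ℝ))
        (-((-y) ^ n / (n.factorial : ℝ))) y := by
      have h3 : HasDerivAt (fun z : ℝ => (-z) ^ (n + 1) / ((n + 1).factorial : ℝ))
          (((n + 1 : ℕ) : ℝ) * (-y) ^ (n + 1 - 1) * -1 / ((n + 1).factorial : ℝ)) y :=
        ((hasDerivAt_neg y).pow (n + 1)).div_const ((n + 1).factorial : ℝ)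
      refine h3.congr_deriv ?_
      rw [Nat.factorial_succ]
      have hn : (n.factorial : ℝ) ≠ 0 := by positivity
      push_cast
      have hn1 : ((n : ℝ) + 1) ≠ 0 := by positivity
      field_simp
    refine (ih.add h2).congr_deriv ?_
    simp only [EL1_T, Finset.sum_range_succ]
    ring

theorem EL1_alt (n : ℕ) : ∀ y : ℝ, 0 ≤ y → 0 ≤ (-1 : ℝ) ^ n * (Real.exp (-y) - EL1_T n y) := by
  induction n with
  | zero => intro y _; simp [EL1_T, Real.exp_nonneg]
  | succ n ih =>
    intro y hy
    have hd : ∀ z : ℝ, HasDerivAt (fun z : ℝ => (-1 : ℝ) ^ (n + 1) * (Real.exp (-z) - EL1_T (n + 1) z))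
        ((-1 : ℝ) ^ n * (Real.exp (-z) - EL1_T n z)) z := by
      intro z
      have h1 : HasDerivAt (fun z : ℝ => Real.exp (-z)) (-Real.exp (-z)) z := by
        simpa using (hasDerivAt_neg z).exp
      have h2 : HasDerivAt
          (fun z : ℝ => (-1 : ℝ) ^ (n + 1) * (Real.exp (-z) - EL1_T (n + 1) z))
          ((-1 : ℝ) ^ (n + 1) * (-Real.exp (-z) - -EL1_T n z)) z :=
        (h1.sub (EL1_T_deriv n z)).const_mul ((-1 : ℝ) ^ (n + 1))
      refine h2.congr_deriv ?_
      rw [pow_succ]; ring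
    have hm : MonotoneOn (fun z : ℝ => (-1 : ℝ) ^ (n + 1) * (Real.exp (-z) - EL1_T (n + 1) z))
        (Set.Ici 0) := by
      apply monotoneOn_of_deriv_nonneg (convex_Ici 0)
      · exact fun z _ => (hd z).continuousAt.continuousWithinAt
      · exact fun z _ => (hd z).differentiableAt.differentiableWithinAt
      · intro z hz
        rw [(hd z).deriv]
        rw [interior_Ici] at hz
        exact ih z (le_of_lt hz)
    have h0 := hm (Set.mem_Ici.2 le_rfl) (Set.mem_Ici.2 hy) hy
    have h1 : EL1_T (n + 1) 0 = 1 := by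
      simp [EL1_T, Finset.sum_range_succ']
    simp only [neg_zero, Real.exp_zero, h1, sub_self, mul_zero] at h0
    exact h0

theorem EL1_lb (y : ℝ) (hy : 0 ≤ y) : EL1_T 14 y ≤ Real.exp (-y) := by
  have := EL1_alt 14 y hy
  norm_num at this
  exact this

theorem EL1_int : ∫ x in (0 : ℝ)..1, EL1_T 14 (11 / 4 * x ^ 2) =
    ∑ k ∈ Finset.range 14, (-(11 / 4 : ℝ)) ^ k / (k.factorial : ℝ) / (2 * k + 1) := by
  unfold EL1_T
  rw [intervalIntegral.integral_finsetSum]
  · refine Finset.sum_congr rfl fun k _ => ?_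
    have h1 : ∀ x : ℝ, (-(11 / 4 * x ^ 2)) ^ k / (k.factorial : ℝ) =
        (-(11 / 4 : ℝ)) ^ k / (k.factorial : ℝ) * x ^ (2 * k) := by
      intro x
      rw [pow_mul, neg_mul_eq_neg_mul, mul_pow]; ring
    simp only [h1]
    rw [intervalIntegral.integral_const_mul, integral_pow]
    push_cast
    simp
    ring
  · intro k _
    apply Continuous.intervalIntegrable
    fun_prop

theorem EL1 : S_EL1 := by
  unfold S_EL1
  have h1 : ∫ x in (0 : ℝ)..1, EL1_T 14 (11 / 4 * x ^ 2) ≤
      ∫ x in (0 : ℝ)..1, Real.exp (-(11 / 4 * x ^ 2)) := by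
    apply intervalIntegral.integral_mono_on (by norm_num)
    · apply Continuous.intervalIntegrable
      unfold EL1_T
      fun_prop
    · apply Continuous.intervalIntegrable
      fun_prop
    · intro x _
      exact EL1_lb _ (by positivity)
  refine le_trans ?_ h1
  rw [EL1_int]
  have h2 : (22 : ℝ) ≤ Real.exp (31 / 10) := by
    have := Real.sum_le_exp_of_nonneg (x := 31 / 10) (by norm_num) 12
    refine le_trans ?_ this
    norm_num [Finset.sum_range_succ, Nat.factorial]
  have h3 : Real.exp (-(31 / 10)) ≤ 1 / 22 := by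
    rw [Real.exp_neg, ← one_div]
    exact one_div_le_one_div_of_le (by norm_num) h2
  refine le_trans (b := (1 + 1 / 22) / 2) (by linarith) ?_
  norm_num [Finset.sum_range_succ, Nat.factorial]

end H41WI
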