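import Pool.Agent.H41R2.WI.Defs

open MeasureTheory Set

namespace H41WI

theorem EL2_expneg (y : ℝ) (hy : 0 ≤ y) : 1 - y + y ^ 2 / 2 - y ^ 3 / 6 ≤ Real.exp (-y) := by
  have hanti : AntitoneOn (fun z : ℝ => Real.exp z * (1 - z + z ^ 2 / 2 - z ^ 3 / 6)) (Ici 0) := by
    have hd : ∀ z : ℝ, HasDerivAt (fun z : ℝ => Real.exp z * (1 - z + z ^ 2 / 2 - z ^ 3 / 6))
        (Real.exp z * (-(z ^ 3) / 6)) z := by
      intro z
      have h1 : HasDerivAt (fun z : ℝ => 1 - z + z ^ 2 / 2 - z ^ 3 / 6)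
          (-1 + z - z ^ 2 / 2) z := by
        have h := (((hasDerivAt_const z (1 : ℝ)).sub (hasDerivAt_id z)).add
          ((hasDerivAt_pow 2 z).div_const 2)).sub ((hasDerivAt_pow 3 z).div_const 6)
        refine h.congr_deriv ?_
        norm_num
        ring
      refine ((Real.hasDerivAt_exp z).mul h1).congr_deriv ?_
      ring
    apply antitoneOn_of_deriv_nonpos (convex_Ici 0)
    · exact fun z _ => (hd z).continuousAt.continuousWithinAt
    · exact fun z _ => (hd z).differentiableAt.differentiableWithinAt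
    · intro z hz
      rw [interior_Ici, mem_Ioi] at hz
      rw [(hd z).deriv]
      have : 0 < z ^ 3 := by positivity
      have h2 := Real.exp_pos z
      nlinarith
  have h := hanti (mem_Ici.2 le_rfl) (mem_Ici.2 hy) hy
  simp only [Real.exp_zero] at h
  rw [Real.exp_neg]
  have h2 := Real.exp_pos y
  rw [← one_div, le_div_iff₀ h2]
  linarith

theorem EL2_sinh (u : ℝ) (hu : 0 ≤ u) : u + u ^ 3 / 6 ≤ Real.sinh u := by
  have h := Real.hasSum_sinh u
  have h2 := sum_le_hasSum (Finset.range 2) (fun i _ => by positivity) h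
  rw [Finset.sum_range_succ, Finset.sum_range_succ, Finset.sum_range_zero] at h2
  norm_num [Nat.factorial] at h2
  linarith

theorem EL2_cosh (b : ℝ) (h0 : 0 ≤ b) (h1 : b ≤ 31 / 20) :
    Real.cosh b ≤ 1 + b ^ 2 / 2 + b ^ 4 / 24 + b ^ 6 / 720 + b ^ 8 / 20160 := by
  have key : ∀ x : ℝ, |x| ≤ 31 / 20 →
      Real.exp x ≤ (1 + x + x ^ 2 / 2 + x ^ 3 / 6 + x ^ 4 / 24 + x ^ 5 / 120 + x ^ 6 / 720
        + x ^ 7 / 5040) + |x| ^ 8 / 20160 := by
    intro x hx
    have h := Complex.exp_bound' (x := (x : ℂ)) (n := 8) (by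
      rw [Complex.norm_real, Real.norm_eq_abs]
      rw [div_le_iff₀ (by positivity)]
      norm_num
      linarith)
    have e : Complex.exp (x : ℂ) - ∑ m ∈ Finset.range 8, (x : ℂ) ^ m / (m.factorial : ℂ)
        = ((Real.exp x - ∑ m ∈ Finset.range 8, x ^ m / (m.factorial : ℝ) : ℝ) : ℂ) := by
      push_cast
      rfl
    rw [e, Complex.norm_real, Complex.norm_real, Real.norm_eq_abs, Real.norm_eq_abs] at h
    have h3 := le_trans (le_abs_self _) h
    simp only [Finset.sum_range_succ, Finset.sum_range_zero] at h3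
    norm_num [Nat.factorial] at h3
    linarith
  have ha : |b| = b := abs_of_nonneg h0
  have k1 := key b (by rw [ha]; exact h1)
  have k2 := key (-b) (by rw [abs_neg, ha]; exact h1)
  rw [abs_neg] at k2
  rw [ha] at k1 k2
  rw [Real.cosh_eq]
  linarith

theorem EL2_int (b : ℝ) (h0 : 0 ≤ b) :
    4 / 11 * b - (4 / 11) ^ 2 * b ^ 3 / 3 + (4 / 11) ^ 3 * b ^ 5 / 10 - (4 / 11) ^ 4 * b ^ 7 / 42
      ≤ ∫ x in (0 : ℝ)..(4 / 11 * b), Real.exp (-(11 / 4 * x ^ 2)) := by
  have hle : (0 : ℝ) ≤ 4 / 11 * b := by positivity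
  have h : (∫ x in (0 : ℝ)..(4 / 11 * b), (1 - (11 / 4 * x ^ 2) + (11 / 4 * x ^ 2) ^ 2 / 2
      - (11 / 4 * x ^ 2) ^ 3 / 6)) ≤ ∫ x in (0 : ℝ)..(4 / 11 * b), Real.exp (-(11 / 4 * x ^ 2)) := by
    apply intervalIntegral.integral_mono_on hle
    · apply Continuous.intervalIntegrable; fun_prop
    · apply Continuous.intervalIntegrable; fun_prop
    · intro x _
      exact EL2_expneg _ (by positivity)
  refine le_trans (le_of_eq ?_) h
  have hF : ∀ x : ℝ, HasDerivAt (fun x : ℝ => x - 11 / 12 * x ^ 3 + 121 / 160 * x ^ 5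
      - 1331 / 2688 * x ^ 7)
      (1 - (11 / 4 * x ^ 2) + (11 / 4 * x ^ 2) ^ 2 / 2 - (11 / 4 * x ^ 2) ^ 3 / 6) x := by
    intro x
    have h := (((hasDerivAt_id x).sub ((hasDerivAt_pow 3 x).const_mul (11 / 12))).add
      ((hasDerivAt_pow 5 x).const_mul (121 / 160))).sub ((hasDerivAt_pow 7 x).const_mul (1331 / 2688))
    refine h.congr_deriv ?_
    norm_num
    ring
  rw [intervalIntegral.integral_eq_sub_of_hasDerivAt (fun x _ => hF x)]
  · ring
  · apply Continuous.intervalIntegrable; fun_prop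

theorem EL2_poly (b : ℝ) (h0 : 0 ≤ b) (h1 : b ≤ 31 / 20) :
    0 ≤ ((b - 4 / 11 * b ^ 2) + (b - 4 / 11 * b ^ 2) ^ 3 / 6)
      + b * ((1 + b + b ^ 2 / 2 + b ^ 3 / 6 + b ^ 4 / 24 + b ^ 5 / 120)
        * (4 / 11 * b - (4 / 11) ^ 2 * b ^ 3 / 3 + (4 / 11) ^ 3 * b ^ 5 / 10
          - (4 / 11) ^ 4 * b ^ 7 / 42))
      - b * (1 + b ^ 2 / 2 + b ^ 4 / 24 + b ^ 6 / 720 + b ^ 8 / 20160) := by
  have h2 : 0 ≤ 31 / 20 - b := by linarith
  have e : ((b - 4 / 11 * b ^ 2) + (b - 4 / 11 * b ^ 2) ^ 3 / 6)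
      + b * ((1 + b + b ^ 2 / 2 + b ^ 3 / 6 + b ^ 4 / 24 + b ^ 5 / 120)
        * (4 / 11 * b - (4 / 11) ^ 2 * b ^ 3 / 3 + (4 / 11) ^ 3 * b ^ 5 / 10
          - (4 / 11) ^ 4 * b ^ 7 / 42))
      - b * (1 + b ^ 2 / 2 + b ^ 4 / 24 + b ^ 6 / 720 + b ^ 8 / 20160)
      = b ^ 3 * ((10240000000000/27047733470366433) * (b ^ 0 * (31/20 - b) ^ 10) + (290816000000000/99175022724676921) * (b ^ 1 * (31/20 - b) ^ 9) + (3149180800000000/297525068174030763) * (b ^ 2 * (31/20 - b) ^ 8) + (78786563456000000/3272775749914338393) * (b ^ 3 * (31/20 - b) ^ 7) + (34715525976800000/892575204522092289) * (b ^ 4 * (31/20 - b) ^ 6) + (35158114132176320000/756011198230212168783) * (b ^ 5 * (31/20 - b) ^ 5) + (30792577578359783500/756011198230212168783) * (b ^ 6 * (31/20 - b) ^ 4) + (6307485925045046800/252003732743404056261) * (b ^ 7 * (31/20 - b) ^ 3) + (1083857569565851192/108001599747173166969) * (b ^ 8 * (31/20 - b) ^ 2) + (192339768680912752/84001244247801352087)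 * (b ^ 9 * (31/20 - b) ^ 1) + (109768443419281972/540007998735865834845) * (b ^ 10 * (31/20 - b) ^ 0)) := by
    ring
  rw [e]
  positivity

theorem EL2 : S_EL2 := by
  intro t ht0 ht1
  obtain ⟨b, rfl⟩ : ∃ b, t = 2 * b := ⟨t / 2, by ring⟩
  have hb0 : 0 < b := by linarith
  have hb1 : b ≤ 31 / 20 := by linarith
  have e1 : 2 * b / (11 / 2) = 4 / 11 * b := by ring
  rw [e1]
  set J := ∫ x in (0 : ℝ)..(4 / 11 * b), Real.exp (-(11 / 4 * x ^ 2)) with hJ
  have hJl := EL2_int b hb0.le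
  rw [← hJ] at hJl
  have hJ0 : 0 ≤ J := by
    apply intervalIntegral.integral_nonneg (by positivity)
    intro x _
    exact (Real.exp_pos _).le
  set u := b - 4 / 11 * b ^ 2 with hu
  have hu0 : 0 ≤ u := by
    have : 0 ≤ b * (1 - 4 / 11 * b) := mul_nonneg hb0.le (by linarith)
    rw [hu]; linarith [this, (by ring : b * (1 - 4 / 11 * b) = b - 4 / 11 * b ^ 2)]
  have hs := EL2_sinh u hu0
  have hc := EL2_cosh b hb0.le hb1
  have hE : 1 + b + b ^ 2 / 2 + b ^ 3 / 6 + b ^ 4 / 24 + b ^ 5 / 120 ≤ Real.exp b := by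
    have h := Real.sum_le_exp_of_nonneg hb0.le 6
    simp only [Finset.sum_range_succ, Finset.sum_range_zero] at h
    norm_num [Nat.factorial] at h
    linarith
  have hp := EL2_poly b hb0.le hb1
  rw [← hu] at hp
  have hEJ : (1 + b + b ^ 2 / 2 + b ^ 3 / 6 + b ^ 4 / 24 + b ^ 5 / 120)
        * (4 / 11 * b - (4 / 11) ^ 2 * b ^ 3 / 3 + (4 / 11) ^ 3 * b ^ 5 / 10
          - (4 / 11) ^ 4 * b ^ 7 / 42) ≤ Real.exp b * J := by
    calc _ ≤ (1 + b + b ^ 2 / 2 + b ^ 3 / 6 + b ^ 4 / 24 + b ^ 5 / 120) * J :=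
          mul_le_mul_of_nonneg_left hJl (by positivity)
      _ ≤ Real.exp b * J := mul_le_mul_of_nonneg_right hE hJ0
  have main : b * Real.cosh b ≤ b * (Real.exp b * J) + Real.sinh u := by
    have h1 := mul_le_mul_of_nonneg_left hc hb0.le
    have h2 := mul_le_mul_of_nonneg_left hEJ hb0.le
    linarith
  -- transform
  have eb : Real.exp (-(2 * b)) = Real.exp (-b) * Real.exp (-b) := by
    rw [← Real.exp_add]; congr 1; ring
  have e2 : Real.exp (-((2 * b) ^ 2 / 11)) = Real.exp (-b) * Real.exp u := by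
    rw [← Real.exp_add]; congr 1; rw [hu]; ring
  have e3 : Real.exp ((2 * b) ^ 2 / 11 - 2 * b) = Real.exp (-b) * Real.exp (-u) := by
    rw [← Real.exp_add]; congr 1; rw [hu]; ring
  have ebb : Real.exp (-b) * Real.exp b = 1 := by
    rw [← Real.exp_add]; simp
  rw [eb, e2, e3]
  have hpos := Real.exp_pos (-b)
  have hmul := mul_le_mul_of_nonneg_left main hpos.le
  rw [Real.cosh_eq, Real.sinh_eq] at hmul
  have hgoal : J + (Real.exp (-b) * Real.exp u - Real.exp (-b) * Real.exp (-u)) / (2 * b)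
      - (1 + Real.exp (-b) * Real.exp (-b)) / 2
      = (Real.exp (-b) * (b * (Real.exp b * J) + (Real.exp u - Real.exp (-u)) / 2)
        - Real.exp (-b) * (b * ((Real.exp b + Real.exp (-b)) / 2))) / b := by
    field_simp
    have : Real.exp (-b) * Real.exp b = 1 := ebb
    linear_combination (-(2 * b * J) + b) * this
  have : 0 ≤ J + (Real.exp (-b) * Real.exp u - Real.exp (-b) * Real.exp (-u)) / (2 * b)
      - (1 + Real.exp (-b) * Real.exp (-b)) / 2 := by
    rw [hgoal]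
    apply div_nonneg _ hb0.le
    linarith
  linarith

end H41WI
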