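import Pool.Agent.H41R2.WI.Defs

/-!
# Task FLC: log-concavity of the Gaussian parallel function
-/

set_option autoImplicit false

open MeasureTheory Set
open scoped ENNReal NNReal Pointwise

namespace H41WI

theorem FLC_exp (a : ℝ) (m : ℕ) (t : ℝ) (ha : 0 ≤ a) (ht : 0 < t) (ht1 : t < 1)
    (u v y y' : Fin m → ℝ) :
    -(a * ∑ i, (u i - y i) ^ 2) * (1 - t) + -(a * ∑ i, (v i - y' i) ^ 2) * t ≤
      -(a * ∑ i, (((1 - t) • u + t • v) i - ((1 - t) • y + t • y') i) ^ 2) := by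
  have h : ∑ i, (((1 - t) • u + t • v) i - ((1 - t) • y + t • y') i) ^ 2 ≤
      (∑ i, (u i - y i) ^ 2) * (1 - t) + (∑ i, (v i - y' i) ^ 2) * t := by
    rw [Finset.sum_mul, Finset.sum_mul, ← Finset.sum_add_distrib]
    refine Finset.sum_le_sum fun i _ => ?_
    simp only [Pi.add_apply, Pi.smul_apply, smul_eq_mul]
    have : 0 ≤ t * (1 - t) * ((u i - y i) - (v i - y' i)) ^ 2 :=
      mul_nonneg (mul_nonneg ht.le (by linarith)) (sq_nonneg _)
    nlinarith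
  have := mul_le_mul_of_nonneg_left h ha
  nlinarith

theorem FLC : S_FLC := by
  intro a m K0 K1 K2 t ha ht ht1 hK u v
  have h1t : 0 < 1 - t := by linarith
  have key : ∀ y ∈ K0, ∀ y' ∈ K1,
      ENNReal.ofReal (Real.exp (-(a * ∑ i, (u i - y i) ^ 2))) ^ (1 - t) *
        ENNReal.ofReal (Real.exp (-(a * ∑ i, (v i - y' i) ^ 2))) ^ t ≤
          Fs a K2 ((1 - t) • u + t • v) := by
    intro y hy y' hy'
    rw [ENNReal.ofReal_rpow_of_pos (Real.exp_pos _), ENNReal.ofReal_rpow_of_pos (Real.exp_pos _),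
      ← Real.exp_mul, ← Real.exp_mul, ← ENNReal.ofReal_mul (Real.exp_pos _).le, ← Real.exp_add]
    refine le_trans ?_ (le_iSup₂_of_le ((1 - t) • y + t • y') (hK y hy y' hy') le_rfl)
    apply ENNReal.ofReal_le_ofReal
    apply Real.exp_le_exp.2
    exact FLC_exp a m t ha ht ht1 u v y y'
  have e0 : Fs a K0 u ^ (1 - t) =
      ⨆ y ∈ K0, ENNReal.ofReal (Real.exp (-(a * ∑ i, (u i - y i) ^ 2))) ^ (1 - t) :=
    (ENNReal.orderIsoRpow (1 - t) h1t).map_iSup₂
      (fun (y : Fin m → ℝ) (_ : y ∈ K0) =>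
        ENNReal.ofReal (Real.exp (-(a * ∑ i, (u i - y i) ^ 2))))
  have e1 : Fs a K1 v ^ t =
      ⨆ y ∈ K1, ENNReal.ofReal (Real.exp (-(a * ∑ i, (v i - y i) ^ 2))) ^ t :=
    (ENNReal.orderIsoRpow t ht).map_iSup₂
      (fun (y : Fin m → ℝ) (_ : y ∈ K1) =>
        ENNReal.ofReal (Real.exp (-(a * ∑ i, (v i - y i) ^ 2))))
  rw [e0, e1]
  simp only [ENNReal.iSup_mul, ENNReal.mul_iSup]
  exact iSup₂_le fun y hy => iSup₂_le fun y' hy' => key _ (by assumption) _ (by assumption)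

end H41WI
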