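import Pool.Agent.H41R2.WI.Defs

set_option autoImplicit false

open MeasureTheory Set
open scoped ENNReal NNReal Pointwise

namespace H41WI

theorem FRM : S_FRM := by
  intro n K pr hpr
  have key : ∀ x y : E n, ‖pr x - pr y‖ ^ 2 ≤ inner ℝ (pr x - pr y) (x - y) := by
    intro x y
    have h1 := hpr.inner_le x (pr y) (hpr.mem y)
    have h2 := hpr.inner_le y (pr x) (hpr.mem x)
    have e1 : inner ℝ (x - pr x) (pr y - pr x) + inner ℝ (y - pr y) (pr x - pr y) =
        ‖pr x - pr y‖ ^ 2 - inner ℝ (pr x - pr y) (x - y) := by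
      rw [← real_inner_self_eq_norm_sq]
      simp only [inner_sub_left, inner_sub_right, real_inner_comm]
      ring
    linarith
  refine ⟨key, LipschitzWith.of_dist_le_mul fun x y => ?_⟩
  rw [dist_eq_norm, dist_eq_norm, NNReal.coe_one, one_mul]
  have h1 := key x y
  have h2 := real_inner_le_norm (pr x - pr y) (x - y)
  by_contra hc
  push Not at hc
  have h3 : 0 < ‖pr x - pr y‖ := lt_of_le_of_lt (norm_nonneg _) hc
  nlinarith [norm_nonneg (x - y)]

end H41WI
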