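import Pool.Agent.H41R2.WI.Defs

set_option autoImplicit false

open MeasureTheory Set Filter
open scoped ENNReal NNReal Pointwise

namespace H41WI

theorem GAU (hLAY : S_LAY) (hRAD : S_RAD) : S_GAU := by
  intro n K V a ha hK hne hS
  set g : ℝ → ℝ := fun r => ∑ i ∈ Finset.range (n + 1),
    (kap (n - i) * V i) * (2 * a * r * Real.exp (-(a * r ^ 2)) * r ^ (n - i)) with hg
  have hgeq : ∀ r : ℝ, 0 ≤ r → g r = 2 * a * r * Real.exp (-(a * r ^ 2)) * pvol K r := by
    intro r hr
    rw [hS r hr, Finset.mul_sum, hg]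
    apply Finset.sum_congr rfl
    intro i _
    ring
  have hgint : IntegrableOn g (Ioi 0) := by
    apply integrable_finsetSum
    intro i _
    exact ((hRAD a (n - i) ha).1).const_mul _
  have hfin : ∀ r : ℝ, volume (K + Metric.closedBall (0 : E n) r) ≠ ⊤ := by
    intro r
    exact (hK.add (isCompact_closedBall _ _)).measure_lt_top.ne
  have hgint_eq : gint a K = ENNReal.ofReal (∫ r in Ioi (0 : ℝ), g r) := by
    rw [hLAY n K a ha hK hne, ofReal_integral_eq_lintegral_ofReal hgint]
    · apply setLIntegral_congr_fun measurableSet_Ioi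
      intro r hr
      have hr' : (0 : ℝ) ≤ r := le_of_lt hr
      show ENNReal.ofReal (2 * a * r * Real.exp (-(a * r ^ 2))) *
        volume (K + Metric.closedBall (0 : E n) r) = ENNReal.ofReal (g r)
      have hA : 0 ≤ 2 * a * r * Real.exp (-(a * r ^ 2)) := by positivity
      have hB : ENNReal.ofReal (2 * a * r * Real.exp (-(a * r ^ 2)) * pvol K r) =
          ENNReal.ofReal (2 * a * r * Real.exp (-(a * r ^ 2))) * ENNReal.ofReal (pvol K r) :=
        ENNReal.ofReal_mul hA
      rw [hgeq r hr', hB, pvol, ENNReal.ofReal_toReal (hfin r)]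
    · refine (ae_restrict_iff' measurableSet_Ioi).mpr (Eventually.of_forall ?_)
      intro r hr
      have hr' : (0 : ℝ) ≤ r := le_of_lt hr
      show 0 ≤ g r
      rw [hgeq r hr', pvol]
      positivity
  have hval : ∫ r in Ioi (0 : ℝ), g r =
      ∑ i ∈ Finset.range (n + 1), V i * √(Real.pi / a) ^ (n - i) := by
    rw [hg, integral_finsetSum]
    · apply Finset.sum_congr rfl
      intro i _
      rw [integral_const_mul, ← (hRAD a (n - i) ha).2]
      ring
    · intro i _
      exact ((hRAD a (n - i) ha).1).const_mul _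
  have hnn : 0 ≤ ∫ r in Ioi (0 : ℝ), g r := by
    apply setIntegral_nonneg measurableSet_Ioi
    intro r hr
    have hr' : (0 : ℝ) ≤ r := le_of_lt hr
    rw [hgeq r hr', pvol]
    positivity
  refine ⟨by rw [hgint_eq]; exact ENNReal.ofReal_ne_top, ?_⟩
  rw [hgint_eq, ENNReal.toReal_ofReal hnn, hval]

end H41WI
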