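import Pool.Agent.H41R2.WI.Defs

set_option autoImplicit false

open MeasureTheory Set
open scoped ENNReal NNReal Pointwise

namespace H41WI

theorem GLB : S_GLB := by
  intro a m K x z y
  unfold Fs
  rw [ENNReal.mul_iSup]
  refine iSup_le fun y' => ?_
  rw [ENNReal.mul_iSup]
  refine iSup_le fun hy' => ?_
  have h1 : (Fin.cons z y' : Fin (m + 1) → ℝ) ∈ K := hy'
  refine le_trans (le_of_eq ?_) (le_iSup₂_of_le (Fin.cons z y') h1 le_rfl)
  rw [← ENNReal.ofReal_mul (Real.exp_pos _).le, ← Real.exp_add, Fin.sum_univ_succ]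
  simp only [Fin.cons_zero, Fin.cons_succ]
  congr 2
  ring

end H41WI
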