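import Pool.Agent.H41R2.WI.Defs

set_option autoImplicit false

open MeasureTheory Set
open scoped ENNReal NNReal Pointwise

namespace H41WI

theorem GRD_firm {n : ℕ} {K : Set (E n)} {pr : E n → E n} (hp : IsProj K pr) (x y : E n) :
    ‖pr y - pr x‖ ≤ ‖y - x‖ := by
  have h1 := hp.inner_le x (pr y) (hp.mem y)
  have h2 := hp.inner_le y (pr x) (hp.mem x)
  have h3 : ‖pr y - pr x‖ ^ 2 ≤ inner ℝ (y - x) (pr y - pr x) := by
    rw [← real_inner_self_eq_norm_sq]
    have e1 : inner ℝ (y - pr y) (pr x - pr y) = -inner ℝ (y - pr y) (pr y - pr x) := by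
      rw [← inner_neg_right, neg_sub]
    have e2 : inner ℝ (y - x) (pr y - pr x) = inner ℝ (y - pr y) (pr y - pr x)
        - inner ℝ (x - pr x) (pr y - pr x) + inner ℝ (pr y - pr x) (pr y - pr x) := by
      rw [← inner_sub_left, ← inner_add_left]
      congr 1
      abel
    rw [e2]
    linarith
  have h4 := real_inner_le_norm (y - x) (pr y - pr x)
  by_contra hlt
  push Not at hlt
  have h5 : 0 < ‖pr y - pr x‖ := lt_of_le_of_lt (norm_nonneg _) hlt
  nlinarith

theorem GRD : S_GRD := by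
  intro n K pr hp x
  rw [hasFDerivAt_iff_isLittleO_nhds_zero]
  have key : ∀ h : E n, ‖‖x + h - pr (x + h)‖ ^ 2 / 2 - ‖x - pr x‖ ^ 2 / 2
      - (innerSL ℝ (x - pr x)) h‖ ≤ ‖h‖ ^ 2 := by
    intro h
    have hup : ‖x + h - pr (x + h)‖ ≤ ‖x + h - pr x‖ := by
      rw [hp.dist_eq, ← dist_eq_norm]
      exact Metric.infDist_le_dist_of_mem (hp.mem x)
    have hlo : ‖x - pr x‖ ≤ ‖x - pr (x + h)‖ := by
      rw [hp.dist_eq, ← dist_eq_norm]
      exact Metric.infDist_le_dist_of_mem (hp.mem _)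
    have hf := GRD_firm hp x (x + h)
    rw [add_sub_cancel_left] at hf
    have e1 : ‖x + h - pr x‖ ^ 2 = ‖x - pr x‖ ^ 2 + 2 * inner ℝ (x - pr x) h + ‖h‖ ^ 2 := by
      rw [← norm_add_sq_real]
      congr 2
      abel
    have e2 : ‖x - pr (x + h)‖ ^ 2 = ‖x + h - pr (x + h)‖ ^ 2
        - 2 * inner ℝ (x + h - pr (x + h)) h + ‖h‖ ^ 2 := by
      rw [← norm_sub_sq_real]
      congr 2
      abel
    have e3 : inner ℝ (x + h - pr (x + h)) h = inner ℝ (x - pr x) h + (‖h‖ ^ 2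
        - inner ℝ (pr (x + h) - pr x) h) := by
      rw [← real_inner_self_eq_norm_sq, ← inner_sub_left, ← inner_add_left]
      congr 1
      abel
    have e4 := real_inner_le_norm (pr (x + h) - pr x) h
    have e5 : ‖pr (x + h) - pr x‖ * ‖h‖ ≤ ‖h‖ * ‖h‖ :=
      mul_le_mul_of_nonneg_right hf (norm_nonneg _)
    have s1 : ‖x + h - pr (x + h)‖ ^ 2 ≤ ‖x + h - pr x‖ ^ 2 :=
      pow_le_pow_left₀ (norm_nonneg _) hup 2
    have s2 : ‖x - pr x‖ ^ 2 ≤ ‖x - pr (x + h)‖ ^ 2 :=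
      pow_le_pow_left₀ (norm_nonneg _) hlo 2
    have hh : 0 ≤ ‖h‖ ^ 2 := sq_nonneg _
    rw [innerSL_apply_apply, Real.norm_eq_abs, abs_le]
    constructor
    · nlinarith
    · nlinarith
  refine Asymptotics.IsLittleO.of_bound fun c hc => ?_
  filter_upwards [Metric.ball_mem_nhds (0 : E n) hc] with h hh
  have hn : ‖h‖ < c := by simpa using hh
  refine (key h).trans ?_
  rw [sq]
  exact mul_le_mul_of_nonneg_right hn.le (norm_nonneg _)

end H41WI
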