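import Pool.Agent.H41R2.WI.Defs

/-!
IIG: lower bounds of `I_a(t)`.
-/

set_option autoImplicit false

open MeasureTheory Set
open scoped ENNReal NNReal Pointwise

namespace H41WI

/-- `z = zz a t x` minimises `t y + a (x - y)²` over `y ≥ 0` -/
theorem IIG_min (a t x y : ℝ) (ha : 0 < a) (hy : 0 ≤ y) :
    t * zz a t x + a * (x - zz a t x) ^ 2 ≤ t * y + a * (x - y) ^ 2 := by
  unfold zz
  rcases le_total (x - t / (2 * a)) 0 with h | h
  · rw [max_eq_left h]
    have h1 : 2 * a * x ≤ t := by
      have : x ≤ t / (2 * a) := by linarith
      rw [le_div_iff₀ (by positivity)] at this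
      linarith
    nlinarith [mul_nonneg hy (sub_nonneg.mpr h1), mul_nonneg ha.le (sq_nonneg y)]
  · rw [max_eq_right h]
    have e : t = 2 * a * (t / (2 * a)) := by field_simp
    set u := t / (2 * a) with hu
    rw [e]
    nlinarith [mul_nonneg ha.le (sq_nonneg (y - (x - u)))]

theorem IIG_cont (a t : ℝ) : Continuous fun x : ℝ =>
    Real.exp (-(t * zz a t x + a * (x - zz a t x) ^ 2)) := by
  unfold zz
  fun_prop

theorem IIG : S_IIG := by
  intro a t ha ht
  constructor
  · unfold II
    apply intervalIntegral.integral_mono_on zero_le_one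
    · exact (by fun_prop : Continuous fun x : ℝ => Real.exp (-(a * x ^ 2))).intervalIntegrable _ _
    · exact (IIG_cont a t).intervalIntegrable _ _
    · intro x _
      apply Real.exp_le_exp.mpr
      have := IIG_min a t x 0 ha le_rfl
      simp only [mul_zero, zero_add, sub_zero] at this
      linarith
  · intro ht0
    have e : (∫ x in (0 : ℝ)..1, Real.exp (-(t * x))) = (1 - Real.exp (-t)) / t := by
      have h : ∀ x ∈ Set.uIcc (0 : ℝ) 1, HasDerivAt (fun x => -Real.exp (-(t * x)) / t)
          (Real.exp (-(t * x))) x := by
        intro x _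
        have h1 : HasDerivAt (fun x : ℝ => -t * x) (-t) x := by
          simpa using (hasDerivAt_id x).const_mul (-t)
        have h2 : HasDerivAt (fun x : ℝ => -1 / t * Real.exp (-t * x))
            (-1 / t * (Real.exp (-t * x) * -t)) x := h1.exp.const_mul (-1 / t)
        have h3 : (fun x : ℝ => -Real.exp (-(t * x)) / t) =
            fun x : ℝ => -1 / t * Real.exp (-t * x) := by
          funext y
          rw [neg_mul]; ring
        have h4 : Real.exp (-(t * x)) = -1 / t * (Real.exp (-t * x) * -t) := by
          rw [neg_mul]; field_simp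
        rw [h3, h4]
        exact h2
      rw [intervalIntegral.integral_eq_sub_of_hasDerivAt h]
      · simp only [mul_one, mul_zero, neg_zero, Real.exp_zero]
        ring
      · exact (by fun_prop : Continuous fun x : ℝ => Real.exp (-(t * x))).intervalIntegrable _ _
    rw [← e]
    unfold II
    apply intervalIntegral.integral_mono_on zero_le_one
    · exact (by fun_prop : Continuous fun x : ℝ => Real.exp (-(t * x))).intervalIntegrable _ _
    · exact (IIG_cont a t).intervalIntegrable _ _
    · intro x hx
      apply Real.exp_le_exp.mpr
      have := IIG_min a t x x ha hx.1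
      simp only [sub_self] at this
      nlinarith

end H41WI
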