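import Pool.Agent.H41R2.WI.Defs

/-!
# Wills' conjecture, task INT: the interval lemma
-/

set_option autoImplicit false

open MeasureTheory Set
open scoped ENNReal NNReal Pointwise

namespace H41WI

private lemma INT_shift (G : ℝ → ℝ≥0∞) (k : ℝ) :
    ∫⁻ x in Set.Icc (0 : ℝ) 1, G (k + x) = ∫⁻ x in Set.Ioc k (k + 1), G x := by
  rw [setLIntegral_congr (Ioc_ae_eq_Icc (μ := volume) (a := k) (b := k + 1)),
    ← lintegral_indicator measurableSet_Icc, ← lintegral_indicator measurableSet_Icc,
    ← lintegral_add_left_eq_self (μ := volume) ((Set.Icc k (k + 1)).indicator G) k]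
  refine lintegral_congr fun x => ?_
  simp only [Set.indicator, Set.mem_Icc]
  refine if_congr ?_ rfl rfl
  constructor <;> rintro ⟨h1, h2⟩ <;> constructor <;> linarith

private lemma INT_refl (G : ℝ → ℝ≥0∞) (k : ℝ) :
    ∫⁻ x in Set.Icc (0 : ℝ) 1, G (k + 1 - x) = ∫⁻ x in Set.Ioc k (k + 1), G x := by
  rw [setLIntegral_congr (Ioc_ae_eq_Icc (μ := volume) (a := k) (b := k + 1)),
    ← lintegral_indicator measurableSet_Icc, ← lintegral_indicator measurableSet_Icc,
    ← lintegral_sub_left_eq_self (μ := volume) ((Set.Icc k (k + 1)).indicator G) (k + 1)]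
  refine lintegral_congr fun x => ?_
  simp only [Set.indicator, Set.mem_Icc]
  refine if_congr ?_ rfl rfl
  constructor <;> rintro ⟨h1, h2⟩ <;> constructor <;> linarith

private lemma INT_II (a t : ℝ) :
    ∫⁻ x in Set.Icc (0 : ℝ) 1,
      ENNReal.ofReal (Real.exp (-(t * zz a t x + a * (x - zz a t x) ^ 2)))
      = ENNReal.ofReal (II a t) := by
  have hc : Continuous fun x : ℝ => Real.exp (-(t * zz a t x + a * (x - zz a t x) ^ 2)) := by
    unfold zz
    fun_prop
  rw [setLIntegral_congr (Ioc_ae_eq_Icc (μ := volume) (a := (0 : ℝ)) (b := 1)).symm]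
  unfold II
  rw [intervalIntegral.integral_of_le zero_le_one,
    ofReal_integral_eq_lintegral_ofReal]
  · exact (hc.intervalIntegrable 0 1).1
  · exact Filter.Eventually.of_forall fun x => (Real.exp_pos _).le

private lemma INT_core (a c : ℝ) (ha : 0 < a) (hc : 0 < c) (h1 : OneD a c)
    (h H : ℝ → ℝ≥0∞)
    (hLC : ∀ z : ℝ, 0 < z → z < 1 → h 0 ^ (1 - z) * h 1 ^ z ≤ h z)
    (hH : ∀ x z : ℝ, ENNReal.ofReal (Real.exp (-(a * (x - z) ^ 2))) * h z ≤ H x)
    (hle : h 1 ≤ h 0) :
    h 0 + h 1 ≤ 2 * (ENNReal.ofReal c * ∫⁻ x in Set.Icc (0 : ℝ) 1, H x) := by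
  obtain ⟨t, ht0, hm, hz⟩ : ∃ t : ℝ, 0 ≤ t ∧ h 1 ≤ ENNReal.ofReal (Real.exp (-t)) * h 0 ∧
      ∀ x ∈ Set.Icc (0 : ℝ) 1,
        ENNReal.ofReal (Real.exp (-(t * zz a t x))) * h 0 ≤ h (zz a t x) := by
    by_cases hcase : h 0 = ⊤ ∨ h 1 = 0
    · refine ⟨2 * a + 1, by positivity, ?_, ?_⟩
      · rcases hcase with h0 | h0
        · rw [h0, ENNReal.mul_top]
          · exact le_top
          · simpa using Real.exp_pos _
        · rw [h0]; exact zero_le
      · intro x hx
        have hzz : zz a (2 * a + 1) x = 0 := by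
          unfold zz
          refine max_eq_left ?_
          have : 1 ≤ (2 * a + 1) / (2 * a) := by
            rw [le_div_iff₀ (by positivity)]; linarith
          linarith [hx.2]
        rw [hzz]; simp
    · push Not at hcase
      obtain ⟨hM, hm0⟩ := hcase
      have hm1 : h 1 ≠ ⊤ := ne_top_of_le_ne_top hM hle
      have hM0 : h 0 ≠ 0 := by
        intro h0; rw [h0] at hle; exact hm0 (le_antisymm hle zero_le)
      set M : ℝ := (h 0).toReal with hMdef
      set m : ℝ := (h 1).toReal with hmdef
      have hMpos : 0 < M := ENNReal.toReal_pos hM0 hM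
      have hmpos : 0 < m := ENNReal.toReal_pos hm0 hm1
      have hmM : m ≤ M := ENNReal.toReal_mono hM hle
      have eM : h 0 = ENNReal.ofReal M := (ENNReal.ofReal_toReal hM).symm
      have em : h 1 = ENNReal.ofReal m := (ENNReal.ofReal_toReal hm1).symm
      have key : ∀ z : ℝ, Real.exp (-(Real.log (M / m) * z)) * M = M ^ (1 - z) * m ^ z := by
        intro z
        rw [Real.log_div hMpos.ne' hmpos.ne', Real.rpow_def_of_pos hMpos,
          Real.rpow_def_of_pos hmpos, ← Real.exp_add]
        nth_rewrite 2 [← Real.exp_log hMpos]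
        rw [← Real.exp_add]
        congr 1
        ring
      refine ⟨Real.log (M / m), Real.log_nonneg ((one_le_div hmpos).2 hmM), ?_, ?_⟩
      · rw [eM, em, ← ENNReal.ofReal_mul (Real.exp_pos _).le]
        refine ENNReal.ofReal_le_ofReal ?_
        have := key 1
        rw [mul_one] at this
        rw [this]; simp
      · intro x hx
        have hz0 : 0 ≤ zz a (Real.log (M / m)) x := le_max_left _ _
        have hz1 : zz a (Real.log (M / m)) x ≤ 1 := by
          refine max_le zero_le_one ?_
          have : 0 ≤ Real.log (M / m) / (2 * a) :=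
            div_nonneg (Real.log_nonneg ((one_le_div hmpos).2 hmM)) (by positivity)
          linarith [hx.2]
        generalize zz a (Real.log (M / m)) x = z at hz0 hz1
        rcases hz0.eq_or_lt with h0 | h0
        · rw [← h0]; simp
        rcases hz1.eq_or_lt with h1' | h1'
        · rw [h1', eM, em, ← ENNReal.ofReal_mul (Real.exp_pos _).le]
          refine ENNReal.ofReal_le_ofReal ?_
          rw [key 1]; simp
        · refine le_trans (le_of_eq ?_) (hLC z h0 h1')
          rw [eM, em, ← ENNReal.ofReal_mul (Real.exp_pos _).le, key z,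
            ENNReal.ofReal_rpow_of_pos hMpos, ENNReal.ofReal_rpow_of_pos hmpos,
            ← ENNReal.ofReal_mul (Real.rpow_nonneg hMpos.le _)]
  have hlow : ENNReal.ofReal (II a t) * h 0 ≤ ∫⁻ x in Set.Icc (0 : ℝ) 1, H x := by
    rw [← INT_II, ← lintegral_mul_const]
    · refine setLIntegral_mono' measurableSet_Icc fun x hx => ?_
      calc ENNReal.ofReal (Real.exp (-(t * zz a t x + a * (x - zz a t x) ^ 2))) * h 0
          = ENNReal.ofReal (Real.exp (-(a * (x - zz a t x) ^ 2))) *
              (ENNReal.ofReal (Real.exp (-(t * zz a t x))) * h 0) := by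
            rw [← mul_assoc, ← ENNReal.ofReal_mul (Real.exp_pos _).le, ← Real.exp_add]
            congr 3
            ring
        _ ≤ ENNReal.ofReal (Real.exp (-(a * (x - zz a t x) ^ 2))) * h (zz a t x) :=
            mul_le_mul_right (hz x hx) _
        _ ≤ H x := hH x _
    · unfold zz
      fun_prop
  have hnum : 1 + Real.exp (-t) ≤ 2 * (c * II a t) := by
    have := h1 t ht0
    linarith
  have hII : 0 ≤ II a t := by
    unfold II
    exact intervalIntegral.integral_nonneg zero_le_one fun x _ => (Real.exp_pos _).le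
  calc h 0 + h 1 ≤ h 0 + ENNReal.ofReal (Real.exp (-t)) * h 0 := by gcongr
    _ = ENNReal.ofReal (1 + Real.exp (-t)) * h 0 := by
        rw [ENNReal.ofReal_add zero_le_one (Real.exp_pos _).le, add_mul]; simp
    _ ≤ ENNReal.ofReal (2 * (c * II a t)) * h 0 := by gcongr
    _ = 2 * (ENNReal.ofReal c * (ENNReal.ofReal (II a t) * h 0)) := by
        rw [ENNReal.ofReal_mul (by norm_num), ENNReal.ofReal_mul hc.le]
        simp only [ENNReal.ofReal_ofNat]
        ring
    _ ≤ 2 * (ENNReal.ofReal c * ∫⁻ x in Set.Icc (0 : ℝ) 1, H x) := by gcongr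

theorem INT : S_INT := by
  intro a c ha hc h1 f G hf hG k
  rcases le_total (f (k + 1)) (f k) with hle | hle
  · have := INT_core a c ha hc h1 (fun x => f (k + x)) (fun x => G (k + x)) ?_ ?_ ?_
    · rw [INT_shift] at this
      simpa using this
    · intro z hz0 hz1
      have h := hf k (k + 1) z hz0 hz1
      have e : (1 - z) * k + z * (k + 1) = k + z := by ring
      rw [e] at h
      simpa using h
    · intro x z
      have h := hG (k + x) (k + z)
      have e : k + x - (k + z) = x - z := by ring
      rw [e] at h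
      exact h
    · simpa using hle
  · have := INT_core a c ha hc h1 (fun x => f (k + 1 - x)) (fun x => G (k + 1 - x)) ?_ ?_ ?_
    · rw [INT_refl] at this
      simpa [add_comm] using this
    · intro z hz0 hz1
      have h := hf (k + 1) k z hz0 hz1
      have e : (1 - z) * (k + 1) + z * k = k + 1 - z := by ring
      rw [e] at h
      simpa using h
    · intro x z
      have h := hG (k + 1 - x) (k + 1 - z)
      have e : (k + 1 - x - (k + 1 - z)) ^ 2 = (x - z) ^ 2 := by ring
      rw [e] at h
      exact h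
    · simpa using hle

end H41WI
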