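import Pool.Agent.H41R2.WI.Defs

set_option autoImplicit false

open MeasureTheory Set
open scoped ENNReal NNReal Pointwise

namespace H41WI

theorem INV_pr {n : ℕ} {K : Set (E n)} {pr : E n → E n} (h : IsProj K pr) (x : E n) (l : ℝ)
    (hl : 0 < l) : pr (pr x + l • (x - pr x)) = pr x := by
  set z := pr x + l • (x - pr x) with hz
  have h1 := h.inner_le z (pr x) (h.mem x)
  have h2 := h.inner_le x (pr z) (h.mem z)
  have h3 : inner ℝ (z - pr x) (pr z - pr x) ≤ 0 := by
    have : z - pr x = l • (x - pr x) := by rw [hz]; abel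
    rw [this, real_inner_smul_left]
    exact mul_nonpos_of_nonneg_of_nonpos hl.le h2
  have h4 : ‖pr z - pr x‖ ^ 2 ≤ 0 := by
    have e : pr z - pr x = (z - pr x) - (z - pr z) := by abel
    have : ‖pr z - pr x‖ ^ 2 = inner ℝ (z - pr x) (pr z - pr x) + inner ℝ (z - pr z) (pr x - pr z) := by
      rw [← real_inner_self_eq_norm_sq]
      nth_rewrite 1 [e]
      rw [inner_sub_left, ← neg_sub (pr z) (pr x), inner_neg_right]
      ring
    rw [this]
    linarith
  have h5 : ‖pr z - pr x‖ = 0 := by
    have := sq_nonneg ‖pr z - pr x‖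
    exact pow_eq_zero_iff (two_ne_zero) |>.1 (le_antisymm h4 this)
  exact sub_eq_zero.1 (norm_eq_zero.1 h5)

theorem INV_dist {n : ℕ} {K : Set (E n)} {pr : E n → E n} (h : IsProj K pr) (x : E n) (l : ℝ)
    (hl : 0 < l) : Metric.infDist (pr x + l • (x - pr x)) K = l * Metric.infDist x K := by
  rw [← h.dist_eq, INV_pr h x l hl, ← h.dist_eq]
  rw [add_sub_cancel_left, norm_smul, Real.norm_eq_abs, abs_of_pos hl]

/-- **INV** -/
theorem INV' : S_INV := by
  intro n K pr hK h l hl
  refine ⟨?_, ?_⟩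
  · intro x y hxy
    simp only at hxy
    have h1 := INV_pr h x l hl
    have h2 := INV_pr h y l hl
    rw [hxy, h2] at h1
    rw [h1] at hxy
    have h4 : x - pr x = y - pr x := smul_right_injective _ hl.ne' (add_left_cancel hxy)
    exact sub_left_injective h4
  · ext z
    constructor
    · rintro ⟨x, hx, rfl⟩
      refine ⟨?_, ?_⟩
      · show 0 < Metric.infDist (pr x + l • (x - pr x)) K
        rw [INV_dist h x l hl]
        exact mul_pos hl hx.1
      · show Metric.infDist (pr x + l • (x - pr x)) K ≤ l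
        rw [INV_dist h x l hl]
        calc l * Metric.infDist x K ≤ l * 1 := mul_le_mul_of_nonneg_left hx.2 hl.le
          _ = l := mul_one l
    · intro hz
      have hl' : 0 < l⁻¹ := inv_pos.2 hl
      refine ⟨pr z + l⁻¹ • (z - pr z), ⟨?_, ?_⟩, ?_⟩
      · rw [INV_dist h z _ hl']
        exact mul_pos hl' hz.1
      · rw [INV_dist h z _ hl']
        calc l⁻¹ * Metric.infDist z K ≤ l⁻¹ * l := mul_le_mul_of_nonneg_left hz.2 hl'.le
          _ = 1 := inv_mul_cancel₀ hl.ne'
      · show pr (pr z + l⁻¹ • (z - pr z)) + l • ((pr z + l⁻¹ • (z - pr z)) - pr (pr z + l⁻¹ • (z - pr z))) = z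
        rw [INV_pr h z _ hl', add_sub_cancel_left, smul_smul, mul_inv_cancel₀ hl.ne', one_smul]
        abel

/-- **INV** with the listed input -/
theorem INV (_h : S_FRM) : S_INV := INV'

end H41WI
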