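import Pool.Agent.H41R2.WI.Defs

set_option autoImplicit false

open MeasureTheory Set

namespace H41WI

theorem KPV_sqrt (n : ℕ) : √Real.pi ^ n = Real.pi ^ ((n : ℝ) / 2) := by
  rw [Real.sqrt_eq_rpow, ← Real.rpow_natCast, ← Real.rpow_mul Real.pi_pos.le]
  congr 1
  ring

theorem KPV : S_KPV := by
  intro n x t ht
  rcases Nat.eq_zero_or_pos n with rfl | hn
  · have h1 : Metric.closedBall x t = Set.univ := by
      ext y
      simp only [Metric.mem_closedBall, Set.mem_univ, iff_true]
      rw [Subsingleton.elim y x, dist_self]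
      exact ht
    rw [h1, volume_euclideanSpace_eq_dirac]
    simp [kap]
  · have : Nonempty (Fin n) := ⟨⟨0, hn⟩⟩
    rw [EuclideanSpace.volume_closedBall, Fintype.card_fin, KPV_sqrt, ← ENNReal.ofReal_pow ht,
      ← ENNReal.ofReal_mul (by positivity)]
    congr 1
    unfold kap
    ring

end H41WI
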