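import Pool.Agent.H41R2.WI.Defs

set_option autoImplicit false

open MeasureTheory Set Filter
open scoped ENNReal NNReal Pointwise

namespace H41WI

/-- one-variable layer cake for the Gaussian -/
theorem LAY_one (a d : ℝ) (ha : 0 < a) (hd : 0 ≤ d) :
    ENNReal.ofReal (Real.exp (-(a * d ^ 2))) =
      ∫⁻ r in Ioi (0 : ℝ), ENNReal.ofReal (2 * a * r * Real.exp (-(a * r ^ 2))) *
        (if d ≤ r then 1 else 0) := by
  have hderiv : ∀ x ∈ Ioi d, HasDerivAt (fun r : ℝ => -Real.exp (-(a * r ^ 2)))
      (2 * a * x * Real.exp (-(a * x ^ 2))) x := by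
    intro x _
    have h1 : HasDerivAt (fun r : ℝ => -(a * r ^ 2)) (-(a * (2 * x))) x := by
      have h0 : HasDerivAt (fun r : ℝ => a * r ^ 2) (a * (2 * x)) x := by
        simpa using (hasDerivAt_pow 2 x).const_mul a
      exact h0.neg
    have h2 : HasDerivAt (fun r : ℝ => -Real.exp (-(a * r ^ 2)))
        (-(Real.exp (-(a * x ^ 2)) * (-(a * (2 * x))))) x := h1.exp.neg
    have h3 : 2 * a * x * Real.exp (-(a * x ^ 2)) =
        -(Real.exp (-(a * x ^ 2)) * (-(a * (2 * x)))) := by ring
    rw [h3]
    exact h2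
  have htend : Tendsto (fun r : ℝ => -Real.exp (-(a * r ^ 2))) atTop (nhds 0) := by
    rw [← neg_zero]
    apply Tendsto.neg
    apply Real.tendsto_exp_atBot.comp
    apply tendsto_neg_atTop_atBot.comp
    exact Tendsto.const_mul_atTop ha (tendsto_pow_atTop two_ne_zero)
  have hpos : ∀ x ∈ Ioi d, 0 ≤ 2 * a * x * Real.exp (-(a * x ^ 2)) := by
    intro x hx
    have : 0 ≤ x := hd.trans (le_of_lt hx)
    positivity
  have hcont : ContinuousWithinAt (fun r : ℝ => -Real.exp (-(a * r ^ 2))) (Ici d) d := by
    apply Continuous.continuousWithinAt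
    fun_prop
  have hint := integrableOn_Ioi_deriv_of_nonneg hcont hderiv hpos htend
  have hval := integral_Ioi_of_hasDerivAt_of_nonneg hcont hderiv hpos htend
  have h1 : ENNReal.ofReal (Real.exp (-(a * d ^ 2))) =
      ∫⁻ r in Ioi d, ENNReal.ofReal (2 * a * r * Real.exp (-(a * r ^ 2))) := by
    rw [← ofReal_integral_eq_lintegral_ofReal hint, hval]
    · simp
    · exact (ae_restrict_iff' measurableSet_Ioi).mpr (Eventually.of_forall hpos)
  rw [h1, ← lintegral_indicator measurableSet_Ioi, ← lintegral_indicator measurableSet_Ioi]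
  apply lintegral_congr_ae
  have hne : ∀ᵐ r : ℝ, r ≠ d := by
    have : volume ({d} : Set ℝ) = 0 := measure_singleton d
    exact (compl_mem_ae_iff.mpr this)
  filter_upwards [hne] with r hr
  by_cases h : d < r
  · have h0 : (0 : ℝ) < r := hd.trans_lt h
    simp [indicator, h, h0, h.le]
  · have hlt : r < d := lt_of_le_of_ne (not_lt.mp h) hr
    simp [indicator, h, not_le.mpr hlt]

theorem LAY (hPAR : S_PAR) : S_LAY := by
  intro n K a ha hK hne
  unfold gint
  have h1 : ∀ x : E n, ENNReal.ofReal (Real.exp (-(a * Metric.infDist x K ^ 2))) =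
      ∫⁻ r in Ioi (0 : ℝ), ENNReal.ofReal (2 * a * r * Real.exp (-(a * r ^ 2))) *
        (if Metric.infDist x K ≤ r then 1 else 0) := fun x =>
    LAY_one a _ ha Metric.infDist_nonneg
  simp_rw [h1]
  rw [lintegral_lintegral_swap]
  · apply setLIntegral_congr_fun measurableSet_Ioi
    intro r hr
    have hr' : (0 : ℝ) ≤ r := le_of_lt hr
    have hS : MeasurableSet {x : E n | Metric.infDist x K ≤ r} :=
      measurableSet_le (Metric.continuous_infDist_pt K).measurable measurable_const
    show (∫⁻ x : E n, ENNReal.ofReal (2 * a * r * Real.exp (-(a * r ^ 2))) *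
        (if Metric.infDist x K ≤ r then 1 else 0)) =
        ENNReal.ofReal (2 * a * r * Real.exp (-(a * r ^ 2))) *
          volume (K + Metric.closedBall (0 : E n) r)
    rw [lintegral_const_mul' _ _ ENNReal.ofReal_ne_top, hPAR n K r hK hne hr']
    congr 1
    rw [← lintegral_indicator_one hS]
    rfl
  · apply Measurable.aemeasurable
    apply Measurable.mul
    · fun_prop
    · apply Measurable.ite
      · exact measurableSet_le ((Metric.continuous_infDist_pt K).measurable.comp measurable_fst)
          measurable_snd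
      · exact measurable_const
      · exact measurable_const

end H41WI
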