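import Mathlib
import Pool.Agent.H41R2.WI.Defs

set_option autoImplicit false

open MeasureTheory Set
open scoped ENNReal NNReal Pointwise

namespace H41WI

theorem LBG_rho_nonneg : 0 ≤ rho := by
  unfold rho
  have h1 : 0 ≤ Real.log (Real.pi / 2) := by
    apply Real.log_nonneg
    have := Real.pi_gt_three
    linarith
  linarith

/-- exponent -/
noncomputable def LBG_u (n : ℕ) (c : ℝ) (i : ℕ) : ℝ :=
  (i:ℝ)/2 * (1 + Real.log (n/c)) - (i:ℝ)^2/(2*c) - rho * (if i = 1 then 1 else 0)

theorem LBG_le (h0 : S_AL0) (h1 : S_AL1) (h2 : S_AL2) (n : ℕ) (c : ℝ) (hn : 1 ≤ n) (hc : 0 < c)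
    (i : ℕ) (hi : i ≤ n) : Real.exp (LBG_u n c i) ≤ alp n i := by
  rcases Nat.eq_zero_or_pos i with rfl | hpos
  · rw [(h0 n).1]
    unfold LBG_u
    simp
  have hip : (0:ℝ) < i := by exact_mod_cast hpos
  have hnp : (0:ℝ) < n := by exact_mod_cast hn
  have hlog : 1 + Real.log (n/c) - i/c ≤ Real.log (n/i) := by
    have e : Real.log ((i:ℝ)/c) = Real.log (n/c) - Real.log (n/i) := by
      rw [← Real.log_div (by positivity) (by positivity)]
      congr 1
      field_simp
    have := Real.log_le_sub_one_of_pos (x := (i:ℝ)/c) (by positivity)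
    linarith
  have hmul : (i:ℝ)/2 * (1 + Real.log (n/c)) - (i:ℝ)^2/(2*c) ≤ (i:ℝ)/2 * Real.log (n/i) := by
    have h3 := mul_le_mul_of_nonneg_left hlog (by positivity : (0:ℝ) ≤ (i:ℝ)/2)
    refine le_trans (le_of_eq ?_) h3
    field_simp
  rcases Nat.lt_or_ge i 2 with h | h
  · have hi1 : i = 1 := by omega
    subst hi1
    refine le_trans ?_ (h1 n hn)
    rw [Real.le_sqrt (Real.exp_pos _).le (by positivity), ← Real.exp_nat_mul]
    have e : 2 * (n:ℝ) / Real.pi = Real.exp (Real.log n - Real.log (Real.pi/2)) := by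
      rw [← Real.log_div (by positivity) (by positivity), Real.exp_log (by positivity)]
      field_simp
    rw [e]
    apply Real.exp_le_exp.mpr
    unfold LBG_u rho
    simp only [if_true, Nat.cast_one, div_one] at hmul ⊢
    push_cast
    linarith
  · refine le_trans ?_ (h2 n i h hi)
    rw [Real.rpow_def_of_pos (by positivity)]
    apply Real.exp_le_exp.mpr
    unfold LBG_u
    rw [if_neg (by omega)]
    linarith

theorem LBG_jensen (n : ℕ) (p u a : ℕ → ℝ) (hp : ∀ i ≤ n, 0 ≤ p i)
    (hs : ∑ i ∈ Finset.range (n + 1), p i = 1) (ha : ∀ i ≤ n, Real.exp (u i) ≤ a i) :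
    Real.exp (∑ i ∈ Finset.range (n + 1), p i * u i) ≤ ∑ i ∈ Finset.range (n + 1), a i * p i := by
  set U := ∑ i ∈ Finset.range (n + 1), p i * u i with hU
  have h1 : ∀ i ∈ Finset.range (n+1), Real.exp U * (p i * u i) + Real.exp U * (1 - U) * p i
      ≤ a i * p i := by
    intro i hi
    have hin : i ≤ n := by
      rw [Finset.mem_range] at hi
      omega
    have h2 : Real.exp U * (u i - U + 1) ≤ Real.exp (u i) := by
      have h3 := Real.add_one_le_exp (u i - U)
      have h4 := mul_le_mul_of_nonneg_left h3 (Real.exp_pos U).le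
      rw [← Real.exp_add] at h4
      simpa using h4
    have h5 := mul_le_mul_of_nonneg_right (h2.trans (ha i hin)) (hp i hin)
    linarith
  have h6 := Finset.sum_le_sum h1
  rw [Finset.sum_add_distrib, ← Finset.mul_sum, ← Finset.mul_sum, hs, ← hU] at h6
  linarith

theorem LBG (h0 : S_AL0) (h1 : S_AL1) (h2 : S_AL2) : S_LBG := by
  intro n p d m hn hd hp hs hm hv
  have hm0 : 0 ≤ m := by
    rw [hm]
    apply Finset.sum_nonneg
    intro i hi
    rw [Finset.mem_range] at hi
    exact mul_nonneg (by positivity) (hp i (by omega))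
  have hc : 0 < m + d := by linarith
  have key := LBG_jensen n p (LBG_u n (m+d)) (alp n) hp hs (LBG_le h0 h1 h2 n (m+d) hn hc)
  refine le_trans (Real.exp_le_exp.mpr ?_) key
  have e : ∑ i ∈ Finset.range (n + 1), p i * LBG_u n (m+d) i =
      m / 2 * (1 + Real.log (n/(m+d))) -
        (∑ i ∈ Finset.range (n + 1), (i:ℝ)^2 * p i) / (2*(m+d)) - rho * p 1 := by
    have e1 : ∀ i ∈ Finset.range (n+1), p i * LBG_u n (m+d) i =
        ((i:ℝ) * p i) * ((1 + Real.log (n/(m+d)))/2) - ((i:ℝ)^2 * p i) / (2*(m+d)) -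
          rho * (if i = 1 then p i else 0) := by
      intro i _
      unfold LBG_u
      by_cases h : i = 1
      · simp only [h, if_true]
        ring
      · simp only [h, if_false]
        ring
    rw [Finset.sum_congr rfl e1, Finset.sum_sub_distrib, Finset.sum_sub_distrib,
      ← Finset.sum_mul, ← Finset.sum_div, ← Finset.mul_sum, ← hm, Finset.sum_ite_eq',
      if_pos (by rw [Finset.mem_range]; omega)]
    ring
  rw [e]
  have hp1 : p 1 ≤ min 1 m := by
    apply le_min
    · rw [← hs]
      apply Finset.single_le_sum (f := p)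
      · intro i hi
        rw [Finset.mem_range] at hi
        exact hp i (by omega)
      · rw [Finset.mem_range]
        omega
    · rw [hm]
      have h3 := Finset.single_le_sum (f := fun i : ℕ => (i:ℝ) * p i) (s := Finset.range (n+1))
        (fun i hi => by
          rw [Finset.mem_range] at hi
          exact mul_nonneg (by positivity) (hp i (by omega)))
        (a := 1) (by rw [Finset.mem_range]; omega)
      simpa using h3
  have h4 : (∑ i ∈ Finset.range (n + 1), (i:ℝ)^2 * p i) / (2*(m+d)) ≤ m / 2 := by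
    rw [div_le_div_iff₀ (by positivity) (by norm_num)]
    nlinarith
  have h5 := mul_le_mul_of_nonneg_left hp1 LBG_rho_nonneg
  linarith

end H41WI
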