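import Mathlib
import Pool.Agent.H41R2.WI.Defs

set_option autoImplicit false

namespace H41WI

theorem MEA : S_MEA := by
  intro a m K
  have h : LowerSemicontinuous (Fs a K) := by
    unfold Fs
    refine lowerSemicontinuous_biSup fun y _ => ?_
    apply Continuous.lowerSemicontinuous
    exact ENNReal.continuous_ofReal.comp (by fun_prop)
  exact h.measurable

end H41WI
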