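import Pool.Agent.H41R2.WI.Defs

set_option autoImplicit false

open MeasureTheory Set Filter
open scoped ENNReal NNReal Pointwise Topology

namespace H41WI

noncomputable def MIL_F (w : ℝ) : ℝ :=
  Real.exp (-w ^ 2) * (89 / 50 + 2 * w) / (2 * (1 + 89 / 50 * w + 2 * w ^ 2))

noncomputable def MIL_F' (w : ℝ) : ℝ :=
  Real.exp (-w ^ 2) / (2 * (1 + 89 / 50 * w + 2 * w ^ 2) ^ 2) *
    (-(2 * w * (89 / 50 + 2 * w) * (1 + 89 / 50 * w + 2 * w ^ 2)) +
      2 * (1 + 89 / 50 * w + 2 * w ^ 2) - (89 / 50 + 2 * w) * (89 / 50 + 4 * w))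

theorem MIL_hasDeriv (w : ℝ) (hw : 0 ≤ w) : HasDerivAt MIL_F (MIL_F' w) w := by
  have hP : (0 : ℝ) < 1 + 89 / 50 * w + 2 * w ^ 2 := by positivity
  have h1 : HasDerivAt (fun w : ℝ => Real.exp (-w ^ 2)) (Real.exp (-w ^ 2) * (-(2 * w))) w := by
    have := ((hasDerivAt_id w).pow 2).neg.exp
    simpa using this
  have h2 : HasDerivAt (fun w : ℝ => 89 / 50 + 2 * w) 2 w := by
    simpa using ((hasDerivAt_id w).const_mul 2).const_add (89 / 50 : ℝ)
  have h3 : HasDerivAt (fun w : ℝ => 2 * (1 + 89 / 50 * w + 2 * w ^ 2)) (2 * (89 / 50 + 4 * w)) w := by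
    have ha : HasDerivAt (fun w : ℝ => 89 / 50 * w) (89 / 50) w := by
      simpa using (hasDerivAt_id w).const_mul (89 / 50 : ℝ)
    have hb : HasDerivAt (fun w : ℝ => 2 * w ^ 2) (2 * (2 * w)) w := by
      simpa using ((hasDerivAt_id w).pow 2).const_mul (2 : ℝ)
    have := ((ha.const_add 1).add hb).const_mul (2 : ℝ)
    exact this.congr_deriv (by ring)
  have h4 := (h1.mul h2).div h3 (by positivity)
  refine h4.congr_deriv ?_
  unfold MIL_F'
  simp only [Pi.mul_apply]
  field_simp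

theorem MIL_lower (w : ℝ) (hw : 47 / 200 ≤ w) : Real.exp (-w ^ 2) ≤ -MIL_F' w := by
  have hP : (0 : ℝ) < 1 + 89 / 50 * w + 2 * w ^ 2 := by nlinarith
  have hE : 0 < Real.exp (-w ^ 2) := Real.exp_pos _
  have key : -MIL_F' w - Real.exp (-w ^ 2) =
      Real.exp (-w ^ 2) / (2 * (1 + 89 / 50 * w + 2 * w ^ 2) ^ 2) *
        ((89 / 50) ^ 2 + 2 * (89 / 50) * w - 4) := by
    unfold MIL_F'
    field_simp
    ring
  have h2 : 0 ≤ Real.exp (-w ^ 2) / (2 * (1 + 89 / 50 * w + 2 * w ^ 2) ^ 2) *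
        ((89 / 50) ^ 2 + 2 * (89 / 50) * w - 4) := by
    apply mul_nonneg (by positivity)
    nlinarith
  linarith

theorem MIL_tendsto : Tendsto MIL_F atTop (𝓝 0) := by
  have h1 : Tendsto (fun w : ℝ => Real.exp (-w ^ 2)) atTop (𝓝 0) := by
    apply Real.tendsto_exp_atBot.comp
    exact tendsto_neg_atTop_atBot.comp (tendsto_pow_atTop (by norm_num))
  refine squeeze_zero' ?_ ?_ h1
  · filter_upwards [eventually_ge_atTop (0 : ℝ)] with w hw
    unfold MIL_F
    positivity
  · filter_upwards [eventually_ge_atTop (0 : ℝ)] with w hw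
    unfold MIL_F
    have hP : (0 : ℝ) < 2 * (1 + 89 / 50 * w + 2 * w ^ 2) := by positivity
    rw [div_le_iff₀ hP]
    apply mul_le_mul_of_nonneg_left _ (Real.exp_pos _).le
    nlinarith [sq_nonneg w, sq_nonneg (w - 1)]

theorem MIL : S_MIL := by
  intro w hw
  have hneg : ∀ x ∈ Ioi w, MIL_F' x ≤ 0 := by
    intro x hx
    have hx' : w < x := hx
    have := MIL_lower x (by linarith)
    have h2 := Real.exp_pos (-x ^ 2)
    linarith
  have hder : ∀ x ∈ Ici w, HasDerivAt MIL_F (MIL_F' x) x := by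
    intro x hx
    have hx' : w ≤ x := hx
    exact MIL_hasDeriv x (by linarith)
  have hint := integrableOn_Ioi_deriv_of_nonpos' hder hneg MIL_tendsto
  have heq := integral_Ioi_of_hasDerivAt_of_nonpos' hder hneg MIL_tendsto
  have hg : IntegrableOn (fun y : ℝ => Real.exp (-y ^ 2)) (Ioi w) := by
    have := integrable_exp_neg_mul_sq (b := 1) one_pos
    simp only [neg_mul, one_mul] at this
    exact this.integrableOn
  have hle : (∫ y in Set.Ioi w, Real.exp (-y ^ 2)) ≤ ∫ y in Set.Ioi w, -MIL_F' y := by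
    apply setIntegral_mono_on hg hint.neg measurableSet_Ioi
    intro x hx
    have hx' : w < x := hx
    exact MIL_lower x (by linarith)
  rw [integral_neg, heq] at hle
  have : -(0 - MIL_F w) = MIL_F w := by ring
  rw [this] at hle
  exact hle

end H41WI
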