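import Pool.Agent.H41R2.WI.Defs

/-! # ML0: the first bound for the Gaussian tail -/

set_option autoImplicit false

namespace H41WI

theorem ML0_tend : Filter.Tendsto (fun y : ℝ => -Real.exp (-y ^ 2) / 2) Filter.atTop (nhds 0) := by
  have h1 : Filter.Tendsto (fun y : ℝ => -y ^ 2) Filter.atTop Filter.atBot :=
    Filter.tendsto_neg_atTop_atBot.comp (Filter.tendsto_pow_atTop two_ne_zero)
  have h2 := Real.tendsto_exp_atBot.comp h1
  have h3 := (h2.neg).div_const 2
  simpa using h3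

theorem ML0_deriv (y : ℝ) :
    HasDerivAt (fun y : ℝ => -Real.exp (-y ^ 2) / 2) (y * Real.exp (-y ^ 2)) y := by
  have h0 : HasDerivAt (fun y : ℝ => y ^ 2) (2 * y) y := by
    simpa using hasDerivAt_pow 2 y
  have h1 : HasDerivAt (fun y : ℝ => -y ^ 2) (-(2 * y)) y := h0.neg
  have h2 : HasDerivAt (fun y : ℝ => -Real.exp (-y ^ 2) / 2)
      (-(Real.exp (-y ^ 2) * -(2 * y)) / 2) y := ((h1.exp).neg).div_const 2
  have h3 : -(Real.exp (-y ^ 2) * -(2 * y)) / 2 = y * Real.exp (-y ^ 2) := by ring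
  rwa [h3] at h2

theorem ML0_main (w : ℝ) (hw : 0 < w) :
    (∫ y in Set.Ioi w, Real.exp (-y ^ 2)) ≤ Real.exp (-w ^ 2) / (2 * w) := by
  have hint : MeasureTheory.IntegrableOn (fun y : ℝ => y * Real.exp (-y ^ 2)) (Set.Ioi w) :=
    MeasureTheory.integrableOn_Ioi_deriv_of_nonneg' (fun y _ => ML0_deriv y)
      (fun y hy => mul_nonneg (hw.trans hy).le (Real.exp_pos _).le) ML0_tend
  have hval : ∫ y in Set.Ioi w, y * Real.exp (-y ^ 2) = Real.exp (-w ^ 2) / 2 := by
    rw [MeasureTheory.integral_Ioi_of_hasDerivAt_of_tendsto' (fun y _ => ML0_deriv y) hint ML0_tend]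
    ring
  have hmono : (∫ y in Set.Ioi w, Real.exp (-y ^ 2)) ≤
      ∫ y in Set.Ioi w, w⁻¹ * (y * Real.exp (-y ^ 2)) := by
    refine MeasureTheory.integral_mono_of_nonneg
      (Filter.Eventually.of_forall fun y => (Real.exp_pos _).le) (hint.const_mul _) ?_
    refine (MeasureTheory.ae_restrict_iff' measurableSet_Ioi).2
      (Filter.Eventually.of_forall fun y hy => ?_)
    have hy' : w < y := hy
    have h1 : 1 ≤ w⁻¹ * y := by
      rw [inv_mul_eq_div, le_div_iff₀ hw]
      linarith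
    calc Real.exp (-y ^ 2) = 1 * Real.exp (-y ^ 2) := (one_mul _).symm
      _ ≤ (w⁻¹ * y) * Real.exp (-y ^ 2) :=
          mul_le_mul_of_nonneg_right h1 (Real.exp_pos _).le
      _ = w⁻¹ * (y * Real.exp (-y ^ 2)) := by ring
  refine hmono.trans (le_of_eq ?_)
  rw [MeasureTheory.integral_const_mul, hval]
  field_simp

theorem ML0 : S_ML0 := ML0_main

end H41WI
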