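import Mathlib
import Pool.Agent.H41R2.WI.Defs

set_option autoImplicit false

open MeasureTheory Set
open scoped ENNReal NNReal Pointwise Topology

namespace H41WI

theorem MOT_pos (s : Finset ℕ) (p e : ℕ → ℝ) (hp : ∀ i ∈ s, 0 ≤ p i) (hsum : ∑ i ∈ s, p i = 1) (v : ℝ)
    (hv : 0 < v) : 0 < ∑ i ∈ s, p i * v ^ (e i) := by
  have h1 : ∃ i ∈ s, 0 < p i := by
    by_contra hcon
    push Not at hcon
    have : ∑ i ∈ s, p i ≤ 0 := Finset.sum_nonpos hcon
    linarith
  obtain ⟨i, hi, hpi⟩ := h1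
  exact Finset.sum_pos' (fun j hj => mul_nonneg (hp j hj) (Real.rpow_pos_of_pos hv _).le)
    ⟨i, hi, mul_pos hpi (Real.rpow_pos_of_pos hv _)⟩

theorem MOT : S_MOT := by
  intro s p e hp hsum hG v hv
  set m := ∑ i ∈ s, p i * e i with hm
  set g : ℝ → ℝ := fun x => ∑ i ∈ s, p i * x ^ (e i) with hg
  have hgpos : ∀ x, 0 < x → 0 < g x := fun x hx => MOT_pos s p e hp hsum x hx
  have hg1 : g 1 = 1 := by simp [hg, hsum]
  have hdg : HasDerivAt g m 1 := by
    have : HasDerivAt (fun x : ℝ => ∑ i ∈ s, p i * x ^ (e i)) (∑ i ∈ s, p i * (e i * (1 : ℝ) ^ (e i - 1))) 1 := by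
      apply HasDerivAt.fun_sum
      intro i _
      exact (Real.hasDerivAt_rpow_const (x := (1 : ℝ)) (p := e i) (Or.inl one_ne_zero)).const_mul (p i)
    simpa [hm] using this
  have hdφ : HasDerivAt (fun θ : ℝ => Real.log (g (1 + θ * (v - 1)))) ((v - 1) * m) 0 := by
    have h1 : HasDerivAt (fun θ : ℝ => 1 + θ * (v - 1)) (v - 1) 0 := by
      have := ((hasDerivAt_id (0 : ℝ)).mul_const (v - 1)).const_add 1
      simpa using this
    have h2 : HasDerivAt g m (1 + (0 : ℝ) * (v - 1)) := by simpa using hdg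
    have h3 := h2.comp (0 : ℝ) h1
    have h4 := h3.log (by simp [hg1])
    have e1 : (g ∘ fun θ : ℝ => 1 + θ * (v - 1)) 0 = 1 := by simp [hg1]
    rw [e1] at h4
    simpa [mul_comm, Function.comp_def] using h4
  have hlim := hdφ.tendsto_slope_zero_right
  have hle : Real.log (g v) ≤ (v - 1) * m := by
    refine ge_of_tendsto hlim ?_
    have hev : ∀ᶠ θ : ℝ in 𝓝[>] (0 : ℝ), θ < 1 := nhdsWithin_le_nhds (gt_mem_nhds one_pos)
    filter_upwards [hev, self_mem_nhdsWithin] with θ hθ1 hθ0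
    have hθ0 : (0 : ℝ) < θ := hθ0
    have hGt := hG 1 v θ one_pos hv hθ0 hθ1
    have e2 : (∑ i ∈ s, p i * (1 : ℝ) ^ (e i)) = 1 := by simp [hsum]
    rw [e2, Real.one_rpow, one_mul] at hGt
    have e3 : (1 - θ) * 1 + θ * v = 1 + θ * (v - 1) := by ring
    rw [e3] at hGt
    have hpos1 : 0 < 1 + θ * (v - 1) := by nlinarith
    have h5 : θ * Real.log (g v) ≤ Real.log (g (1 + θ * (v - 1))) := by
      rw [← Real.log_rpow (hgpos v hv)]
      exact Real.log_le_log (Real.rpow_pos_of_pos (hgpos v hv) _) hGt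
    simp only [zero_add, zero_mul, add_zero, hg1, Real.log_one, sub_zero, smul_eq_mul]
    rw [inv_mul_eq_div, le_div_iff₀ hθ0]
    linarith
  have := Real.exp_le_exp.mpr hle
  rwa [Real.exp_log (hgpos v hv)] at this

end H41WI
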