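import Mathlib
import Pool.Agent.H41R2.WI.Defs

set_option autoImplicit false

open MeasureTheory Set
open scoped ENNReal NNReal Pointwise Topology

namespace H41WI

theorem MOV_deriv (s : Finset ℕ) (p e : ℕ → ℝ) (m v : ℝ) (hv : 0 < v) :
    HasDerivAt (fun x : ℝ => Real.exp ((x - 1) * m) - ∑ i ∈ s, p i * x ^ (e i))
      (m * Real.exp ((v - 1) * m) - ∑ i ∈ s, (p i * e i) * v ^ (e i - 1)) v := by
  have h1 : HasDerivAt (fun x : ℝ => Real.exp ((x - 1) * m)) (m * Real.exp ((v - 1) * m)) v := by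
    have := (((hasDerivAt_id v).sub_const 1).mul_const m).exp
    simpa [mul_comm] using this
  have h2 : HasDerivAt (fun x : ℝ => ∑ i ∈ s, p i * x ^ (e i)) (∑ i ∈ s, (p i * e i) * v ^ (e i - 1)) v := by
    apply HasDerivAt.fun_sum
    intro i _
    have := (Real.hasDerivAt_rpow_const (x := v) (p := e i) (Or.inl hv.ne')).const_mul (p i)
    simpa [mul_assoc] using this
  exact h1.sub h2

theorem MOV : S_MOV := by
  intro s p e hp hsum h
  set m := ∑ i ∈ s, p i * e i with hm
  set f : ℝ → ℝ := fun x : ℝ => Real.exp ((x - 1) * m) - ∑ i ∈ s, p i * x ^ (e i) with hf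
  have hev : ∀ᶠ v : ℝ in 𝓝 1, 0 < v := lt_mem_nhds one_pos
  have hd1 : deriv f =ᶠ[𝓝 1] fun v => m * Real.exp ((v - 1) * m) - ∑ i ∈ s, (p i * e i) * v ^ (e i - 1) := by
    filter_upwards [hev] with v hv
    exact (MOV_deriv s p e m v hv).deriv
  have hd1' : deriv f 1 = 0 := by
    rw [hd1.self_of_nhds]
    simp [hm]
  have hd2 : deriv (deriv f) 1 = m ^ 2 - ∑ i ∈ s, p i * (e i * (e i - 1)) := by
    rw [hd1.deriv_eq]
    have h1 : HasDerivAt (fun x : ℝ => m * Real.exp ((x - 1) * m)) (m * (m * Real.exp ((1 - 1) * m))) 1 := by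
      have := ((((hasDerivAt_id (1 : ℝ)).sub_const 1).mul_const m).exp).const_mul m
      simpa [mul_comm] using this
    have h2 : HasDerivAt (fun x : ℝ => ∑ i ∈ s, (p i * e i) * x ^ (e i - 1))
        (∑ i ∈ s, (p i * e i) * ((e i - 1) * (1 : ℝ) ^ (e i - 1 - 1))) 1 := by
      apply HasDerivAt.fun_sum
      intro i _
      exact (Real.hasDerivAt_rpow_const (x := (1 : ℝ)) (p := e i - 1) (Or.inl one_ne_zero)).const_mul (p i * e i)
    have h3 : HasDerivAt (fun x : ℝ => m * Real.exp ((x - 1) * m) - ∑ i ∈ s, (p i * e i) * x ^ (e i - 1)) _ 1 :=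
      h1.sub h2
    rw [h3.deriv]
    simp only [sub_self, zero_mul, Real.exp_zero, mul_one, Real.one_rpow]
    rw [pow_two]
    congr 1
    exact Finset.sum_congr rfl fun i _ => by ring
  have hf1 : f 1 = 0 := by
    simp [hf, hsum]
  have hnn : ∀ᶠ v : ℝ in 𝓝 1, 0 ≤ f v := by
    filter_upwards [hev] with v hv
    have := h v hv
    simp only [hf]; linarith
  by_contra hcon
  push Not at hcon
  have hneg : deriv (deriv f) 1 < 0 := by rw [hd2]; linarith
  have hcont : ContinuousAt f 1 := (MOV_deriv s p e m 1 one_pos).continuousAt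
  have hmax := isLocalMax_of_deriv_deriv_neg hneg hd1' hcont
  have hzero : f =ᶠ[𝓝 1] fun _ => (0 : ℝ) := by
    filter_upwards [hmax, hnn] with v hv hv2
    rw [hf1] at hv
    linarith
  have hdz : deriv f =ᶠ[𝓝 1] fun _ => (0 : ℝ) := by
    have := hzero.deriv
    refine this.trans ?_
    simp
  rw [hdz.deriv_eq] at hneg
  simp at hneg

end H41WI
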