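import Pool.Agent.H41R2.WI.Defs

set_option autoImplicit false

open MeasureTheory Set
open scoped ENNReal NNReal Pointwise

namespace H41WI

theorem N1_dist (u v : Fin 1 → ℤ) :
    ‖(WithLp.toLp 2 (fun j => (u j : ℝ)) : E 1) - WithLp.toLp 2 (fun j => (v j : ℝ))‖
      = |(u 0 : ℝ) - (v 0 : ℝ)| := by
  rw [EuclideanSpace.norm_eq]
  simp [Real.sqrt_sq_eq_abs]

theorem N1 (_h1 : S_V0) (h2 : S_V1) : S_N1 := by
  intro K V hK hV
  by_cases hfin : (Zpts K).Finite
  · by_cases hne : (Zpts K).Nonempty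
    · -- choose the points with minimal and maximal coordinate
      obtain ⟨a, haK, ha⟩ := Set.exists_min_image (Zpts K) (fun z => z 0) hfin hne
      obtain ⟨b, hbK, hb⟩ := Set.exists_max_image (Zpts K) (fun z => z 0) hfin hne
      have hinj : Set.InjOn (fun z : Fin 1 → ℤ => z 0) (Zpts K) := by
        intro x _ y _ hxy
        funext i
        rw [Subsingleton.elim i 0]
        exact hxy
      have hsub : (fun z : Fin 1 → ℤ => z 0) '' (Zpts K) ⊆ (Finset.Icc (a 0) (b 0) : Finset ℤ) := by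
        rintro _ ⟨z, hz, rfl⟩
        simp only [Finset.coe_Icc, Set.mem_Icc]
        exact ⟨ha z hz, hb z hz⟩
      have hcard : (Zpts K).ncard ≤ (Finset.Icc (a 0) (b 0)).card := by
        rw [← hinj.ncard_image]
        calc ((fun z : Fin 1 → ℤ => z 0) '' (Zpts K)).ncard
            ≤ ((Finset.Icc (a 0) (b 0) : Finset ℤ) : Set ℤ).ncard :=
              Set.ncard_le_ncard hsub (Finset.finite_toSet _)
          _ = _ := Set.ncard_coe_finset _
      have hab : a 0 ≤ b 0 := ha b hbK
      rw [Int.card_Icc] at hcard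
      have h3 : (((Zpts K).ncard : ℕ) : ℝ) ≤ ((b 0 + 1 - a 0).toNat : ℝ) := by
        exact_mod_cast hcard
      have h4 : (((b 0 + 1 - a 0).toNat : ℕ) : ℝ) = (b 0 : ℝ) + 1 - a 0 := by
        have h5 : (((b 0 + 1 - a 0).toNat : ℕ) : ℤ) = b 0 + 1 - a 0 := by
          apply Int.toNat_of_nonneg
          linarith
        have h6 : ((((b 0 + 1 - a 0).toNat : ℕ) : ℤ) : ℝ) = ((b 0 + 1 - a 0 : ℤ) : ℝ) := by
          rw [h5]
        push_cast at h6
        exact h6
      have h7 := h2 1 K V le_rfl hK hV _ hbK _ haK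
      rw [N1_dist] at h7
      have h8 : (b 0 : ℝ) - a 0 ≤ V 1 := le_trans (le_abs_self _) h7
      linarith
    · rw [Set.not_nonempty_iff_eq_empty] at hne
      rw [hne]
      simp only [Set.ncard_empty, Nat.cast_zero]
      obtain ⟨x, hx⟩ := hK.ne
      have h7 := h2 1 K V le_rfl hK hV x hx x hx
      simp only [sub_self, norm_zero] at h7
      linarith
  · rw [Set.Infinite.ncard hfin]
    simp only [Nat.cast_zero]
    obtain ⟨x, hx⟩ := hK.ne
    have h7 := h2 1 K V le_rfl hK hV x hx x hx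
    simp only [sub_self, norm_zero] at h7
    linarith

end H41WI
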