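import Mathlib
import Pool.Agent.H41R2.WI.Defs

set_option autoImplicit false

namespace H41WI

/-- lower bound of `exp x` -/
noncomputable def NII_S (x : ℝ) : ℝ :=
  1 + x + x ^ 2 / 2 + x ^ 3 / 6 + x ^ 4 / 24 + x ^ 5 / 120 + x ^ 6 / 720 + x ^ 7 / 5040 +
    x ^ 8 / 40320

theorem NII_S_pos {x : ℝ} (hx : 0 ≤ x) : 0 < NII_S x := by
  unfold NII_S; positivity

theorem NII_exp_neg {x y : ℝ} (hx : 0 ≤ x) (h : y ≤ -x) : Real.exp y ≤ 1 / NII_S x := by
  have h1 : NII_S x ≤ Real.exp x := by
    have h2 := Real.sum_le_exp_of_nonneg hx 9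
    have h3 : NII_S x = ∑ i ∈ Finset.range 9, x ^ i / (i.factorial : ℝ) := by
      simp only [Finset.sum_range_succ, Finset.sum_range_zero, Nat.factorial, NII_S]
      norm_num
    rw [h3]; exact h2
  calc Real.exp y ≤ Real.exp (-x) := Real.exp_le_exp.mpr h
    _ = 1 / Real.exp x := by rw [Real.exp_neg, one_div]
    _ ≤ 1 / NII_S x := one_div_le_one_div_of_le (NII_S_pos hx) h1

theorem NII_step (p w : ℝ) (a b x1 x2 : ℝ) (hp1 : 17724 / 10000 ≤ p) (hp2 : p ≤ 17725 / 10000)
    (haw : a ≤ w) (hwb : w ≤ b) (ha : 0 < a)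
    (h1a : 2 * a ^ 2 - 4431 / 1000 * a ≤ -x1) (h1b : 2 * b ^ 2 - 4431 / 1000 * b ≤ -x1)
    (h2 : a ^ 2 - 4431 / 1000 * a ≤ -x2) (hb : a + b ≤ 4)
    (hx1 : 0 ≤ x1) (hx2 : 0 ≤ x2)
    (hfin : 1 / NII_S x1 + 17725 / 10000 * b * (1 / NII_S x2) ≤
      1 / (1 + 89 / 50 * b + 2 * b ^ 2)) :
    Real.exp (2 * w ^ 2 - 5 / 2 * p * w) + p * w * Real.exp (w ^ 2 - 5 / 2 * p * w)
      ≤ 1 / (1 + 89 / 50 * w + 2 * w ^ 2) := by
  have hw0 : 0 < w := lt_of_lt_of_le ha haw
  have hpw : 4431 / 1000 * w ≤ 5 / 2 * p * w := by nlinarith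
  have e1 : 2 * w ^ 2 - 5 / 2 * p * w ≤ -x1 := by
    rcases eq_or_lt_of_le (haw.trans hwb) with hab | hab
    · have : w = a := le_antisymm (by linarith) haw
      subst this
      linarith
    · -- convexity
      have key : 2 * w ^ 2 - 4431 / 1000 * w ≤ -x1 := by
        have h3 : (b - a) * (2 * w ^ 2 - 4431 / 1000 * w + x1) ≤ 0 := by
          have h4 : (b - a) * (2 * w ^ 2 - 4431 / 1000 * w + x1) =
              (b - w) * (2 * a ^ 2 - 4431 / 1000 * a + x1) +
              (w - a) * (2 * b ^ 2 - 4431 / 1000 * b + x1) -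
              2 * (b - a) * (w - a) * (b - w) := by ring
          rw [h4]
          have h5 : (b - w) * (2 * a ^ 2 - 4431 / 1000 * a + x1) ≤ 0 :=
            mul_nonpos_of_nonneg_of_nonpos (by linarith) (by linarith)
          have h6 : (w - a) * (2 * b ^ 2 - 4431 / 1000 * b + x1) ≤ 0 :=
            mul_nonpos_of_nonneg_of_nonpos (by linarith) (by linarith)
          have h7 : 0 ≤ 2 * (b - a) * (w - a) * (b - w) := by
            have := mul_nonneg (mul_nonneg (by linarith : (0:ℝ) ≤ 2 * (b - a))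
              (by linarith : (0:ℝ) ≤ w - a)) (by linarith : (0:ℝ) ≤ b - w)
            exact this
          linarith
        by_contra hc
        push Not at hc
        have : 0 < (b - a) * (2 * w ^ 2 - 4431 / 1000 * w + x1) :=
          mul_pos (by linarith) (by linarith)
        linarith
      linarith
  have e2 : w ^ 2 - 5 / 2 * p * w ≤ -x2 := by
    have h3 : w ^ 2 - 4431 / 1000 * w ≤ a ^ 2 - 4431 / 1000 * a := by
      nlinarith
    linarith
  have E1 := NII_exp_neg hx1 e1
  have E2 := NII_exp_neg hx2 e2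
  have hb0 : 0 < b := lt_of_lt_of_le hw0 hwb
  have E3 : p * w * Real.exp (w ^ 2 - 5 / 2 * p * w) ≤ 17725 / 10000 * b * (1 / NII_S x2) := by
    apply mul_le_mul _ E2 (Real.exp_pos _).le (by positivity)
    exact mul_le_mul hp2 hwb hw0.le (by norm_num)
  have E4 : 1 / (1 + 89 / 50 * b + 2 * b ^ 2) ≤ 1 / (1 + 89 / 50 * w + 2 * w ^ 2) := by
    apply one_div_le_one_div_of_le (by positivity)
    nlinarith
  linarith

theorem NII : S_NII := by
  intro w hw1 hw2
  have hpi1 := Real.pi_gt_d4
  have hpi2 := Real.pi_lt_d4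
  have hp1 : 17724 / 10000 ≤ √Real.pi := by
    apply Real.le_sqrt_of_sq_le
    norm_num at hpi1 ⊢
    linarith
  have hp2 : √Real.pi ≤ 17725 / 10000 := by
    rw [Real.sqrt_le_left (by norm_num)]
    norm_num at hpi2 ⊢
    linarith
  have hw3 : w ≤ 1129 / 1000 := by
    refine hw2.trans ?_
    rw [div_le_iff₀ (by linarith)]
    nlinarith
  generalize √Real.pi = p at *
  rcases le_total w (29 / 100) with h1 | h1
  · exact NII_step p w (47 / 200) (29 / 100) (93 / 100) (493 / 500) hp1 hp2 hw1 h1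
      (by norm_num) (by norm_num) (by norm_num) (by norm_num) (by norm_num) (by norm_num)
      (by norm_num) (by unfold NII_S; norm_num)
  rcases le_total w (9 / 25) with h2 | h2
  · exact NII_step p w (29 / 100) (9 / 25) (279 / 250) (6 / 5) hp1 hp2 h1 h2
      (by norm_num) (by norm_num) (by norm_num) (by norm_num) (by norm_num) (by norm_num)
      (by norm_num) (by unfold NII_S; norm_num)
  rcases le_total w (9 / 20) with h3 | h3
  · exact NII_step p w (9 / 25) (9 / 20) (267 / 200) (293 / 200) hp1 hp2 h2 h3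
      (by norm_num) (by norm_num) (by norm_num) (by norm_num) (by norm_num) (by norm_num)
      (by norm_num) (by unfold NII_S; norm_num)
  rcases le_total w (57 / 100) with h4 | h4
  · exact NII_step p w (9 / 20) (57 / 100) (397 / 250) (1791 / 1000) hp1 hp2 h3 h4
      (by norm_num) (by norm_num) (by norm_num) (by norm_num) (by norm_num) (by norm_num)
      (by norm_num) (by unfold NII_S; norm_num)
  rcases le_total w (29 / 40) with h5 | h5
  · exact NII_step p w (57 / 100) (29 / 40) (15 / 8) (11 / 5) hp1 hp2 h4 h5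
      (by norm_num) (by norm_num) (by norm_num) (by norm_num) (by norm_num) (by norm_num)
      (by norm_num) (by unfold NII_S; norm_num)
  rcases le_total w (37 / 40) with h6 | h6
  · exact NII_step p w (29 / 40) (37 / 40) (2161 / 1000) (1343 / 500) hp1 hp2 h5 h6
      (by norm_num) (by norm_num) (by norm_num) (by norm_num) (by norm_num) (by norm_num)
      (by norm_num) (by unfold NII_S; norm_num)
  · exact NII_step p w (37 / 40) (1129 / 1000) (2387 / 1000) (3243 / 1000) hp1 hp2 h6 hw3
      (by norm_num) (by norm_num) (by norm_num) (by norm_num) (by norm_num) (by norm_num)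
      (by norm_num) (by unfold NII_S; norm_num)

end H41WI
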