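import Mathlib
import Pool.Agent.H41R2.WI.Defs

set_option autoImplicit false

open MeasureTheory Set
open scoped ENNReal NNReal Pointwise

namespace H41WI

theorem NM2_rho_le : rho ≤ 0.2265 := by
  unfold rho
  have h1 : Real.log (Real.pi / 2) ≤ 0.453 := by
    rw [Real.log_le_iff_le_exp (by positivity)]
    have h2 := Real.sum_le_exp_of_nonneg (x := 0.453) (by norm_num) 4
    have h3 := Real.pi_lt_d4
    simp only [Finset.sum_range_succ, Finset.sum_range_zero] at h2
    norm_num [Nat.factorial] at h2 h3 ⊢
    linarith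
  norm_num at h1 ⊢
  linarith

theorem NM2_rho_nonneg : 0 ≤ rho := by
  unfold rho
  have h1 : 0 ≤ Real.log (Real.pi / 2) := by
    apply Real.log_nonneg
    have := Real.pi_gt_three
    linarith
  linarith

theorem NM2_log97 : (1/4:ℝ) ≤ Real.log (9/7) := by
  have h := Real.le_log_one_add_of_nonneg (x := 2/7) (by norm_num)
  norm_num at h ⊢
  linarith

theorem NM2_log1411 : (6/25:ℝ) ≤ Real.log (14/11) := by
  have h := Real.le_log_one_add_of_nonneg (x := 3/11) (by norm_num)
  norm_num at h ⊢
  linarith

theorem NM2_log98 : (2/17:ℝ) ≤ Real.log (9/8) := by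
  have h := Real.le_log_one_add_of_nonneg (x := 1/8) (by norm_num)
  norm_num at h ⊢
  linarith

theorem NM2_log1811 : (0.49:ℝ) ≤ Real.log (18/11) := by
  have h1 := NM2_log97
  have h2 := NM2_log1411
  have h3 : Real.log (18/11) = Real.log (9/7) + Real.log (14/11) := by
    rw [← Real.log_mul (by norm_num) (by norm_num)]
    norm_num
  rw [h3]
  norm_num at h1 h2 ⊢
  linarith

theorem NM2_log92 : (1.5:ℝ) ≤ Real.log (9/2) := by
  have h1 := NM2_log98
  have h2 := Real.log_two_gt_d9
  have h3 : Real.log (9/2) = Real.log 2 + Real.log 2 + Real.log (9/8) := by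
    rw [← Real.log_mul (by norm_num) (by norm_num), ← Real.log_mul (by norm_num) (by norm_num)]
    norm_num
  rw [h3]
  norm_num at h1 h2 ⊢
  linarith

theorem NM2_log367 : (1.63:ℝ) ≤ Real.log (36/7) := by
  have h1 := NM2_log97
  have h2 := Real.log_two_gt_d9
  have h3 : Real.log (36/7) = Real.log 2 + Real.log 2 + Real.log (9/7) := by
    rw [← Real.log_mul (by norm_num) (by norm_num), ← Real.log_mul (by norm_num) (by norm_num)]
    norm_num
  rw [h3]
  norm_num at h1 h2 ⊢
  linarith

/-- tangent lower bound -/
theorem NM2_tan (n m c L : ℝ) (hn : 9 ≤ n) (hm : 0 < m + 1) (hc : 0 < c)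
    (hL : L ≤ Real.log (9/c)) : L + 1 - (m+1)/c ≤ Real.log (n/(m+1)) := by
  have h1 : Real.log (9/(m+1)) ≤ Real.log (n/(m+1)) := by
    apply Real.log_le_log (by positivity)
    gcongr
  have h2 : Real.log (9/(m+1)) = Real.log (9/c) - Real.log ((m+1)/c) := by
    rw [← Real.log_div (by positivity) (by positivity)]
    congr 1
    field_simp
  have h3 := Real.log_le_sub_one_of_pos (x := (m+1)/c) (by positivity)
  linarith

theorem NM2 : S_NM2 := by
  intro n m hn hm hmn
  have hr := NM2_rho_le
  have hr0 := NM2_rho_nonneg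
  have e1 := NM2_log1811
  have e2 := NM2_log92
  have e3 := NM2_log367
  norm_num at hr e1 e2 e3
  rcases le_or_gt m 1 with h1 | h1
  · rw [min_eq_right h1]
    rcases le_or_gt m (3/4) with h2 | h2
    · have hL : (163/100 : ℝ) ≤ Real.log (n / (m+1)) := by
        refine e3.trans (Real.log_le_log (by norm_num) ?_)
        rw [le_div_iff₀ (by linarith)]
        linarith
      nlinarith
    · have hL : (3/2 : ℝ) ≤ Real.log (n / (m+1)) := by
        refine e2.trans (Real.log_le_log (by norm_num) ?_)
        rw [le_div_iff₀ (by linarith)]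
        linarith
      nlinarith
  · rw [min_eq_left h1.le]
    rcases le_or_gt m 2 with h2 | h2
    · have hL := NM2_tan n m 2 (3/2) hn (by linarith) (by norm_num) e2
      have h3 : m / 4 * (3/2 + 1 - (m+1)/2) ≤ m / 4 * Real.log (n / (m+1)) :=
        mul_le_mul_of_nonneg_left hL (by linarith)
      nlinarith
    · rcases le_or_gt m (9/2) with h3 | h3
      · have hL := NM2_tan n m (11/2) (49/100) hn (by linarith) (by norm_num)
          (by norm_num; exact e1)
        have h4 : m / 4 * (49/100 + 1 - (m+1)/(11/2)) ≤ m / 4 * Real.log (n / (m+1)) :=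
          mul_le_mul_of_nonneg_left hL (by linarith)
        nlinarith
      · have hL : (49/100 : ℝ) ≤ Real.log (n / (m+1)) := by
          refine e1.trans (Real.log_le_log (by norm_num) ?_)
          rw [le_div_iff₀ (by linarith)]
          linarith
        nlinarith

end H41WI
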