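import Pool.Agent.H41R2.WI.Defs

/-!
# Existence and nonnegativity of the intrinsic volumes
-/

set_option autoImplicit false

open MeasureTheory

namespace H41WI

theorem NNG_kap (j : ℕ) : 0 < kap j := by
  unfold kap
  have h1 : 0 < Real.Gamma ((j : ℝ) / 2 + 1) := Real.Gamma_pos_of_pos (by positivity)
  have h2 : 0 < Real.pi ^ ((j : ℝ) / 2) := Real.rpow_pos_of_pos Real.pi_pos _
  positivity

theorem NNG_coeff (n : ℕ) (c d : ℕ → ℝ)
    (h : ∀ t : ℝ, 0 ≤ t → ∑ j ∈ Finset.range (n + 1), c j * t ^ j
      = ∑ j ∈ Finset.range (n + 1), d j * t ^ j) (j : ℕ) (hj : j ≤ n) : c j = d j := by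
  have key : ∀ e : ℕ → ℝ, (∑ j ∈ Finset.range (n + 1),
      Polynomial.C (e j) * Polynomial.X ^ j).coeff j = e j := by
    intro e
    rw [Polynomial.finset_sum_coeff]
    simp only [Polynomial.coeff_C_mul, Polynomial.coeff_X_pow]
    rw [Finset.sum_eq_single j]
    · simp
    · intro b _ hb
      simp [Ne.symm hb]
    · intro hj'
      exact absurd (Finset.mem_range.2 (by omega)) hj'
  have heq : (∑ j ∈ Finset.range (n + 1), Polynomial.C (c j) * Polynomial.X ^ j)
      = ∑ j ∈ Finset.range (n + 1), Polynomial.C (d j) * Polynomial.X ^ j := by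
    apply Polynomial.eq_of_infinite_eval_eq
    apply (Set.Ici_infinite (0 : ℝ)).mono
    intro t ht
    simp only [Set.mem_setOf_eq, Polynomial.eval_finset_sum, Polynomial.eval_mul,
      Polynomial.eval_C, Polynomial.eval_pow, Polynomial.eval_X]
    exact h t ht
  rw [← key c, ← key d, heq]

theorem NNG (h : S_STP) : S_NNG := by
  intro n K hK
  obtain ⟨c, hc0, hc⟩ := h n K hK
  constructor
  · refine ⟨fun i => c (n - i) / kap (n - i), fun t ht => ?_⟩
    rw [hc t ht, ← Finset.sum_range_reflect]
    apply Finset.sum_congr rfl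
    intro i hi
    have h1 : n + 1 - 1 - i = n - i := by omega
    rw [h1, mul_div_cancel₀ _ (NNG_kap _).ne']
  · intro V hV i hi
    have h1 : c (n - i) = kap (n - i) * V i := by
      have h2 := NNG_coeff n c (fun j => kap j * V (n - j)) (fun t ht => by
        rw [← hc t ht, hV t ht, ← Finset.sum_range_reflect]
        apply Finset.sum_congr rfl
        intro j hj
        have hj' : j ≤ n := Nat.lt_succ_iff.1 (Finset.mem_range.1 hj)
        have e1 : n + 1 - 1 - j = n - j := by omega
        have e2 : n - (n - j) = j := by omega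
        rw [e1, e2]) (n - i) (Nat.sub_le n i)
      have e3 : n - (n - i) = i := by omega
      simpa [e3] using h2
    have h3 := hc0 (n - i)
    rw [h1] at h3
    exact nonneg_of_mul_nonneg_right h3 (NNG_kap _)

end H41WI
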