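import Pool.Agent.H41R2.WI.Defs

set_option autoImplicit false

open MeasureTheory Set Filter Topology
open scoped ENNReal NNReal Pointwise

namespace H41WI

/-- **NUL** -/
theorem NUL : S_NUL := by
  intro n f C hf s hs
  have hmp : MeasurePreserving (MeasurableEquiv.toLp 2 (Fin n → ℝ)) volume volume :=
    (EuclideanSpace.volume_preserving_symm_measurableEquiv_toLp (Fin n)).symm
  have hv : ∀ T : Set (E n), volume T = volume (WithLp.toLp 2 ⁻¹' T : Set (Fin n → ℝ)) := by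
    intro T
    exact (hmp.measure_preimage_equiv T).symm
  have hH : (Measure.hausdorffMeasure (n : ℝ) : Measure (Fin n → ℝ)) = volume := by
    have := hausdorffMeasure_pi_real (ι := Fin n)
    rwa [Fintype.card_fin] at this
  set g : (Fin n → ℝ) → (Fin n → ℝ) := fun x => WithLp.ofLp (f (WithLp.toLp 2 x)) with hg
  have hL : LipschitzWith (1 * (C * ((Fintype.card (Fin n) : ℝ≥0) ^ (1 / (2 : ℝ≥0∞)).toReal))) g :=
    (PiLp.lipschitzWith_ofLp 2 (fun _ : Fin n => ℝ)).comp
      (hf.comp (PiLp.lipschitzWith_toLp 2 (fun _ : Fin n => ℝ)))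
  have himg : (WithLp.toLp 2 ⁻¹' (f '' s) : Set (Fin n → ℝ)) ⊆ g '' (WithLp.toLp 2 ⁻¹' s) := by
    rintro x ⟨y, hy, hxy⟩
    exact ⟨WithLp.ofLp y, hy, by rw [hg]; simp only [WithLp.toLp_ofLp]; rw [hxy]⟩
  rw [hv]
  refine measure_mono_null himg ?_
  have h1 := hL.hausdorffMeasure_image_le (d := (n : ℝ)) (Nat.cast_nonneg n) (WithLp.toLp 2 ⁻¹' s)
  rw [hH] at h1
  rw [hv] at hs
  rw [hs, mul_zero] at h1
  exact le_antisymm h1 zero_le

end H41WI
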