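import Pool.Agent.H41R2.WI.Defs

/-!
Task O11 (helper793): the one-dimensional inequality with parameters `11/4, 1`.
-/

set_option autoImplicit false

open MeasureTheory Set
open scoped ENNReal NNReal Pointwise

namespace H41WI

theorem O11_zero (a : ℝ) : II a 0 = 1 := by
  unfold II
  have h : ∫ x in (0 : ℝ)..1, Real.exp (-(0 * zz a 0 x + a * (x - zz a 0 x) ^ 2)) =
      ∫ _ in (0 : ℝ)..1, (1 : ℝ) := by
    apply intervalIntegral.integral_congr
    intro x hx
    rw [Set.uIcc_of_le zero_le_one] at hx
    have hz : zz a 0 x = x := by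
      unfold zz
      rw [zero_div, sub_zero, max_eq_right hx.1]
    simp only [hz, sub_self]
    norm_num
  rw [h]
  simp

theorem O11 (h1 : S_IIG) (h2 : S_CLO) (h3 : S_EL1) (h4 : S_EL2) : S_O11 := by
  intro t ht
  rw [one_mul]
  rcases ht.eq_or_lt with h0 | hpos
  · rw [← h0, O11_zero]
    norm_num
  · rcases le_total t (31 / 10) with hle | hge
    · have e1 := h2 (11 / 4) t (by norm_num) hpos (by linarith)
      rw [show (2 : ℝ) * (11 / 4) = 11 / 2 from by norm_num,
        show (4 : ℝ) * (11 / 4) = 11 from by norm_num] at e1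
      rw [e1]
      exact h4 t hpos hle
    · have e1 := (h1 (11 / 4) t (by norm_num) ht).1
      have e2 : Real.exp (-t) ≤ Real.exp (-(31 / 10)) := Real.exp_le_exp.2 (by linarith)
      have e3 : (1 + Real.exp (-(31 / 10))) / 2 ≤
          ∫ x in (0 : ℝ)..1, Real.exp (-(11 / 4 * x ^ 2)) := h3
      linarith

end H41WI
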