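import Mathlib
import Pool.Agent.H41R2.WI.Defs

set_option autoImplicit false

open MeasureTheory Set

namespace H41WI

theorem OPS_cs {s : ℝ} (hs : 1 ≤ s) : 1 ≤ cs s := by
  unfold cs
  have h1 : 0 < Real.exp (-(4 * (s - 1))) := Real.exp_pos _
  nlinarith [mul_pos (by linarith : (0:ℝ) < s) h1]

theorem OPS_II0 {a : ℝ} (ha : 0 < a) : II a 0 = 1 := by
  unfold II
  have : ∀ x ∈ Set.uIcc (0:ℝ) 1, Real.exp (-(0 * zz a 0 x + a * (x - zz a 0 x) ^ 2)) = 1 := by
    intro x hx
    rw [Set.uIcc_of_le zero_le_one] at hx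
    have hz : zz a 0 x = x := by
      unfold zz
      rw [zero_div, sub_zero]
      exact max_eq_right hx.1
    rw [hz]
    simp
  rw [intervalIntegral.integral_congr this]
  simp

theorem OPS (h1 : S_IIG) (h2 : S_R1) (h3 : S_R2) (h4 : S_R3) (h5 : S_R4) : S_OPS := by
  intro s hs t ht
  have hs0 : 0 < s := by linarith
  have hpi := Real.pi_pos
  have hsp : 0 < √Real.pi := Real.sqrt_pos.mpr hpi
  have hsq : √Real.pi * √Real.pi = Real.pi := Real.mul_self_sqrt hpi.le
  have ha : 0 < Real.pi * s ^ 2 := by positivity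
  have hc := OPS_cs hs
  have hc0 : 0 ≤ cs s := by linarith
  rcases ht.eq_or_lt with h0 | h0
  · subst h0
    rw [OPS_II0 ha]
    simp
    linarith
  · by_cases hA : t ≤ 2 * √Real.pi * s * (47 / 200)
    · calc (1 + Real.exp (-t)) / 2 ≤ cs s * ((1 - Real.exp (-t)) / t) := h2 s t hs h0 hA
        _ ≤ cs s * II (Real.pi * s ^ 2) t :=
            mul_le_mul_of_nonneg_left ((h1 _ t ha ht).2 h0) hc0
    · push Not at hA
      by_cases hB : t ≤ 2 * Real.pi * s ^ 2
      · set w : ℝ := t / (2 * √Real.pi * s) with hw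
        have hd : 0 < 2 * √Real.pi * s := by positivity
        have htw : t = 2 * √Real.pi * s * w := by
          rw [hw]; field_simp
        have hw1 : 47 / 200 ≤ w := by
          rw [hw, le_div_iff₀ hd]; linarith
        have hw2 : w ≤ √Real.pi * s := by
          rw [hw, div_le_iff₀ hd]
          calc t ≤ 2 * Real.pi * s ^ 2 := hB
            _ = 2 * (√Real.pi * √Real.pi) * s ^ 2 := by rw [hsq]
            _ = √Real.pi * s * (2 * √Real.pi * s) := by ring
        rw [htw]
        by_cases hC : w ≤ 2 / √Real.pi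
        · exact h3 s w hs hw1 hC
        · push Not at hC
          exact h4 s w hs hC.le hw2
      · push Not at hB
        calc (1 + Real.exp (-t)) / 2
            ≤ cs s * ∫ x in (0 : ℝ)..1, Real.exp (-(Real.pi * s ^ 2 * x ^ 2)) := h5 s t hs hB.le
          _ ≤ cs s * II (Real.pi * s ^ 2) t :=
            mul_le_mul_of_nonneg_left ((h1 _ t ha ht).1) hc0

end H41WI
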