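import Pool.Agent.H41R2.WI.Defs

set_option autoImplicit false

open MeasureTheory Set
open scoped ENNReal NNReal Pointwise

namespace H41WI

theorem PAR : S_PAR := by
  intro n K t hK hne ht
  rw [hK.add_closedBall_zero ht]
  ext x
  rw [Metric.mem_cthickening_iff, Set.mem_ofPred_eq, Metric.infDist,
    ENNReal.le_ofReal_iff_toReal_le (Metric.infEDist_ne_top hne) ht]

end H41WI
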