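import Pool.Agent.H41R2.WI.Defs

set_option autoImplicit false

open MeasureTheory Set
open scoped ENNReal NNReal Pointwise

namespace H41WI

theorem PLC_toReal {A B C : ℝ≥0∞} {t : ℝ} (hC : C ≠ ⊤) (h : A ^ (1 - t) * B ^ t ≤ C) :
    A.toReal ^ (1 - t) * B.toReal ^ t ≤ C.toReal := by
  have h1 := ENNReal.toReal_mono hC h
  rwa [ENNReal.toReal_mul, ← ENNReal.toReal_rpow, ← ENNReal.toReal_rpow] at h1

theorem PLC_glc {n : ℕ} {V e : ℕ → ℝ} (hV : ∀ i ≤ n, 0 ≤ V i) (hW : 0 < Wt n V)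
    (hF : ∀ x y t : ℝ, 0 < x → 0 < y → 0 < t → t < 1 →
      (∑ i ∈ Finset.range (n + 1), V i * x ^ (e i)) ^ (1 - t) *
        (∑ i ∈ Finset.range (n + 1), V i * y ^ (e i)) ^ t ≤
      ∑ i ∈ Finset.range (n + 1), V i * ((1 - t) * x + t * y) ^ (e i)) :
    GLC (Finset.range (n + 1)) (fun i => V i / Wt n V) e := by
  intro x y t hx hy ht ht1
  have hsum : ∀ z : ℝ, ∑ i ∈ Finset.range (n + 1), V i / Wt n V * z ^ (e i) =
      (∑ i ∈ Finset.range (n + 1), V i * z ^ (e i)) / Wt n V := by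
    intro z
    rw [Finset.sum_div]
    exact Finset.sum_congr rfl fun i _ => by ring
  have hnn : ∀ z : ℝ, 0 < z → 0 ≤ ∑ i ∈ Finset.range (n + 1), V i * z ^ (e i) := by
    intro z hz
    exact Finset.sum_nonneg fun i hi =>
      mul_nonneg (hV i (Nat.lt_succ_iff.1 (Finset.mem_range.1 hi))) (Real.rpow_nonneg hz.le _)
  simp only [hsum]
  rw [Real.div_rpow (hnn x hx) hW.le, Real.div_rpow (hnn y hy) hW.le, div_mul_div_comm,
    ← Real.rpow_add hW]
  have : (1 - t + t : ℝ) = 1 := by ring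
  rw [this, Real.rpow_one]
  exact div_le_div_of_nonneg_right (hF x y t hx hy ht ht1) hW.le

theorem PLC_gen (h5 : S_MOT) (h6 : S_MOV) {n : ℕ} {V e : ℕ → ℝ} (hV : ∀ i ≤ n, 0 ≤ V i)
    (hW : 0 < Wt n V)
    (hF : ∀ x y t : ℝ, 0 < x → 0 < y → 0 < t → t < 1 →
      (∑ i ∈ Finset.range (n + 1), V i * x ^ (e i)) ^ (1 - t) *
        (∑ i ∈ Finset.range (n + 1), V i * y ^ (e i)) ^ t ≤
      ∑ i ∈ Finset.range (n + 1), V i * ((1 - t) * x + t * y) ^ (e i)) :
    (∀ v : ℝ, 0 < v → ∑ i ∈ Finset.range (n + 1), V i * v ^ (e i) ≤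
      Wt n V * Real.exp ((v - 1) * ((∑ i ∈ Finset.range (n + 1), e i * V i) / Wt n V))) ∧
    ∑ i ∈ Finset.range (n + 1), e i ^ 2 * V i ≤
      Wt n V * (((∑ i ∈ Finset.range (n + 1), e i * V i) / Wt n V) ^ 2 +
        (∑ i ∈ Finset.range (n + 1), e i * V i) / Wt n V) := by
  have hg := PLC_glc hV hW hF
  have hp : ∀ i ∈ Finset.range (n + 1), 0 ≤ V i / Wt n V := fun i hi =>
    div_nonneg (hV i (Nat.lt_succ_iff.1 (Finset.mem_range.1 hi))) hW.le
  have hp1 : ∑ i ∈ Finset.range (n + 1), V i / Wt n V = 1 := by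
    rw [← Finset.sum_div]
    exact div_self hW.ne'
  have hm := h5 (Finset.range (n + 1)) (fun i => V i / Wt n V) e hp hp1 hg
  have hv := h6 (Finset.range (n + 1)) (fun i => V i / Wt n V) e hp hp1 hm
  have hmu : ∑ i ∈ Finset.range (n + 1), V i / Wt n V * e i =
      (∑ i ∈ Finset.range (n + 1), e i * V i) / Wt n V := by
    rw [Finset.sum_div]
    exact Finset.sum_congr rfl fun i _ => by ring
  refine ⟨fun v hv0 => ?_, ?_⟩
  · have h := hm v hv0
    rw [hmu] at h
    have hs : ∑ i ∈ Finset.range (n + 1), V i / Wt n V * v ^ (e i) =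
        (∑ i ∈ Finset.range (n + 1), V i * v ^ (e i)) / Wt n V := by
      rw [Finset.sum_div]
      exact Finset.sum_congr rfl fun i _ => by ring
    rw [hs, div_le_iff₀ hW] at h
    linarith [mul_comm (Wt n V) (Real.exp ((v - 1) *
      ((∑ i ∈ Finset.range (n + 1), e i * V i) / Wt n V)))]
  · rw [hmu] at hv
    have hs : ∑ i ∈ Finset.range (n + 1), V i / Wt n V * (e i * (e i - 1)) =
        (∑ i ∈ Finset.range (n + 1), e i ^ 2 * V i) / Wt n V -
        (∑ i ∈ Finset.range (n + 1), e i * V i) / Wt n V := by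
      rw [Finset.sum_div, Finset.sum_div, ← Finset.sum_sub_distrib]
      exact Finset.sum_congr rfl fun i _ => by ring
    rw [hs] at hv
    have h2 : (∑ i ∈ Finset.range (n + 1), e i ^ 2 * V i) / Wt n V ≤
        ((∑ i ∈ Finset.range (n + 1), e i * V i) / Wt n V) ^ 2 +
        (∑ i ∈ Finset.range (n + 1), e i * V i) / Wt n V := by linarith
    rw [div_le_iff₀ hW] at h2
    linarith [mul_comm (Wt n V) (((∑ i ∈ Finset.range (n + 1), e i * V i) / Wt n V) ^ 2 +
        (∑ i ∈ Finset.range (n + 1), e i * V i) / Wt n V)]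

theorem t_PLC (h1 : S_GAU) (h2 : S_SCL) (h3 : S_PLV) (h4 : S_PLT) (h5 : S_MOT) (h6 : S_MOV) :
    S_PLC := by
  intro n K V hK hS hV hW
  have hpi := Real.pi_pos
  -- scaled bodies
  have hsc : ∀ τ : ℝ, 0 < τ → gint Real.pi (τ • K) ≠ ⊤ ∧
      (gint Real.pi (τ • K)).toReal = ∑ i ∈ Finset.range (n + 1), V i * τ ^ (i : ℝ) := by
    intro τ hτ
    obtain ⟨ha, hb⟩ := h1 n (τ • K) (fun i => V i * τ ^ i) Real.pi hpi
      (hK.cpt.smul τ) (hK.ne.smul_set) (h2 n K V τ hτ hS)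
    refine ⟨ha, hb.trans ?_⟩
    refine Finset.sum_congr rfl fun i _ => ?_
    rw [div_self hpi.ne', Real.sqrt_one, one_pow, mul_one, Real.rpow_natCast]
  have hva : ∀ v : ℝ, 0 < v → gint (Real.pi / v) K ≠ ⊤ ∧
      (gint (Real.pi / v) K).toReal =
        ∑ i ∈ Finset.range (n + 1), V i * v ^ (((n : ℝ) - i) / 2) := by
    intro v hv
    obtain ⟨ha, hb⟩ := h1 n K V (Real.pi / v) (by positivity) hK.cpt hK.ne hS
    refine ⟨ha, hb.trans ?_⟩
    refine Finset.sum_congr rfl fun i hi => ?_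
    have hin : i ≤ n := Nat.lt_succ_iff.1 (Finset.mem_range.1 hi)
    have e1 : Real.pi / (Real.pi / v) = v := by field_simp
    rw [e1, Real.sqrt_eq_rpow, ← Real.rpow_natCast, ← Real.rpow_mul hv.le, Nat.cast_sub hin]
    congr 2
    ring
  have hA := PLC_gen h5 h6 (e := fun i => (i : ℝ)) hV hW (by
    intro x y t hx hy ht ht1
    have hz : 0 < (1 - t) * x + t * y := by
      have : 0 < 1 - t := by linarith
      positivity
    have h := h4 n K hK x y t hx hy ht ht1
    have h' := PLC_toReal (hsc _ hz).1 h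
    rwa [(hsc x hx).2, (hsc y hy).2, (hsc _ hz).2] at h')
  have hB := PLC_gen h5 h6 (e := fun i => ((n : ℝ) - i) / 2) hV hW (by
    intro x y t hx hy ht ht1
    have hz : 0 < (1 - t) * x + t * y := by
      have : 0 < 1 - t := by linarith
      positivity
    have h := h3 n K hK x y t hx hy ht ht1
    have h' := PLC_toReal (hva _ hz).1 h
    rwa [(hva x hx).2, (hva y hy).2, (hva _ hz).2] at h')
  have hen : (∑ i ∈ Finset.range (n + 1), (((n : ℝ) - i) / 2) * V i) / Wt n V = en n V / 2 := by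
    unfold en
    have : ∑ i ∈ Finset.range (n + 1), (((n : ℝ) - i) / 2) * V i =
        (∑ i ∈ Finset.range (n + 1), ((n : ℝ) - i) * V i) / 2 := by
      rw [Finset.sum_div]
      exact Finset.sum_congr rfl fun i _ => by ring
    rw [this]
    ring
  refine ⟨?_, ?_, ?_, ?_⟩
  · intro s hs
    have h := hA.1 s hs
    simp only [Real.rpow_natCast] at h
    exact h
  · have h := hA.2
    exact h
  · intro v hv
    have h := hB.1 v hv
    rw [hen] at h
    refine le_trans (le_of_eq ?_) h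
    refine Finset.sum_congr rfl fun i hi => ?_
    have hin : i ≤ n := Nat.lt_succ_iff.1 (Finset.mem_range.1 hi)
    rw [Real.sqrt_eq_rpow, ← Real.rpow_natCast, ← Real.rpow_mul hv.le, Nat.cast_sub hin]
    congr 2
    ring
  · have h := hB.2
    rw [hen] at h
    have hs : ∑ i ∈ Finset.range (n + 1), (((n : ℝ) - i) / 2) ^ 2 * V i =
        (∑ i ∈ Finset.range (n + 1), ((n : ℝ) - i) ^ 2 * V i) / 4 := by
      rw [Finset.sum_div]
      exact Finset.sum_congr rfl fun i _ => by ring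
    rw [hs] at h
    nlinarith [h]

end H41WI
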