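import Pool.Agent.H41R2.WI.Defs
import Pool.Agent.H212R2.KLS.T1

set_option autoImplicit false

open MeasureTheory Set
open scoped ENNReal NNReal Pointwise

namespace H41WI

theorem PLT_inf {n : ℕ} {K : Set (E n)} (hK : Body K) {v w t : ℝ} (hv : 0 < v) (hw : 0 < w)
    (ht0 : 0 < t) (ht1 : t < 1) (x y : E n) :
    Metric.infDist ((1 - t) • x + t • y) (((1 - t) * v + t * w) • K)
      ≤ (1 - t) * Metric.infDist x (v • K) + t * Metric.infDist y (w • K) := by
  obtain ⟨p, hp, hpx⟩ := (hK.cpt.smul v).exists_infDist_eq_dist (hK.ne.smul_set) x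
  obtain ⟨q, hq, hqy⟩ := (hK.cpt.smul w).exists_infDist_eq_dist (hK.ne.smul_set) y
  obtain ⟨k, hk, rfl⟩ := Set.mem_smul_set.mp hp
  obtain ⟨l, hl, rfl⟩ := Set.mem_smul_set.mp hq
  have h1t : 0 < 1 - t := by linarith
  set u : ℝ := (1 - t) * v + t * w with hu
  have hu0 : 0 < u := by positivity
  have hmem : (1 - t) • (v • k) + t • (w • l) ∈ u • K := by
    refine Set.mem_smul_set.mpr ⟨((1 - t) * v / u) • k + (t * w / u) • l, ?_, ?_⟩
    · refine hK.cvx hk hl (by positivity) (by positivity) ?_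
      rw [← add_div, ← hu, div_self hu0.ne']
    · rw [smul_add, smul_smul, smul_smul, smul_smul, smul_smul, mul_div_cancel₀ _ hu0.ne',
        mul_div_cancel₀ _ hu0.ne']
  refine (Metric.infDist_le_dist_of_mem hmem).trans ?_
  rw [hpx, hqy, dist_eq_norm, dist_eq_norm, dist_eq_norm]
  have e : (1 - t) • x + t • y - ((1 - t) • (v • k) + t • (w • l))
      = (1 - t) • (x - v • k) + t • (y - w • l) := by
    rw [smul_sub, smul_sub]; abel
  rw [e]
  refine (norm_add_le _ _).trans ?_
  rw [norm_smul, norm_smul, Real.norm_eq_abs, Real.norm_eq_abs, abs_of_pos h1t, abs_of_pos ht0]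

theorem PLT_meas {n : ℕ} (K : Set (E n)) :
    Measurable (fun x : E n => ENNReal.ofReal (Real.exp (-(Real.pi * Metric.infDist x K ^ 2)))) := by
  have h1 : Continuous (fun x : E n => Metric.infDist x K) := Metric.continuous_infDist_pt K
  have h2 : Continuous (fun x : E n => Real.exp (-(Real.pi * Metric.infDist x K ^ 2))) := by
    fun_prop
  exact (ENNReal.continuous_ofReal.comp h2).measurable

theorem PLT : S_PLT := by
  intro n K hK v w t hv hw ht0 ht1
  have h1t : 0 < 1 - t := by linarith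
  refine Pool.Agent.H212R2.KLS.PL (volume : Measure (E n)) t ht0 ht1 _ _ _ (PLT_meas _)
    (PLT_meas _) (PLT_meas _) fun x y => ?_
  set a := Metric.infDist x (v • K) with ha
  set b := Metric.infDist y (w • K) with hb
  set c := Metric.infDist ((1 - t) • x + t • y) (((1 - t) * v + t * w) • K) with hc
  have hle : c ≤ (1 - t) * a + t * b := PLT_inf hK hv hw ht0 ht1 x y
  have hc0 : 0 ≤ c := Metric.infDist_nonneg
  rw [ENNReal.ofReal_rpow_of_pos (Real.exp_pos _), ENNReal.ofReal_rpow_of_pos (Real.exp_pos _),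
    ← ENNReal.ofReal_mul (by positivity)]
  refine ENNReal.ofReal_le_ofReal ?_
  rw [← Real.exp_mul, ← Real.exp_mul, ← Real.exp_add]
  refine Real.exp_le_exp.mpr ?_
  have h2 : c ^ 2 ≤ ((1 - t) * a + t * b) ^ 2 := pow_le_pow_left₀ hc0 hle 2
  have h3 : ((1 - t) * a + t * b) ^ 2 ≤ (1 - t) * a ^ 2 + t * b ^ 2 := by
    have : 0 ≤ (1 - t) * t * (a - b) ^ 2 := by positivity
    nlinarith
  have hpi := Real.pi_pos
  nlinarith [mul_le_mul_of_nonneg_left (h2.trans h3) hpi.le]

end H41WI
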