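import Mathlib
import Pool.Agent.H41R2.WI.Defs
import Pool.Agent.H212R2.KLS.T1

set_option autoImplicit false

open MeasureTheory Set
open scoped ENNReal NNReal Pointwise Topology

namespace H41WI

theorem PLV_cauchy (v w t a b c : ℝ) (hv : 0 < v) (hw : 0 < w) (ht0 : 0 < t) (ht1 : t < 1)
    (hc0 : 0 ≤ c) (hc : c ≤ (1 - t) * a + t * b) :
    c ^ 2 / ((1 - t) * v + t * w) ≤ (1 - t) * (a ^ 2 / v) + t * (b ^ 2 / w) := by
  have h1t : 0 < 1 - t := by linarith
  have hD : 0 < (1 - t) * v + t * w := by positivity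
  rw [div_le_iff₀ hD]
  have h1 : c ^ 2 ≤ ((1 - t) * a + t * b) ^ 2 := pow_le_pow_left₀ hc0 hc 2
  refine h1.trans ?_
  have h2 : ((1 - t) * (a ^ 2 / v) + t * (b ^ 2 / w)) * ((1 - t) * v + t * w) - ((1 - t) * a + t * b) ^ 2 =
      (1 - t) * t * ((a * w - b * v) ^ 2 / (v * w)) := by
    field_simp
    ring
  have h3 : 0 ≤ (1 - t) * t * ((a * w - b * v) ^ 2 / (v * w)) := by positivity
  linarith

theorem PLV : S_PLV := by
  intro n K hK v w t hv hw ht0 ht1
  have h1t : 0 < 1 - t := by linarith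
  have hD : 0 < (1 - t) * v + t * w := by positivity
  have hmeas : ∀ a : ℝ, Measurable fun x : E n => ENNReal.ofReal (Real.exp (-(a * Metric.infDist x K ^ 2))) := by
    intro a
    have : Continuous fun x : E n => Real.exp (-(a * Metric.infDist x K ^ 2)) := by
      have := Metric.continuous_infDist_pt K
      fun_prop
    exact this.measurable.ennreal_ofReal
  unfold gint
  refine Pool.Agent.H212R2.KLS.PL (volume : Measure (E n)) t ht0 ht1 _ _ _ (hmeas _) (hmeas _) (hmeas _) ?_
  intro x y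
  obtain ⟨kx, hkx, hdx⟩ := hK.cpt.exists_infDist_eq_dist hK.ne x
  obtain ⟨ky, hky, hdy⟩ := hK.cpt.exists_infDist_eq_dist hK.ne y
  have hconv : (1 - t) • kx + t • ky ∈ K := hK.cvx hkx hky h1t.le ht0.le (by ring)
  have hc : Metric.infDist ((1 - t) • x + t • y) K ≤ (1 - t) * Metric.infDist x K + t * Metric.infDist y K := by
    refine (Metric.infDist_le_dist_of_mem hconv).trans ?_
    rw [hdx, hdy, dist_eq_norm, dist_eq_norm, dist_eq_norm]
    have e : (1 - t) • x + t • y - ((1 - t) • kx + t • ky) = (1 - t) • (x - kx) + t • (y - ky) := by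
      rw [smul_sub, smul_sub]; abel
    rw [e]
    refine (norm_add_le _ _).trans ?_
    rw [norm_smul, norm_smul, Real.norm_of_nonneg h1t.le, Real.norm_of_nonneg ht0.le]
  have key := PLV_cauchy v w t _ _ _ hv hw ht0 ht1 Metric.infDist_nonneg hc
  rw [ENNReal.ofReal_rpow_of_pos (Real.exp_pos _), ENNReal.ofReal_rpow_of_pos (Real.exp_pos _),
    ← ENNReal.ofReal_mul (Real.rpow_nonneg (Real.exp_pos _).le _), ← Real.exp_mul, ← Real.exp_mul,
    ← Real.exp_add]
  apply ENNReal.ofReal_le_ofReal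
  apply Real.exp_le_exp.mpr
  have hpi := Real.pi_pos
  have h5 := mul_le_mul_of_nonneg_left key hpi.le
  have e1 : Real.pi * (Metric.infDist ((1 - t) • x + t • y) K ^ 2 / ((1 - t) * v + t * w)) =
      Real.pi / ((1 - t) * v + t * w) * Metric.infDist ((1 - t) • x + t • y) K ^ 2 := by ring
  have e2 : Real.pi * ((1 - t) * (Metric.infDist x K ^ 2 / v) + t * (Metric.infDist y K ^ 2 / w)) =
      (Real.pi / v * Metric.infDist x K ^ 2) * (1 - t) + (Real.pi / w * Metric.infDist y K ^ 2) * t := by ring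
  rw [e1, e2] at h5
  linarith

end H41WI
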