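import Pool.Agent.H41R2.WI.Defs

set_option autoImplicit false

open MeasureTheory Set
open scoped ENNReal NNReal Pointwise

namespace H41WI

theorem PRJ : S_PRJ := by
  intro n K hK
  have h : ∀ x : E n, ∃ v ∈ K, ‖x - v‖ = ⨅ w : K, ‖x - w‖ := fun x =>
    exists_norm_eq_iInf_of_complete_convex hK.ne hK.cpt.isComplete hK.cvx x
  choose pr hpr hn using h
  refine ⟨pr, hpr, fun x => ?_, fun x y hy => ?_⟩
  · rw [hn x, Metric.infDist_eq_iInf]
    simp only [dist_eq_norm]
  · exact (norm_eq_iInf_iff_real_inner_le_zero hK.cvx (hpr x)).1 (hn x) y hy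

end H41WI
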