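import Pool.Agent.H41R2.WI.Defs

set_option autoImplicit false

namespace H41WI

theorem R1_mono {f f' : ℝ → ℝ} (hd : ∀ x, HasDerivAt f (f' x) x) (h0 : 0 ≤ f 0)
    (hpos : ∀ x, 0 < x → 0 ≤ f' x) {b : ℝ} (hb : 0 ≤ b) : 0 ≤ f b := by
  have hmono : MonotoneOn f (Set.Ici 0) := by
    apply monotoneOn_of_deriv_nonneg (convex_Ici 0)
    · exact fun x _ => (hd x).continuousAt.continuousWithinAt
    · exact fun x _ => (hd x).differentiableAt.differentiableWithinAt
    · intro x hx
      rw [interior_Ici] at hx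
      rw [(hd x).deriv]
      exact hpos x hx
  exact h0.trans (hmono (Set.mem_Ici.2 le_rfl) (Set.mem_Ici.2 hb) hb)

theorem R1_a {b : ℝ} (hb : 0 ≤ b) : Real.sinh b ≤ b * Real.cosh b := by
  have h := R1_mono (f := fun b => b * Real.cosh b - Real.sinh b)
    (f' := fun b => b * Real.sinh b) (fun x => by
      have := ((hasDerivAt_id x).mul (Real.hasDerivAt_cosh x)).sub (Real.hasDerivAt_sinh x)
      exact this.congr_deriv (by simp)) (by simp) (fun x hx => mul_nonneg hx.le (Real.sinh_nonneg_iff.2 hx.le)) hb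
  simpa using h

theorem R1_b {b : ℝ} (hb : 0 ≤ b) : b * Real.cosh b ≤ (1 + b ^ 2 / 3) * Real.sinh b := by
  have h := R1_mono (f := fun b => (1 + b ^ 2 / 3) * Real.sinh b - b * Real.cosh b)
    (f' := fun b => b / 3 * (b * Real.cosh b - Real.sinh b)) (fun x => by
      have h1 : HasDerivAt (fun b : ℝ => 1 + b ^ 2 / 3) (2 * x / 3) x := by
        have := ((hasDerivAt_pow 2 x).div_const 3).const_add 1
        exact this.congr_deriv (by simp)
      have := (h1.mul (Real.hasDerivAt_sinh x)).sub
        ((hasDerivAt_id x).mul (Real.hasDerivAt_cosh x))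
      exact this.congr_deriv (by simp; ring)) (by simp)
      (fun x hx => mul_nonneg (by positivity) (sub_nonneg.2 (R1_a hx.le))) hb
  simpa using h

theorem R1_c {b : ℝ} (hb : 0 ≤ b) : b * Real.cosh b ≤ (1 + b) * Real.sinh b := by
  have h1 : Real.cosh b - Real.sinh b = Real.exp (-b) := Real.cosh_sub_sinh b
  have h2 : b ≤ Real.sinh b := Real.self_le_sinh_iff.2 hb
  have h3 : Real.exp (-b) ≤ 1 := Real.exp_le_one_iff.2 (by linarith)
  have h4 : b * Real.exp (-b) ≤ b := by
    calc b * Real.exp (-b) ≤ b * 1 := mul_le_mul_of_nonneg_left h3 hb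
      _ = b := mul_one b
  have h5 : b * Real.cosh b = b * Real.exp (-b) + b * Real.sinh b := by rw [← h1]; ring
  rw [h5]
  linarith

theorem R1 : S_R1 := by
  intro s t hs ht htl
  set b := t / 2 with hb
  have hb0 : 0 < b := by positivity
  have htb : t = 2 * b := by rw [hb]; ring
  have hpi : √Real.pi ≤ 1.77246 := by
    rw [show (1.77246 : ℝ) = √(1.77246 ^ 2) by rw [Real.sqrt_sq (by norm_num)]]
    apply Real.sqrt_le_sqrt
    have := Real.pi_lt_d4
    norm_num at this ⊢
    linarith
  have hbs : b ≤ 0.41654 * s := by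
    have : √Real.pi * s ≤ 1.77246 * s := mul_le_mul_of_nonneg_right hpi (by linarith)
    rw [hb]
    nlinarith
  have hsh : 0 < Real.sinh b := Real.sinh_pos_iff.2 hb0
  have hcs1 : s ≤ cs s := by
    unfold cs
    have : 0 < Real.exp (-(4 * (s - 1))) := Real.exp_pos _
    nlinarith
  have hkey : b * Real.cosh b ≤ cs s * Real.sinh b := by
    rcases le_or_gt s 2 with h2 | h2
    · refine (R1_b hb0.le).trans (mul_le_mul_of_nonneg_right ?_ hsh.le)
      have hb2 : b ^ 2 ≤ (0.41654 * s) ^ 2 := pow_le_pow_left₀ hb0.le hbs 2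
      rcases le_or_gt s (5 / 4) with h5 | h5
      · have he : 1 - 4 * (s - 1) ≤ Real.exp (-(4 * (s - 1))) := by
          have := Real.add_one_le_exp (-(4 * (s - 1)))
          linarith
        unfold cs
        have h6 : s * (1 - 4 * (s - 1)) ≤ s * Real.exp (-(4 * (s - 1))) :=
          mul_le_mul_of_nonneg_left he (by linarith)
        nlinarith
      · refine le_trans ?_ hcs1
        nlinarith
    · refine (R1_c hb0.le).trans (mul_le_mul_of_nonneg_right ?_ hsh.le)
      refine le_trans ?_ hcs1
      nlinarith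
  have e1 : (1 + Real.exp (-t)) / 2 = Real.exp (-b) * Real.cosh b := by
    rw [Real.cosh_eq, htb, show -(2 * b) = -b + -b by ring, Real.exp_add]
    have : Real.exp (-b) * Real.exp b = 1 := by rw [← Real.exp_add]; simp
    linear_combination (-1 / 2) * this
  have e2 : (1 - Real.exp (-t)) / t = Real.exp (-b) * Real.sinh b / b := by
    rw [Real.sinh_eq, htb, show -(2 * b) = -b + -b by ring, Real.exp_add]
    have : Real.exp (-b) * Real.exp b = 1 := by rw [← Real.exp_add]; simp
    field_simp
    linear_combination (-1) * this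
  rw [e1, e2, mul_div_assoc', le_div_iff₀ hb0]
  have he : 0 < Real.exp (-b) := Real.exp_pos _
  calc Real.exp (-b) * Real.cosh b * b = Real.exp (-b) * (b * Real.cosh b) := by ring
    _ ≤ Real.exp (-b) * (cs s * Real.sinh b) := mul_le_mul_of_nonneg_left hkey he.le
    _ = _ := by ring

end H41WI
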