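import Pool.Agent.H41R2.WI.Defs

set_option autoImplicit false

open MeasureTheory Set

namespace H41WI

theorem R2_alg (x q q1 q2 A B ε : ℝ) (hx0 : 0 ≤ x) (hq : 0 < q) (hq1 : 0 < q1)
    (hB : 0 < B) (hA : 0 < A)
    (i1 : 17 * q1 + 18 * (q1 * B) ≤ 1 + 18 * A) (i2 : q2 * (1 + B) ≤ A)
    (hqq1 : q ≤ q1) (hge : 1 / 4 ≤ x → q ≤ q2)
    (hle : x ≤ 1 / 4 → q ≤ (1 - 4 * x) * q1 + 4 * x * q2)
    (hε0 : 0 < ε) (hε : 1 - 4 * x ≤ 17 * ε) :
    1 + q ≤ (1 + ε) * (1 + A - q * B) := by
  rcases le_total (1 / 4) x with h | h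
  · have h1 := hge h
    have h2 : q * (1 + B) ≤ A := le_trans (mul_le_mul_of_nonneg_right h1 (by linarith)) i2
    have h3 : 1 + q ≤ 1 + A - q * B := by linarith
    have h4 : 0 ≤ ε * (1 + A - q * B) := mul_nonneg hε0.le (by linarith)
    nlinarith
  · have h1 := hle h
    have h2 : q * (1 + B) ≤ (1 - 4 * x) * (q1 * (1 + B)) + 4 * x * A := by
      have h3 : q * (1 + B) ≤ ((1 - 4 * x) * q1 + 4 * x * q2) * (1 + B) :=
        mul_le_mul_of_nonneg_right h1 (by linarith)
      have h4 : 4 * x * (q2 * (1 + B)) ≤ 4 * x * A := mul_le_mul_of_nonneg_left i2 (by linarith)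
      nlinarith
    have h5 : q * B ≤ q1 * B := mul_le_mul_of_nonneg_right hqq1 hB.le
    have h6 : 0 ≤ 1 + A - q1 * B := by linarith
    have h7 : (1 - 4 * x) * (1 + A - q1 * B) ≤ 17 * (ε * (1 + A - q * B)) := by
      have h8 : (1 - 4 * x) * (1 + A - q1 * B) ≤ 17 * ε * (1 + A - q1 * B) :=
        mul_le_mul_of_nonneg_right hε h6
      have h9 : ε * (1 + A - q1 * B) ≤ ε * (1 + A - q * B) :=
        mul_le_mul_of_nonneg_left (by linarith) hε0.le
      nlinarith
    have h10 : 0 ≤ (1 - 4 * x) * (1 + 18 * A - 17 * q1 - 18 * (q1 * B)) :=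
      mul_nonneg (by linarith) (by linarith)
    nlinarith

theorem R2 (h1 : S_REG) (h2 : S_MIL) (h3 : S_NI) (h4 : S_NII) : S_R2 := by
  intro s w hs hw1 hw2
  set p : ℝ := √Real.pi with hp
  have hp0 : 0 < p := Real.sqrt_pos.mpr Real.pi_pos
  have hpp : p * p = Real.pi := Real.mul_self_sqrt Real.pi_pos.le
  have hpi := Real.pi_gt_three
  have hw0 : 0 < w := by linarith
  have hwp : w ≤ p * s := by
    have h5 : w * p ≤ 2 := by
      rw [le_div_iff₀ hp0] at hw2
      exact hw2
    by_contra hcon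
    push Not at hcon
    have h6 : p * p ≤ p * s * p := by nlinarith [mul_pos hp0 hp0]
    nlinarith [mul_lt_mul_of_pos_right hcon hp0]
  have hreg := h1 s w (by linarith) hw0 hwp
  have hmil := h2 w hw1
  have hni := h3 w hw1 hw2
  have hnii := h4 w hw1 hw2
  rw [← hp] at hreg hni hnii
  set M : ℝ := ∫ y in Set.Ioi w, Real.exp (-y ^ 2) with hM
  set I0 : ℝ := II (Real.pi * s ^ 2) (2 * p * s * w) with hI0
  set D : ℝ := 1 + 89 / 50 * w + 2 * w ^ 2 with hD
  have hD0 : 0 < D := by positivity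
  set X : ℝ := Real.exp (w ^ 2) with hX
  have hX0 : 0 < X := Real.exp_pos _
  have hXi : Real.exp (-w ^ 2) = 1 / X := by
    rw [Real.exp_neg, one_div]
  set q : ℝ := Real.exp (-(2 * p * s * w)) with hq
  set q1 : ℝ := Real.exp (-(2 * p * w)) with hq1
  set q2 : ℝ := Real.exp (-(5 / 2 * p * w)) with hq2
  have hpw : 0 < p * w := mul_pos hp0 hw0
  have e1 : Real.exp (w ^ 2 - 2 * p * s * w) = X * q := by
    rw [hX, hq, ← Real.exp_add]; ring_nf
  have e2 : Real.exp (w ^ 2 - 2 * p * w) = X * q1 := by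
    rw [hX, hq1, ← Real.exp_add]; ring_nf
  have e3 : Real.exp (2 * w ^ 2 - 2 * p * w) = X * X * q1 := by
    rw [hX, hq1, ← Real.exp_add, ← Real.exp_add]; ring_nf
  have e4 : Real.exp (2 * w ^ 2 - 5 / 2 * p * w) = X * X * q2 := by
    rw [hX, hq2, ← Real.exp_add, ← Real.exp_add]; ring_nf
  have e5 : Real.exp (w ^ 2 - 5 / 2 * p * w) = X * q2 := by
    rw [hX, hq2, ← Real.exp_add]; ring_nf
  rw [hXi, e1] at hreg
  rw [hXi] at hmil
  rw [e2, e3] at hni
  rw [e4, e5] at hnii
  set B : ℝ := X / (p * w) with hB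
  set A : ℝ := 1 / (p * w * D * X) with hA
  have hB0 : 0 < B := by positivity
  have hA0 : 0 < A := by positivity
  -- lower bound for `2 s II`
  have key : 1 + A - q * B ≤ 2 * (s * I0) := by
    rw [hreg]
    have h5 : 1 / p * M ≤ 1 / p * (1 / X * (89 / 50 + 2 * w) / (2 * D)) :=
      mul_le_mul_of_nonneg_left hmil (by positivity)
    have h6 : A = 1 / (p * w * X) - 2 * (1 / p * (1 / X * (89 / 50 + 2 * w) / (2 * D))) := by
      rw [hA]
      field_simp
      rw [hD]
      ring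
    have h7 : 2 * ((1 / X - X * q) / (2 * p * w)) = 1 / (p * w * X) - q * B := by
      rw [hB]
      field_simp
    linarith
  have i1 : 17 * q1 + 18 * (q1 * B) ≤ 1 + 18 * A := by
    have h5 : (17 * p * w * (X * q1) + 18 * (X * X * q1)) / (p * w * X)
        ≤ (p * w * X + 18 / D) / (p * w * X) := by
      gcongr
    have h6 : (17 * p * w * (X * q1) + 18 * (X * X * q1)) / (p * w * X)
        = 17 * q1 + 18 * (q1 * B) := by
      rw [hB]
      field_simp
    have h7 : (p * w * X + 18 / D) / (p * w * X) = 1 + 18 * A := by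
      rw [hA]
      field_simp
    rw [h6, h7] at h5
    exact h5
  have i2 : q2 * (1 + B) ≤ A := by
    have h5 : (X * X * q2 + p * w * (X * q2)) / (p * w * X) ≤ (1 / D) / (p * w * X) := by
      gcongr
    have h6 : (X * X * q2 + p * w * (X * q2)) / (p * w * X) = q2 * (1 + B) := by
      rw [hB]
      field_simp
      ring
    have h7 : (1 / D) / (p * w * X) = A := by
      rw [hA]
      field_simp
    rw [h6, h7] at h5
    exact h5
  have hfin := R2_alg (s - 1) q q1 q2 A B (Real.exp (-(4 * (s - 1))) / 17) (by linarith)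
    (Real.exp_pos _) (Real.exp_pos _) hB0 hA0 i1 i2
    (by
      rw [hq, hq1]
      apply Real.exp_le_exp.mpr
      nlinarith)
    (by
      intro hx
      rw [hq, hq2]
      apply Real.exp_le_exp.mpr
      nlinarith)
    (by
      intro hx
      have hc := convexOn_exp.2 (Set.mem_univ (-(2 * p * w))) (Set.mem_univ (-(5 / 2 * p * w)))
        (show (0 : ℝ) ≤ 1 - 4 * (s - 1) by linarith) (show (0 : ℝ) ≤ 4 * (s - 1) by linarith)
        (by ring)
      simp only [smul_eq_mul] at hc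
      have he : (1 - 4 * (s - 1)) * (-(2 * p * w)) + 4 * (s - 1) * (-(5 / 2 * p * w))
          = -(2 * p * s * w) := by ring
      rw [he] at hc
      exact hc)
    (by positivity)
    (by
      have := Real.add_one_le_exp (-(4 * (s - 1)))
      linarith)
  have hcs : cs s * I0 = (1 + Real.exp (-(4 * (s - 1))) / 17) * (s * I0) := by
    unfold cs
    ring
  rw [hcs]
  have hpos : 0 < 1 + Real.exp (-(4 * (s - 1))) / 17 := by positivity
  have h8 := mul_le_mul_of_nonneg_left key hpos.le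
  linarith

end H41WI
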