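import Pool.Agent.H41R2.WI.Defs

set_option autoImplicit false

open MeasureTheory Set
open scoped ENNReal NNReal Pointwise

namespace H41WI

lemma R3_exp4 : Real.exp (-4) ≤ 1 / 54 := by
  have h1 : Real.exp (-4) * Real.exp 4 = 1 := by rw [← Real.exp_add]; simp
  have h2 : Real.exp 4 = Real.exp 1 ^ 4 := by rw [← Real.exp_nat_mul]; norm_num
  have h3 := Real.exp_one_gt_d9
  have h4 : (54 : ℝ) ≤ Real.exp 4 := by
    rw [h2]
    calc (54 : ℝ) ≤ (2.718 : ℝ) ^ 4 := by norm_num
      _ ≤ Real.exp 1 ^ 4 := by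
        apply pow_le_pow_left₀ (by norm_num)
        linarith
  rw [le_div_iff₀ (by norm_num)]
  have := Real.exp_pos (-4)
  nlinarith

lemma R3_exp_a : Real.exp (4 / Real.pi - 4) ≤ 19 / 250 := by
  have hpi := Real.pi_gt_d2
  have hpi0 : 0 < Real.pi := Real.pi_pos
  have h0 : 4 / Real.pi ≤ 1.274 := by
    rw [div_le_iff₀ hpi0]
    nlinarith
  have h1 : Real.exp (4 / Real.pi - 4) ≤ Real.exp (-(2 + 0.726)) :=
    Real.exp_le_exp.2 (by linarith)
  have h2 : Real.exp (-(2 + 0.726)) * (Real.exp 2 * Real.exp 0.726) = 1 := by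
    rw [← Real.exp_add, ← Real.exp_add]; norm_num
  have h3 : Real.exp 2 = Real.exp 1 ^ 2 := by rw [← Real.exp_nat_mul]; norm_num
  have h4 := Real.exp_one_gt_d9
  have h5 : (7.387 : ℝ) ≤ Real.exp 2 := by
    rw [h3]
    calc (7.387 : ℝ) ≤ (2.718 : ℝ) ^ 2 := by norm_num
      _ ≤ Real.exp 1 ^ 2 := by
        apply pow_le_pow_left₀ (by norm_num)
        linarith
  have h6 : (1 : ℝ) + 0.726 + 0.726 ^ 2 / 2 ≤ Real.exp 0.726 :=
    Real.quadratic_le_exp_of_nonneg (by norm_num)
  have h7 : (14 : ℝ) ≤ Real.exp 2 * Real.exp 0.726 := by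
    calc (14 : ℝ) ≤ 7.387 * (1 + 0.726 + 0.726 ^ 2 / 2) := by norm_num
      _ ≤ _ := mul_le_mul h5 h6 (by norm_num) (Real.exp_pos _).le
  have h8 := Real.exp_pos (-(2 + 0.726 : ℝ))
  have h9 : Real.exp (-(2 + 0.726)) ≤ 19 / 250 := by
    nlinarith
  exact h1.trans h9

lemma R3_exp_pi : Real.exp (-Real.pi) ≤ 1 / 20 := by
  have h1 : Real.exp (-Real.pi) ≤ Real.exp (-3) :=
    Real.exp_le_exp.2 (by linarith [Real.pi_gt_three])
  have h2 : Real.exp (-3) * Real.exp 3 = 1 := by rw [← Real.exp_add]; simp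
  have h3 : Real.exp 3 = Real.exp 1 ^ 3 := by rw [← Real.exp_nat_mul]; norm_num
  have h4 := Real.exp_one_gt_d9
  have h5 : (20 : ℝ) ≤ Real.exp 3 := by
    rw [h3]
    calc (20 : ℝ) ≤ (2.718 : ℝ) ^ 3 := by norm_num
      _ ≤ Real.exp 1 ^ 3 := by
        apply pow_le_pow_left₀ (by norm_num)
        linarith
  have h6 := Real.exp_pos (-3)
  nlinarith

/-- the reduced inequality -/
lemma R3_main (s w p : ℝ) (hs : 1 ≤ s) (hp : p ^ 2 = Real.pi) (hp0 : 0 < p) (hw1 : 2 ≤ p * w)
    (hw2 : w ≤ p * s) :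
    17 * Real.exp (4 * (s - 1) - 2 * p * s * w)
      + 18 * Real.exp (4 * (s - 1) - 2 * p * s * w + w ^ 2) / (p * w) ≤ 1 := by
  have hpi3 := Real.pi_gt_three
  have hpw : 0 < p * w := by linarith
  have hw0 : 0 < w := by
    by_contra h
    push Not at h
    nlinarith
  rcases le_total w p with hwp | hwp
  · -- w ≤ p
    have e1 : 4 * (s - 1) - 2 * p * s * w ≤ - 4 := by nlinarith
    have h2p : 2 / p ≤ w := by rw [div_le_iff₀ hp0]; linarith
    have h2pp : 2 / p ≤ p := by rw [div_le_iff₀ hp0]; nlinarith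
    have h4 : 4 / Real.pi = (2 / p) * (2 / p) := by rw [← hp]; field_simp; norm_num
    have hmul : 2 / p * p = 2 := by field_simp
    have e2 : 4 * (s - 1) - 2 * p * s * w + w ^ 2 ≤ 4 / Real.pi - 4 := by
      have h5 : 4 * (s - 1) - 2 * p * s * w ≤ - (2 * p * w) := by nlinarith
      have h6 : (w - 2 / p) * (w + 2 / p - 2 * p) ≤ 0 :=
        mul_nonpos_of_nonneg_of_nonpos (by linarith) (by linarith)
      rw [h4]
      nlinarith
    have h7 := (Real.exp_le_exp.2 e1).trans R3_exp4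
    have h8 := (Real.exp_le_exp.2 e2).trans R3_exp_a
    have h9 : 18 * Real.exp (4 * (s - 1) - 2 * p * s * w + w ^ 2) / (p * w) ≤ 9 * (19 / 250) := by
      rw [div_le_iff₀ hpw]
      have := Real.exp_pos (4 * (s - 1) - 2 * p * s * w + w ^ 2)
      nlinarith
    linarith
  · -- p ≤ w
    have hsw : w / p ≤ s := by rw [div_le_iff₀ hp0]; linarith
    have hq : w / p * p = w := by field_simp
    have e0 : 4 * (s - 1) - 2 * p * s * w ≤ -4 + w / p * (4 - 2 * (p * w)) := by
      have h5 : s * (4 - 2 * (p * w)) ≤ w / p * (4 - 2 * (p * w)) :=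
        mul_le_mul_of_nonpos_right hsw (by linarith)
      linarith
    have e1 : -4 + w / p * (4 - 2 * (p * w)) = -4 + 4 * (w / p) - 2 * w ^ 2 := by
      have : w / p * (2 * (p * w)) = 2 * w ^ 2 := by
        rw [show w / p * (2 * (p * w)) = 2 * (w / p * p) * w by ring, hq]; ring
      linarith
    have hwp1 : w / p = w * p / Real.pi := by rw [← hp]; field_simp
    have hr : 1 ≤ w / p := by rw [le_div_iff₀ hp0]; linarith
    -- with r = w / p, w^2 = r^2 π
    have hw2' : w ^ 2 = (w / p) ^ 2 * Real.pi := by rw [← hp]; field_simp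
    have e2 : 4 * (s - 1) - 2 * p * s * w ≤ -Real.pi + -Real.pi := by
      rw [e1] at e0
      refine e0.trans ?_
      rw [hw2']
      nlinarith
    have e3 : 4 * (s - 1) - 2 * p * s * w + w ^ 2 ≤ -Real.pi := by
      rw [e1] at e0
      have : -4 + 4 * (w / p) - 2 * w ^ 2 + w ^ 2 ≤ -Real.pi := by
        rw [hw2']
        nlinarith
      linarith
    have h7 : Real.exp (4 * (s - 1) - 2 * p * s * w) ≤ 1 / 20 * (1 / 20) := by
      refine (Real.exp_le_exp.2 e2).trans ?_
      rw [Real.exp_add]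
      exact mul_le_mul R3_exp_pi R3_exp_pi (Real.exp_pos _).le (by norm_num)
    have h8 := (Real.exp_le_exp.2 e3).trans R3_exp_pi
    have h9 : 18 * Real.exp (4 * (s - 1) - 2 * p * s * w + w ^ 2) / (p * w) ≤ 9 * (1 / 20) := by
      rw [div_le_iff₀ hpw]
      have := Real.exp_pos (4 * (s - 1) - 2 * p * s * w + w ^ 2)
      nlinarith
    linarith

theorem R3 (h1 : S_REG) (h2 : S_ML0) : S_R3 := by
  intro s w hs hw1 hw2
  have hpi : 0 < Real.pi := Real.pi_pos
  set p := √Real.pi with hp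
  have hp0 : 0 < p := Real.sqrt_pos.2 hpi
  have hpp : p ^ 2 = Real.pi := Real.sq_sqrt hpi.le
  have hpw : 2 ≤ p * w := by
    rw [div_le_iff₀ hp0] at hw1
    linarith
  have hw0 : 0 < w := lt_of_lt_of_le (by positivity) hw1
  have hs0 : 0 < s := by linarith
  have hreg := h1 s w hs0 hw0 hw2
  rw [← hp] at hreg
  have hml := h2 w hw0
  have hmain := R3_main s w p hs hpp hp0 hpw hw2
  -- names
  set I := II (Real.pi * s ^ 2) (2 * p * s * w) with hI
  set T := ∫ y in Set.Ioi w, Real.exp (-y ^ 2) with hT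
  set q := Real.exp (-(2 * p * s * w)) with hq
  set Q := Real.exp (w ^ 2 - 2 * p * s * w) with hQ
  set F := Real.exp (-(4 * (s - 1))) with hF
  have hF0 : 0 < F := Real.exp_pos _
  have hF1 : F ≤ 1 := by
    rw [hF]
    exact Real.exp_le_one_iff.2 (by linarith)
  have hsI : 1 / 2 - Q / (2 * p * w) ≤ s * I := by
    rw [hreg]
    have h3 : 1 / p * T ≤ 1 / p * (Real.exp (-w ^ 2) / (2 * w)) :=
      mul_le_mul_of_nonneg_left hml (by positivity)
    have h4 : 1 / p * (Real.exp (-w ^ 2) / (2 * w)) = Real.exp (-w ^ 2) / (2 * p * w) := by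
      field_simp
    rw [h4] at h3
    rw [sub_div]
    linarith
  -- the main inequality multiplied by F / 17
  have h5 : q + 18 / 17 * (Q / (p * w)) ≤ F / 17 := by
    have h6 : Real.exp (4 * (s - 1) - 2 * p * s * w) * F = q := by
      rw [hF, hq, ← Real.exp_add]; congr 1; ring
    have h7 : Real.exp (4 * (s - 1) - 2 * p * s * w + w ^ 2) * F = Q := by
      rw [hF, hQ, ← Real.exp_add]; congr 1; ring
    have h8 := mul_le_mul_of_nonneg_right hmain hF0.le
    have h9 : (17 * Real.exp (4 * (s - 1) - 2 * p * s * w)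
      + 18 * Real.exp (4 * (s - 1) - 2 * p * s * w + w ^ 2) / (p * w)) * F
      = 17 * q + 18 * (Q / (p * w)) := by
      rw [← h6, ← h7]; ring
    rw [h9] at h8
    linarith
  have hQ0 : 0 < Q / (p * w) := div_pos (Real.exp_pos _) (by positivity)
  have h10 : Q / (2 * p * w) = Q / (p * w) / 2 := by field_simp
  rw [h10] at hsI
  unfold cs
  rw [← hF]
  have h11 : s * (1 + F / 17) * I = (1 + F / 17) * (s * I) := by ring
  rw [h11]
  have h12 : (1 + F / 17) * (1 / 2 - Q / (p * w) / 2) ≤ (1 + F / 17) * (s * I) :=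
    mul_le_mul_of_nonneg_left hsI (by positivity)
  refine le_trans ?_ h12
  nlinarith

end H41WI
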