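import Pool.Agent.H41R2.WI.Defs

set_option autoImplicit false

open MeasureTheory Set Filter

namespace H41WI

theorem R4_tail (c : ℝ) (hc : 0 < c) :
    IntegrableOn (fun x : ℝ => x * Real.exp (-(c * x ^ 2))) (Ioi 1) ∧
    ∫ x in Ioi (1 : ℝ), x * Real.exp (-(c * x ^ 2)) = Real.exp (-c) / (2 * c) := by
  have hd : ∀ x : ℝ, HasDerivAt (fun x : ℝ => -(Real.exp (-(c * x ^ 2)) / (2 * c)))
      (x * Real.exp (-(c * x ^ 2))) x := by
    intro x
    have h1 : HasDerivAt (fun x : ℝ => -(c * x ^ 2)) (-(c * (2 * x))) x := by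
      have := ((hasDerivAt_pow 2 x).const_mul c).neg
      exact this.congr_deriv (by simp)
    have h2 := ((h1.exp).div_const (2 * c)).neg
    exact h2.congr_deriv (by field_simp)
  have hlim : Tendsto (fun x : ℝ => -(Real.exp (-(c * x ^ 2)) / (2 * c))) atTop (nhds 0) := by
    have h1 : Tendsto (fun x : ℝ => c * x ^ 2) atTop atTop :=
      (tendsto_pow_atTop (by norm_num)).const_mul_atTop hc
    have h2 : Tendsto (fun x : ℝ => Real.exp (-(c * x ^ 2))) atTop (nhds 0) :=
      Real.tendsto_exp_neg_atTop_nhds_zero.comp h1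
    have h3 := (h2.div_const (2 * c)).neg
    simpa using h3
  have hnn : ∀ x ∈ Ioi (1 : ℝ), 0 ≤ x * Real.exp (-(c * x ^ 2)) := fun x hx =>
    mul_nonneg (le_trans zero_le_one (le_of_lt hx)) (Real.exp_pos _).le
  have hcont : ContinuousWithinAt (fun x : ℝ => -(Real.exp (-(c * x ^ 2)) / (2 * c))) (Ici 1) 1 :=
    (hd 1).continuousAt.continuousWithinAt
  refine ⟨integrableOn_Ioi_deriv_of_nonneg hcont (fun x _ => hd x) hnn hlim, ?_⟩
  rw [integral_Ioi_of_hasDerivAt_of_nonneg hcont (fun x _ => hd x) hnn hlim]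
  simp

theorem R4 : S_R4 := by
  intro s t hs ht
  have hpi := Real.pi_gt_three
  set c : ℝ := Real.pi * s ^ 2 with hc
  have hs0 : 0 < s := by linarith
  have hc0 : 0 < c := by positivity
  obtain ⟨hI, hT⟩ := R4_tail c hc0
  have hG : Integrable (fun x : ℝ => Real.exp (-c * x ^ 2)) := integrable_exp_neg_mul_sq hc0
  have hG' : Integrable (fun x : ℝ => Real.exp (-(c * x ^ 2))) := by
    simpa [neg_mul] using hG
  have hhalf : ∫ x in Ioi (0 : ℝ), Real.exp (-(c * x ^ 2)) = 1 / (2 * s) := by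
    have h := integral_gaussian_Ioi c
    simp only [neg_mul] at h
    rw [h, hc]
    rw [show Real.pi / (Real.pi * s ^ 2) = (1 / s) ^ 2 by field_simp]
    rw [Real.sqrt_sq (by positivity)]
    field_simp
  have htail : ∫ x in Ioi (1 : ℝ), Real.exp (-(c * x ^ 2)) ≤ Real.exp (-c) / (2 * c) := by
    rw [← hT]
    apply setIntegral_mono_on hG'.integrableOn hI measurableSet_Ioi
    intro x hx
    have hx1 : (1 : ℝ) ≤ x := le_of_lt hx
    have := Real.exp_pos (-(c * x ^ 2))
    nlinarith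
  have hsplit : ∫ x in (0 : ℝ)..1, Real.exp (-(c * x ^ 2)) =
      1 / (2 * s) - ∫ x in Ioi (1 : ℝ), Real.exp (-(c * x ^ 2)) := by
    rw [← hhalf, intervalIntegral.integral_of_le zero_le_one]
    have h := setIntegral_union (μ := volume) (f := fun x : ℝ => Real.exp (-(c * x ^ 2)))
      (s := Ioc (0 : ℝ) 1) (t := Ioi 1) (by
        rw [Set.disjoint_left]; rintro x ⟨_, h1⟩ h2; exact absurd h2 (not_lt.2 h1))
      measurableSet_Ioi hG'.integrableOn hG'.integrableOn
    rw [Ioc_union_Ioi_eq_Ioi zero_le_one] at h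
    rw [h]; ring
  rw [hsplit]
  set q : ℝ := Real.exp (-(4 * (s - 1))) with hq
  have hq0 : 0 < q := Real.exp_pos _
  have hq1 : q ≤ 1 := Real.exp_le_one_iff.2 (by linarith)
  have he3 : Real.exp (-3) ≤ 0.05 := by
    have h1 : (2.718 : ℝ) ^ 3 ≤ Real.exp 3 := by
      have h3 : Real.exp 3 = Real.exp 1 ^ 3 := by rw [← Real.exp_nat_mul]; norm_num
      rw [h3]
      have := Real.exp_one_gt_d9
      gcongr
      linarith
    rw [Real.exp_neg]
    rw [inv_le_comm₀ (Real.exp_pos _) (by norm_num)]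
    refine le_trans (by norm_num) h1
  have hec : Real.exp (-c) ≤ q * 0.05 := by
    calc Real.exp (-c) ≤ Real.exp (-(4 * (s - 1)) + -3) := by
          apply Real.exp_le_exp.2
          rw [hc]
          nlinarith
      _ = q * Real.exp (-3) := by rw [Real.exp_add]
      _ ≤ q * 0.05 := mul_le_mul_of_nonneg_left he3 hq0.le
  have het : Real.exp (-t) ≤ q * 0.0025 := by
    have h1 : Real.exp (-t) ≤ Real.exp (-c) * Real.exp (-c) := by
      rw [← Real.exp_add]
      apply Real.exp_le_exp.2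
      rw [hc]; linarith
    have h2 : Real.exp (-c) * Real.exp (-c) ≤ (q * 0.05) * (q * 0.05) :=
      mul_le_mul hec hec (Real.exp_pos _).le (by positivity)
    refine h1.trans (h2.trans ?_)
    nlinarith
  have hdl : s * (Real.exp (-c) / (2 * c)) ≤ q * 0.05 / 6 := by
    have h1 : s * (Real.exp (-c) / (2 * c)) = Real.exp (-c) / (2 * Real.pi * s) := by
      rw [hc]; field_simp
    rw [h1]
    apply div_le_div₀ (by positivity) hec (by norm_num)
    nlinarith
  have hmain : (1 + Real.exp (-t)) / 2 ≤ (1 + q / 17) * (1 / 2 - q * 0.05 / 6) := by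
    nlinarith
  refine hmain.trans ?_
  have hcs : cs s = s * (1 + q / 17) := rfl
  rw [hcs]
  have hfin : 1 / 2 - q * 0.05 / 6 ≤
      s * (1 / (2 * s) - ∫ x in Ioi (1 : ℝ), Real.exp (-(c * x ^ 2))) := by
    have h1 : s * (1 / (2 * s)) = 1 / 2 := by field_simp
    have h2 := mul_le_mul_of_nonneg_left htail hs0.le
    rw [mul_sub, h1]
    linarith
  calc (1 + q / 17) * (1 / 2 - q * 0.05 / 6) ≤ (1 + q / 17) *
        (s * (1 / (2 * s) - ∫ x in Ioi (1 : ℝ), Real.exp (-(c * x ^ 2)))) :=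
        mul_le_mul_of_nonneg_left hfin (by positivity)
    _ = _ := by ring

end H41WI
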