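import Pool.Agent.H41R2.WI.Defs

set_option autoImplicit false

open MeasureTheory Set
open scoped ENNReal NNReal Pointwise

namespace H41WI

theorem RAD_congr (a : ℝ) (j : ℕ) (r : ℝ) (hr : r ∈ Ioi (0 : ℝ)) :
    2 * a * r * Real.exp (-(a * r ^ 2)) * r ^ j
      = 2 * a * (r ^ ((j : ℝ) + 1) * Real.exp (-a * r ^ (2 : ℝ))) := by
  have hr' : (0 : ℝ) < r := hr
  rw [Real.rpow_add hr', Real.rpow_one, Real.rpow_natCast, Real.rpow_two]
  rw [show -a * r ^ 2 = -(a * r ^ 2) by ring]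
  ring

theorem RAD : S_RAD := by
  intro a j ha
  have hint : IntegrableOn (fun r : ℝ => r ^ ((j : ℝ) + 1) * Real.exp (-a * r ^ (2 : ℝ))) (Ioi 0) :=
    integrableOn_rpow_mul_exp_neg_mul_rpow (by have : (0 : ℝ) ≤ j := Nat.cast_nonneg j; linarith)
      two_pos ha
  constructor
  · have h1 : IntegrableOn (fun r : ℝ => 2 * a * (r ^ ((j : ℝ) + 1) * Real.exp (-a * r ^ (2 : ℝ))))
        (Ioi 0) := hint.const_mul (2 * a)
    exact h1.congr_fun (fun r hr => (RAD_congr a j r hr).symm) measurableSet_Ioi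
  · rw [setIntegral_congr_fun measurableSet_Ioi (fun r hr => RAD_congr a j r hr),
      integral_const_mul,
      integral_rpow_mul_exp_neg_mul_rpow two_pos
        (by have : (0 : ℝ) ≤ j := Nat.cast_nonneg j; linarith) ha]
    have hG : 0 < Real.Gamma ((j : ℝ) / 2 + 1) := by
      apply Real.Gamma_pos_of_pos; positivity
    have e1 : ((j : ℝ) + 1 + 1) / 2 = (j : ℝ) / 2 + 1 := by ring
    have e2 : -((j : ℝ) + 1 + 1) / 2 = -((j : ℝ) / 2) - 1 := by ring
    rw [e1, e2]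
    unfold kap
    have h3 : √(Real.pi / a) ^ j = Real.pi ^ ((j : ℝ) / 2) * a ^ (-((j : ℝ) / 2)) := by
      rw [Real.sqrt_eq_rpow, ← Real.rpow_natCast, ← Real.rpow_mul (by positivity),
        Real.div_rpow Real.pi_pos.le ha.le, Real.rpow_neg ha.le]
      rw [show (1 : ℝ) / 2 * j = (j : ℝ) / 2 by ring]
      rfl
    rw [h3, Real.rpow_sub ha, Real.rpow_one]
    field_simp

end H41WI
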