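import Mathlib
import Pool.Agent.H41R2.WI.Defs

set_option autoImplicit false

namespace H41WI

open MeasureTheory Set
open scoped ENNReal NNReal Pointwise

theorem SCL_set {n : ℕ} (K : Set (E n)) (τ t : ℝ) (hτ : 0 < τ) (ht : 0 ≤ t) :
    τ • K + Metric.closedBall (0 : E n) t = τ • (K + Metric.closedBall (0 : E n) (t / τ)) := by
  rw [smul_add, smul_closedBall τ (0 : E n) (by positivity), smul_zero, Real.norm_of_nonneg hτ.le,
    mul_div_cancel₀ _ hτ.ne']

theorem SCL_pvol {n : ℕ} (K : Set (E n)) (τ t : ℝ) (hτ : 0 < τ) (ht : 0 ≤ t) :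
    pvol (τ • K) t = τ ^ n * pvol K (t / τ) := by
  unfold pvol
  rw [SCL_set K τ t hτ ht, Measure.addHaar_smul, ENNReal.toReal_mul, finrank_euclideanSpace,
    Fintype.card_fin, ENNReal.toReal_ofReal (abs_nonneg _), abs_of_nonneg (by positivity)]

theorem SCL : S_SCL := by
  intro n K V τ hτ hK t ht
  rw [SCL_pvol K τ t hτ ht, hK (t / τ) (by positivity), Finset.mul_sum]
  refine Finset.sum_congr rfl fun i hi => ?_
  rw [Finset.mem_range] at hi
  have h1 : τ ^ n = τ ^ i * τ ^ (n - i) := by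
    rw [← pow_add]; congr 1; omega
  rw [h1, div_pow]
  have h2 : τ ^ (n - i) ≠ 0 := by positivity
  field_simp

end H41WI
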