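import Pool.Agent.H41R2.WI.Defs

set_option autoImplicit false

open MeasureTheory Set
open scoped ENNReal NNReal Pointwise

namespace H41WI

/-- the Gaussian weight -/
noncomputable def SEG_h (t : ℝ) : ℝ := Real.exp (-Real.pi * t ^ 2)

/-- the weight of a segment -/
noncomputable def SEG_g (l t : ℝ) : ℝ := Real.exp (-Real.pi * (t - max 0 (min t l)) ^ 2)

theorem SEG_h_int : Integrable SEG_h := integrable_exp_neg_mul_sq Real.pi_pos

theorem SEG_h_integral : ∫ t, SEG_h t = 1 := by
  unfold SEG_h
  rw [integral_gaussian, div_self Real.pi_ne_zero, Real.sqrt_one]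

theorem SEG_g_eq {l : ℝ} (hl : 0 ≤ l) (t : ℝ) : SEG_g l t =
    ((Iic 0).indicator SEG_h t + (Ioc 0 l).indicator (fun _ => (1 : ℝ)) t) +
      (Ioi 0).indicator SEG_h (t - l) := by
  rcases le_or_gt t 0 with h | h
  · have h1 : t ∈ Iic (0 : ℝ) := h
    have h2 : t ∉ Ioc 0 l := fun h' => absurd h'.1 (not_lt.2 h)
    have h3 : t - l ∉ Ioi (0 : ℝ) := by
      intro h'
      have : 0 < t - l := h'
      linarith
    rw [indicator_of_mem h1, indicator_of_notMem h2, indicator_of_notMem h3]
    unfold SEG_g SEG_h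
    rw [max_eq_left ((min_le_left _ _).trans h)]
    simp
  · rcases le_or_gt t l with h' | h'
    · have h1 : t ∉ Iic (0 : ℝ) := not_le.2 h
      have h2 : t ∈ Ioc 0 l := ⟨h, h'⟩
      have h3 : t - l ∉ Ioi (0 : ℝ) := by
        intro h''
        have : 0 < t - l := h''
        linarith
      rw [indicator_of_notMem h1, indicator_of_mem h2, indicator_of_notMem h3]
      unfold SEG_g
      rw [min_eq_left h', max_eq_right h.le]
      simp
    · have h1 : t ∉ Iic (0 : ℝ) := not_le.2 h
      have h2 : t ∉ Ioc 0 l := fun h'' => absurd h''.2 (not_le.2 h')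
      have h3 : t - l ∈ Ioi (0 : ℝ) := by
        show 0 < t - l
        linarith
      rw [indicator_of_notMem h1, indicator_of_notMem h2, indicator_of_mem h3]
      unfold SEG_g SEG_h
      rw [min_eq_right h'.le, max_eq_right hl]
      simp

theorem SEG_parts {l : ℝ} (_hl : 0 ≤ l) :
    Integrable ((Iic (0 : ℝ)).indicator SEG_h) ∧
    Integrable ((Ioc (0 : ℝ) l).indicator (fun _ => (1 : ℝ))) ∧
    Integrable (fun t => (Ioi (0 : ℝ)).indicator SEG_h (t - l)) := by
  refine ⟨SEG_h_int.indicator measurableSet_Iic, ?_,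
    (SEG_h_int.indicator measurableSet_Ioi).comp_sub_right l⟩
  rw [integrable_indicator_iff measurableSet_Ioc]
  exact integrableOn_const (by simp)

theorem SEG_g_int {l : ℝ} (hl : 0 ≤ l) : Integrable (SEG_g l) := by
  have h : SEG_g l = fun t => ((Iic 0).indicator SEG_h t +
      (Ioc 0 l).indicator (fun _ => (1 : ℝ)) t) + (Ioi 0).indicator SEG_h (t - l) :=
    funext (SEG_g_eq hl)
  obtain ⟨h1, h2, h3⟩ := SEG_parts hl
  rw [h]
  exact (h1.add h2).add h3

theorem SEG_g_integral {l : ℝ} (hl : 0 ≤ l) : ∫ t, SEG_g l t = 1 + l := by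
  have h : SEG_g l = fun t => ((Iic 0).indicator SEG_h t +
      (Ioc 0 l).indicator (fun _ => (1 : ℝ)) t) + (Ioi 0).indicator SEG_h (t - l) :=
    funext (SEG_g_eq hl)
  obtain ⟨h1, h2, h3⟩ := SEG_parts hl
  have h4 : ∫ t, (Ioi (0 : ℝ)).indicator SEG_h (t - l) = ∫ t, (Ioi (0 : ℝ)).indicator SEG_h t :=
    integral_sub_right_eq_self _ l
  have h5 : (∫ t, (Iic (0 : ℝ)).indicator SEG_h t) + ∫ t, (Ioi (0 : ℝ)).indicator SEG_h t = 1 := by
    rw [← SEG_h_integral, integral_indicator measurableSet_Iic,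
      integral_indicator measurableSet_Ioi, ← compl_Iic]
    exact integral_add_compl measurableSet_Iic SEG_h_int
  have h6 : ∫ t, (Ioc (0 : ℝ) l).indicator (fun _ => (1 : ℝ)) t = l := by
    rw [integral_indicator measurableSet_Ioc]
    simp [hl]
  have h7 : ∫ t, SEG_g l t = ((∫ t, (Iic (0 : ℝ)).indicator SEG_h t) +
      ∫ t, (Ioc (0 : ℝ) l).indicator (fun _ => (1 : ℝ)) t) +
      ∫ t, (Ioi (0 : ℝ)).indicator SEG_h (t - l) := by
    have e1 := integral_add (h1.add h2) h3
    have e2 := integral_add h1 h2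
    simp only [Pi.add_apply] at e1
    rw [h]
    exact e1.trans (by rw [e2])
  rw [h7, h4, h6]
  linarith

theorem SEG_le {n : ℕ} {K : Set (E n)} {w z : E n} (hw : w ∈ K) :
    Real.exp (-(Real.pi * ‖z - w‖ ^ 2)) ≤ Real.exp (-(Real.pi * Metric.infDist z K ^ 2)) := by
  have h1 : Metric.infDist z K ≤ ‖z - w‖ := by
    rw [← dist_eq_norm]
    exact Metric.infDist_le_dist_of_mem hw
  have h2 : Metric.infDist z K ^ 2 ≤ ‖z - w‖ ^ 2 :=
    pow_le_pow_left₀ Metric.infDist_nonneg h1 2
  have h3 := mul_le_mul_of_nonneg_left h2 Real.pi_pos.le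
  exact Real.exp_le_exp.2 (by linarith)

theorem SEG_meas {n : ℕ} (K : Set (E n)) : Measurable (fun x : E n =>
    ENNReal.ofReal (Real.exp (-(Real.pi * Metric.infDist x K ^ 2)))) := by
  have h1 : Continuous (fun x : E n => Real.exp (-(Real.pi * Metric.infDist x K ^ 2))) := by
    have h2 : Continuous (fun x : E n => Metric.infDist x K) := Metric.continuous_infDist_pt K
    fun_prop
  exact h1.measurable.ennreal_ofReal

/-- the general comparison -/
theorem SEG_main {n : ℕ} {K : Set (E n)} (b : OrthonormalBasis (Fin n) ℝ (E n)) (x : E n)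
    (L : Fin n → ℝ) (hL : ∀ i, 0 ≤ L i)
    (hK : ∀ w : Fin n → ℝ, x + b.repr.symm (WithLp.toLp 2 (fun i => max 0 (min (w i) (L i)))) ∈ K) :
    ENNReal.ofReal (∏ i, (1 + L i)) ≤ gint Real.pi K := by
  have hT : MeasurePreserving (fun w : Fin n → ℝ => x + b.repr.symm (WithLp.toLp 2 w)) :=
    (measurePreserving_add_left volume x).comp
      (b.measurePreserving_repr_symm.comp (PiLp.volume_preserving_toLp (Fin n)))
  unfold gint
  rw [← hT.lintegral_comp (SEG_meas K)]
  have hint : Integrable (fun w : Fin n → ℝ => ∏ i, SEG_g (L i) (w i)) :=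
    Integrable.fintype_prod (fun i => SEG_g_int (hL i))
  have hval : ∫ w : Fin n → ℝ, ∏ i, SEG_g (L i) (w i) = ∏ i, (1 + L i) := by
    rw [integral_fintype_prod_volume_eq_prod]
    exact Finset.prod_congr rfl fun i _ => SEG_g_integral (hL i)
  rw [← hval, ofReal_integral_eq_lintegral_ofReal hint
    (Filter.Eventually.of_forall fun w => Finset.prod_nonneg fun i _ => (Real.exp_pos _).le)]
  refine lintegral_mono fun w => ENNReal.ofReal_le_ofReal ?_
  have h1 := SEG_le (z := x + b.repr.symm (WithLp.toLp 2 w)) (hK w)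
  refine le_trans (le_of_eq ?_) h1
  have h2 : x + b.repr.symm (WithLp.toLp 2 w) -
      (x + b.repr.symm (WithLp.toLp 2 (fun i => max 0 (min (w i) (L i))))) =
      b.repr.symm (WithLp.toLp 2 (fun i => w i - max 0 (min (w i) (L i)))) := by
    rw [add_sub_add_left_eq_sub, ← map_sub]
    rfl
  rw [h2, LinearIsometryEquiv.norm_map, EuclideanSpace.real_norm_sq_eq]
  unfold SEG_g
  rw [← Real.exp_sum, Finset.mul_sum, ← Finset.sum_neg_distrib]
  refine congrArg Real.exp (Finset.sum_congr rfl fun i _ => ?_)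
  ring

theorem SEG : S_SEG := by
  intro n K hK x hx y hy
  by_cases hxy : x = y
  · subst hxy
    have h := SEG_main (K := K) (EuclideanSpace.basisFun (Fin n) ℝ) x (fun _ => 0)
      (fun _ => le_rfl) (fun w => by
        have : (fun i => max 0 (min (w i) 0)) = (0 : Fin n → ℝ) := by
          funext i
          exact max_eq_left (min_le_right _ _)
        rw [this, WithLp.toLp_zero, map_zero, add_zero]
        exact hx)
    simpa using h
  · have hl : 0 < ‖y - x‖ := norm_pos_iff.2 (sub_ne_zero.2 (Ne.symm hxy))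
    obtain ⟨n, rfl⟩ : ∃ m, n = m + 1 := by
      cases n with
      | zero => exact absurd (Subsingleton.elim x y) hxy
      | succ m => exact ⟨m, rfl⟩
    have hon : Orthonormal ℝ (({0} : Set (Fin (n + 1))).domRestrict
        (fun _ => (‖y - x‖⁻¹ • (y - x) : E (n + 1)))) := by
      refine ⟨fun i => ?_, fun i j hij => ?_⟩
      · show ‖‖y - x‖⁻¹ • (y - x)‖ = 1
        rw [norm_smul, norm_inv, norm_norm, inv_mul_cancel₀ hl.ne']
      · exact absurd (Subsingleton.elim i j) hij
    obtain ⟨b, hb⟩ := Orthonormal.exists_orthonormalBasis_extension_of_card_eq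
      (ι := Fin (n + 1)) (by simp) hon
    have hb0 : b 0 = ‖y - x‖⁻¹ • (y - x) := hb 0 rfl
    have h := SEG_main (K := K) b x (fun i => if i = 0 then ‖y - x‖ else 0)
      (fun i => by split_ifs <;> positivity) (fun w => by
        have h1 : (fun i : Fin (n + 1) => max 0 (min (w i) (if i = 0 then ‖y - x‖ else 0))) =
            Pi.single 0 (max 0 (min (w 0) ‖y - x‖)) := by
          funext i
          by_cases hi : i = 0
          · subst hi
            simp
          · rw [Pi.single_eq_of_ne hi, if_neg hi]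
            exact max_eq_left (min_le_right _ _)
        have h2 : b.repr.symm (WithLp.toLp 2 (Pi.single (0 : Fin (n + 1))
            (max 0 (min (w 0) ‖y - x‖)))) = (max 0 (min (w 0) ‖y - x‖)) • b 0 := by
          rw [← OrthonormalBasis.sum_repr_symm]
          rw [Finset.sum_eq_single 0]
          · simp
          · intro i _ hi
            simp [Pi.single_eq_of_ne hi]
          · simp
        rw [h1, h2, hb0, smul_smul]
        have h3 : 0 ≤ max 0 (min (w 0) ‖y - x‖) * ‖y - x‖⁻¹ := by positivity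
        have h4 : max 0 (min (w 0) ‖y - x‖) * ‖y - x‖⁻¹ ≤ 1 := by
          rw [← div_eq_mul_inv, div_le_one hl]
          exact max_le hl.le (min_le_right _ _)
        exact hK.cvx.add_smul_sub_mem hx hy ⟨h3, h4⟩)
    have h5 : ∏ i : Fin (n + 1), (1 + (if i = 0 then ‖y - x‖ else 0)) = 1 + ‖x - y‖ := by
      rw [Fin.prod_univ_succ]
      simp [norm_sub_rev]
    rwa [h5] at h

end H41WI
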