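import Pool.Agent.H41R2.WI.Defs

set_option autoImplicit false

namespace H41WI

theorem SML_pi : 4 * Real.pi / 11 ≤ 11424 / 10000 := by
  have := Real.pi_lt_d4
  linarith

theorem SML_sq : √(4 * Real.pi / 11) ^ 2 = 4 * Real.pi / 11 :=
  Real.sq_sqrt (by positivity)

theorem SML_sg : √(4 * Real.pi / 11) ≤ 10689 / 10000 := by
  rw [Real.sqrt_le_left (by norm_num)]
  refine SML_pi.trans ?_
  norm_num

theorem SML_rpow (x : ℝ) (hx : 0 ≤ x) (i : ℕ) : x ^ ((i : ℝ) / 2) = √(x ^ i) := by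
  rw [Real.sqrt_eq_rpow, ← Real.rpow_natCast, ← Real.rpow_mul hx]
  congr 1
  ring

theorem SML_pow (k : ℕ) : √(4 * Real.pi / 11) ^ k = √((4 * Real.pi / 11) ^ k) := by
  have h : (4 * Real.pi / 11) ^ k = (√(4 * Real.pi / 11) ^ k) ^ 2 := by
    rw [← pow_mul, mul_comm k 2, pow_mul, SML_sq]
  rw [h, Real.sqrt_sq (by positivity)]

theorem SML_even (m : ℕ) : √(4 * Real.pi / 11) ^ (2 * m) ≤ (11424 / 10000) ^ m := by
  rw [pow_mul, SML_sq]
  exact pow_le_pow_left₀ (by positivity) SML_pi m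

theorem SML_odd (m : ℕ) :
    √(4 * Real.pi / 11) ^ (2 * m + 1) ≤ (11424 / 10000) ^ m * (10689 / 10000) := by
  rw [pow_succ]
  exact mul_le_mul (SML_even m) SML_sg (Real.sqrt_nonneg _) (by positivity)

theorem SML_third (h1 : S_AL2) (n i k : ℕ) (hi : 2 ≤ i) (hk : n - i = k) (hin : i ≤ n)
    (h : (11424 / 10000 : ℝ) ^ k ≤ ((n : ℝ) / i) ^ i) :
    √(4 * Real.pi / 11) ^ (n - i) ≤ alp n i := by
  refine le_trans ?_ (h1 n i hi hin)
  rw [SML_rpow _ (by positivity), SML_pow, hk]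
  refine Real.sqrt_le_sqrt (le_trans ?_ h)
  exact pow_le_pow_left₀ (by positivity) SML_pi k

theorem SML_div (a : ℝ) (b c : ℝ) (hb : 0 < b) (_ha : 0 ≤ a) (h : c * (b * (31416 / 10000)) ≤ a)
    (hc : 0 ≤ c) : c ≤ a / (b * Real.pi) := by
  rw [le_div_iff₀ (by positivity)]
  refine le_trans ?_ h
  refine mul_le_mul_of_nonneg_left ?_ hc
  refine mul_le_mul_of_nonneg_left ?_ hb.le
  have := Real.pi_lt_d4
  linarith

theorem SML (h1 : S_AL2) (h2 : S_ALV) : S_SML := by
  intro n hn1 hn2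
  obtain ⟨a2, a3, a4, a5, a6, a7, a8⟩ := h2
  have p1 := SML_odd 0
  have p2 := SML_even 1
  have p3 := SML_odd 1
  have p4 := SML_even 2
  have p5 := SML_odd 2
  have p6 := SML_even 3
  have p7 := SML_odd 3
  have p8 := SML_even 4
  norm_num at p1 p2 p3 p4 p5 p6 p7 p8
  have q2 : (12732 / 10000 : ℝ) ≤ 4 / Real.pi := by
    have := SML_div 4 1 (12732 / 10000) (by norm_num) (by norm_num) (by norm_num) (by norm_num)
    rwa [one_mul] at this
  have q4 : (16976 / 10000 : ℝ) ≤ 16 / (3 * Real.pi) :=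
    SML_div 16 3 (16976 / 10000) (by norm_num) (by norm_num) (by norm_num) (by norm_num)
  have q6 : (20371 / 10000 : ℝ) ≤ 32 / (5 * Real.pi) :=
    SML_div 32 5 (20371 / 10000) (by norm_num) (by norm_num) (by norm_num) (by norm_num)
  have q8 : (23281 / 10000 : ℝ) ≤ 256 / (35 * Real.pi) :=
    SML_div 256 35 (23281 / 10000) (by norm_num) (by norm_num) (by norm_num) (by norm_num)
  refine ⟨?_, ?_, ?_⟩
  · interval_cases n
    · rw [a2]; norm_num; linarith
    · rw [a3]; norm_num; linarith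
    · rw [a4]; norm_num; linarith
    · rw [a5]; norm_num; linarith
    · rw [a6]; norm_num; linarith
    · rw [a7]; norm_num; linarith
    · rw [a8]; norm_num; linarith
  · interval_cases n
    · rw [a2]; norm_num; linarith
    · rw [a3]; norm_num; linarith
    · rw [a4]; norm_num; linarith
    · rw [a5]; norm_num; linarith
    · rw [a6]; norm_num; linarith
    · rw [a7]; norm_num; linarith
    · rw [a8]; norm_num; linarith
  · intro i hi hin
    interval_cases n <;> interval_cases i <;>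
      exact SML_third h1 _ _ _ (by norm_num) rfl (by norm_num) (by norm_num)

end H41WI
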