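import Mathlib
import Pool.Agent.H41R2.WI.Defs

set_option autoImplicit false

open MeasureTheory Set
open scoped ENNReal NNReal Pointwise

namespace H41WI

theorem SMN (h1 : S_AL0) (h2 : S_SML) : S_SMN := by
  intro n V L hn2 hn8 hV hV0 hV1 hL
  obtain ⟨hs1, hs2, hs3⟩ := h2 n hn2 hn8
  obtain ⟨ha0, -, -⟩ := h1 n
  refine le_trans hL ?_
  set sg : ℝ := √(4 * Real.pi / 11) with hsg
  obtain ⟨k, rfl⟩ : ∃ k, n = k + 2 := ⟨n - 2, by omega⟩
  have hsplit : ∀ g : ℕ → ℝ, ∑ i ∈ Finset.range (k + 2 + 1), g i =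
      g 0 + g 1 + ∑ i ∈ Finset.range (k + 1), g (i + 2) := by
    intro g
    rw [Finset.sum_range_succ', Finset.sum_range_succ']
    simp only [Nat.zero_add]
    ring
  rw [hsplit, hsplit]
  have htail : ∑ i ∈ Finset.range (k + 1), V (i + 2) * sg ^ (k + 2 - (i + 2)) ≤
      ∑ i ∈ Finset.range (k + 1), alp (k + 2) (i + 2) * V (i + 2) := by
    apply Finset.sum_le_sum
    intro i hi
    have hi' : i < k + 1 := Finset.mem_range.mp hi
    have h := hs3 (i + 2) (by omega) (by omega)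
    have hv := hV (i + 2) (by omega)
    calc V (i + 2) * sg ^ (k + 2 - (i + 2)) ≤ V (i + 2) * alp (k + 2) (i + 2) :=
          mul_le_mul_of_nonneg_left h hv
      _ = alp (k + 2) (i + 2) * V (i + 2) := mul_comm _ _
  have h0 : V 0 * sg ^ (k + 2 - 0) = sg ^ (k + 2) := by
    rw [hV0, one_mul, Nat.sub_zero]
  have h01 : alp (k + 2) 0 * V 0 = 1 := by rw [ha0, hV0, one_mul]
  have h11 : sg ^ (k + 2) + V 1 * sg ^ (k + 2 - 1) ≤ 1 + alp (k + 2) 1 * V 1 := by
    nlinarith [mul_nonneg (sub_nonneg.mpr hs2) (sub_nonneg.mpr hV1)]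
  rw [h0, h01]
  linarith

end H41WI
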