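import Pool.Agent.H41R2.WI.Defs

set_option autoImplicit false

open MeasureTheory Set Filter Topology
open scoped ENNReal NNReal Pointwise

namespace H41WI

/-- inverse Vandermonde weights -/
theorem STP_weights (n : ℕ) : ∃ w : Fin (n + 1) → Fin (n + 1) → ℝ, ∀ (c : ℕ → ℝ) (f : ℝ → ℝ),
    (∀ l, f l = ∑ j ∈ Finset.range (n + 1), c j * l ^ j) →
    ∀ j : Fin (n + 1), ∑ k, w j k * f ((k : ℝ) + 1) = c j := by
  classical
  set v : Fin (n + 1) → ℝ := fun k => (k : ℝ) + 1 with hv
  have hinj : Function.Injective v := by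
    intro a b hab
    simp only [hv] at hab
    have : ((a : ℕ) : ℝ) = ((b : ℕ) : ℝ) := by linarith
    exact Fin.ext (by exact_mod_cast this)
  have hdet : (Matrix.vandermonde v).det ≠ 0 := Matrix.det_vandermonde_ne_zero_iff.mpr hinj
  have hunit : IsUnit (Matrix.vandermonde v).det := isUnit_iff_ne_zero.mpr hdet
  refine ⟨fun j k => (Matrix.vandermonde v)⁻¹ j k, ?_⟩
  intro c f hf j
  have h1 : (fun k : Fin (n + 1) => f ((k : ℝ) + 1))
      = (Matrix.vandermonde v).mulVec (fun j : Fin (n + 1) => c j) := by
    funext k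
    rw [hf, Matrix.mulVec, dotProduct, Finset.sum_range]
    refine Finset.sum_congr rfl fun i _ => ?_
    rw [Matrix.vandermonde_apply, mul_comm]
  have h2 : (Matrix.vandermonde v)⁻¹.mulVec (fun k : Fin (n + 1) => f ((k : ℝ) + 1))
      = fun j : Fin (n + 1) => c j := by
    rw [h1, Matrix.mulVec_mulVec, Matrix.nonsing_inv_mul _ hunit, Matrix.one_mulVec]
  have h3 := congrFun h2 j
  rw [Matrix.mulVec, dotProduct] at h3
  exact h3

theorem STP (h1 : S_PRJ) (h2 : S_FRM) (h3 : S_SYM) (h4 : S_DET) (h5 : S_ARE) (h6 : S_PAR) :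
    S_STP := by
  intro n K hK
  obtain ⟨pr, hpr⟩ := h1 n K hK
  obtain ⟨w, hw⟩ := STP_weights n
  set D : ℝ → E n → ℝ := fun l x =>
    (fderiv ℝ pr x + l • (ContinuousLinearMap.id ℝ (E n) - fderiv ℝ pr x)).det with hD
  have hc : ∀ x, ∃ c : ℕ → ℝ, (∀ j, 0 ≤ c j) ∧ ∀ l : ℝ,
      D l x = ∑ j ∈ Finset.range (n + 1), c j * l ^ j := by
    intro x
    by_cases hx : DifferentiableAt ℝ pr x
    · obtain ⟨ha, hb⟩ := h3 n K pr hpr x (fderiv ℝ pr x) hx.hasFDerivAt
      exact h4 n (fderiv ℝ pr x) ha hb
    · have h0 : fderiv ℝ pr x = 0 := fderiv_zero_of_not_differentiableAt hx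
      refine h4 n (fderiv ℝ pr x) ?_ ?_
      · intro v w; rw [h0]; simp
      · intro v; rw [h0]; simp
  choose c hc0 hcD using hc
  -- coefficients of the shell polynomial
  set r : Fin (n + 1) → ℝ := fun j => ∑ k : Fin (n + 1),
    w j k * (volume (shell K ((k : ℝ) + 1))).toReal with hr
  have hint : ∀ k : Fin (n + 1), IntegrableOn (D ((k : ℝ) + 1)) (shell K 1) := fun k =>
    (h5 n K pr hK hpr ((k : ℝ) + 1) (by positivity)).1
  have hvol : ∀ l : ℝ, 0 < l → (volume (shell K l)).toReal = ∫ x in shell K 1, D l x :=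
    fun l hl => (h5 n K pr hK hpr l hl).2
  have hcj : ∀ (j : Fin (n + 1)) x, ∑ k : Fin (n + 1), w j k * D ((k : ℝ) + 1) x = c x j :=
    fun j x => hw (c x) (fun l => D l x) (hcD x) j
  have hcint : ∀ j : Fin (n + 1), IntegrableOn (fun x => c x j) (shell K 1) := by
    intro j
    have : (fun x => c x j) = fun x => ∑ k : Fin (n + 1), w j k * D ((k : ℝ) + 1) x := by
      funext x; rw [hcj]
    rw [this]
    exact integrable_finset_sum _ fun k _ => (hint k).const_mul _
  have hrint : ∀ j : Fin (n + 1), r j = ∫ x in shell K 1, c x j := by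
    intro j
    rw [hr]
    simp only
    calc ∑ k : Fin (n + 1), w j k * (volume (shell K ((k : ℝ) + 1))).toReal
        = ∑ k : Fin (n + 1), ∫ x in shell K 1, w j k * D ((k : ℝ) + 1) x := by
          refine Finset.sum_congr rfl fun k _ => ?_
          rw [hvol _ (by positivity), integral_const_mul]
      _ = ∫ x in shell K 1, ∑ k : Fin (n + 1), w j k * D ((k : ℝ) + 1) x := by
          rw [integral_finset_sum _ fun k _ => (hint k).const_mul _]
      _ = ∫ x in shell K 1, c x j := by
          refine integral_congr_ae (Eventually.of_forall fun x => ?_)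
          exact hcj j x
  have hr0 : ∀ j, 0 ≤ r j := fun j => by
    rw [hrint]
    exact integral_nonneg fun x => hc0 x j
  have hshell : ∀ l : ℝ, 0 < l →
      (volume (shell K l)).toReal = ∑ j : Fin (n + 1), r j * l ^ (j : ℕ) := by
    intro l hl
    rw [hvol l hl]
    calc ∫ x in shell K 1, D l x
        = ∫ x in shell K 1, ∑ j : Fin (n + 1), c x j * l ^ (j : ℕ) := by
          refine integral_congr_ae (Eventually.of_forall fun x => ?_)
          show D l x = _
          rw [hcD x l, Finset.sum_range]
      _ = ∑ j : Fin (n + 1), ∫ x in shell K 1, c x j * l ^ (j : ℕ) :=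
          integral_finset_sum _ fun j _ => (hcint j).mul_const _
      _ = ∑ j : Fin (n + 1), r j * l ^ (j : ℕ) := by
          refine Finset.sum_congr rfl fun j _ => ?_
          rw [integral_mul_const, hrint]
  -- parallel bodies
  have hKc := hK.cpt
  have hKne := hK.ne
  have hfin : ∀ t : ℝ, 0 ≤ t → volume (K + Metric.closedBall (0 : E n) t) ≠ ⊤ := fun t _ =>
    (hKc.add (isCompact_closedBall _ _)).measure_lt_top.ne
  have hp : ∀ t : ℝ, 0 < t → pvol K t = (volume K).toReal + ∑ j : Fin (n + 1), r j * t ^ (j : ℕ) := by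
    intro t ht
    have hset : K + Metric.closedBall (0 : E n) t = K ∪ shell K t := by
      rw [h6 n K t hKc hKne ht.le]
      ext x
      simp only [mem_setOf_eq, mem_union, shell]
      constructor
      · intro hx
        rcases (Metric.infDist_nonneg (x := x) (s := K)).eq_or_lt with h | h
        · left
          exact (hKc.isClosed.mem_iff_infDist_zero hKne).mpr h.symm
        · right; exact ⟨h, hx⟩
      · rintro (hx | hx)
        · rw [Metric.infDist_zero_of_mem hx]; exact ht.le
        · exact hx.2
    have hdisj : Disjoint K (shell K t) := by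
      rw [Set.disjoint_left]
      intro x hx hx'
      have := Metric.infDist_zero_of_mem hx
      exact absurd hx'.1 (by rw [this]; exact lt_irrefl _)
    have hms : MeasurableSet (shell K t) := by
      have hcont : Continuous fun x : E n => Metric.infDist x K := Metric.continuous_infDist_pt K
      exact (measurableSet_lt measurable_const hcont.measurable).inter
        (measurableSet_le hcont.measurable measurable_const)
    have hft := hfin t ht.le
    unfold pvol
    rw [hset] at hft ⊢
    rw [measure_union hdisj hms]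
    rw [measure_union hdisj hms] at hft
    have hf2 := ENNReal.add_ne_top.mp hft
    rw [ENNReal.toReal_add hf2.1 hf2.2, hshell t ht]
  have hlim1 : Tendsto (fun t : ℝ => pvol K t) (𝓝[>] 0) (𝓝 (volume K).toReal) := by
    have h7 : Tendsto (fun t : ℝ => volume (Metric.cthickening t K)) (𝓝 0) (𝓝 (volume K)) :=
      tendsto_measure_cthickening_of_isCompact hKc
    have h8 : Tendsto (fun t : ℝ => (volume (Metric.cthickening t K)).toReal) (𝓝[>] 0)
        (𝓝 (volume K).toReal) :=
      (ENNReal.tendsto_toReal hKc.measure_lt_top.ne).comp (h7.mono_left nhdsWithin_le_nhds)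
    refine h8.congr' ?_
    filter_upwards [self_mem_nhdsWithin] with t ht
    unfold pvol
    rw [hKc.add_closedBall_zero (le_of_lt ht)]
  have hlim2 : Tendsto (fun t : ℝ => pvol K t) (𝓝[>] 0) (𝓝 ((volume K).toReal + r 0)) := by
    have hcont : Continuous fun t : ℝ => (volume K).toReal + ∑ j : Fin (n + 1), r j * t ^ (j : ℕ) := by
      fun_prop
    have h9 : Tendsto (fun t : ℝ => (volume K).toReal + ∑ j : Fin (n + 1), r j * t ^ (j : ℕ))
        (𝓝[>] 0) (𝓝 ((volume K).toReal + ∑ j : Fin (n + 1), r j * (0 : ℝ) ^ (j : ℕ))) :=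
      (hcont.tendsto 0).mono_left nhdsWithin_le_nhds
    have h10 : ∑ j : Fin (n + 1), r j * (0 : ℝ) ^ (j : ℕ) = r 0 := by
      rw [Finset.sum_eq_single (0 : Fin (n + 1))]
      · simp
      · intro j _ hj
        have : (j : ℕ) ≠ 0 := fun h => hj (Fin.ext h)
        simp [this]
      · simp
    rw [h10] at h9
    refine h9.congr' ?_
    filter_upwards [self_mem_nhdsWithin] with t ht
    exact (hp t ht).symm
  have hr00 : r 0 = 0 := by
    have := tendsto_nhds_unique hlim1 hlim2
    linarith
  refine ⟨fun j => if j = 0 then (volume K).toReal else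
    if h : j < n + 1 then r ⟨j, h⟩ else 0, ?_, ?_⟩
  · intro j
    dsimp only
    split_ifs
    · exact ENNReal.toReal_nonneg
    · exact hr0 _
    · exact le_rfl
  · intro t ht
    rw [Finset.sum_range_succ']
    have hpow0 : (fun j => if j = 0 then (volume K).toReal else
        if h : j < n + 1 then r ⟨j, h⟩ else 0) 0 * t ^ 0 = (volume K).toReal := by simp
    rcases ht.eq_or_lt with h0 | h0
    · subst h0
      have : pvol K 0 = (volume K).toReal := by
        unfold pvol
        rw [Metric.closedBall_zero]
        simp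
      rw [this]
      simp
    · rw [hp t h0, Fin.sum_univ_succ, hr00]
      simp only [Fin.val_zero, pow_zero, mul_one, zero_add, if_true, Fin.val_succ]
      rw [add_comm]
      congr 1
      rw [Finset.sum_range]
      refine Finset.sum_congr rfl fun j _ => ?_
      have hj : (j : ℕ) + 1 < n + 1 := by omega
      simp only [Nat.add_eq_zero_iff, one_ne_zero, and_false, if_false, hj, dite_true]
      rfl

end H41WI
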