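import Pool.Agent.H41R2.WI.Defs

/-!
Task SUM: the one-dimensional sum over the integers.
-/

set_option autoImplicit false

open MeasureTheory Set
open scoped ENNReal NNReal Pointwise

namespace H41WI

theorem SUM (h : S_INT) : S_SUM := by
  intro a c ha hc hO f G hf hG
  have hk : ∀ k : ℤ, f (k : ℝ) + f ((k : ℝ) + 1) ≤
      2 * (ENNReal.ofReal c * ∫⁻ x in Set.Ioc (k : ℝ) ((k : ℝ) + 1), G x) :=
    fun k => h a c ha hc hO f G hf hG k
  have hs := ENNReal.tsum_le_tsum hk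
  rw [ENNReal.tsum_add] at hs
  have e1 : ∑' k : ℤ, f ((k : ℝ) + 1) = ∑' k : ℤ, f (k : ℝ) := by
    have := (Equiv.addRight (1 : ℤ)).tsum_eq (fun k : ℤ => f (k : ℝ))
    rw [← this]
    refine tsum_congr fun k => ?_
    simp
  have e2 : ∑' k : ℤ, 2 * (ENNReal.ofReal c * ∫⁻ x in Set.Ioc (k : ℝ) ((k : ℝ) + 1), G x) =
      2 * (ENNReal.ofReal c * ∫⁻ x, G x) := by
    rw [ENNReal.tsum_mul_left, ENNReal.tsum_mul_left]
    have := lintegral_iUnion (μ := (volume : Measure ℝ))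
      (s := fun k : ℤ => Set.Ioc (k : ℝ) ((k : ℝ) + 1)) (fun _ => measurableSet_Ioc)
      (pairwise_disjoint_Ioc_intCast ℝ) G
    rw [← this, iUnion_Ioc_intCast, Measure.restrict_univ]
  rw [e1, e2, ← two_mul] at hs
  exact (ENNReal.mul_le_mul_iff_right (by norm_num) (by norm_num)).1 hs

end H41WI
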