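import Pool.Agent.H41R2.WI.Defs

set_option autoImplicit false

open MeasureTheory Set Filter Topology
open scoped ENNReal NNReal Pointwise

namespace H41WI

/-- the inner product as a real bilinear continuous map -/
noncomputable def SYM_L (n : ℕ) : E n →L[ℝ] (E n →L[ℝ] ℝ) :=
  LinearMap.toContinuousLinearMap
    { toFun := fun v => innerSL ℝ v
      map_add' := fun v w => by ext u; simp
      map_smul' := fun c v => by ext u; simp }

theorem SYM_L_apply (n : ℕ) (v : E n) : SYM_L n v = innerSL ℝ v := rfl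

/-- **SYM** -/
theorem SYM (h1 : S_FRM) (h2 : S_GRD) : S_SYM := by
  intro n K pr hpr x P hP
  have hF := (h1 n K pr hpr).1
  have hG := h2 n K pr hpr
  refine ⟨?_, ?_⟩
  · intro v w
    have hx : HasFDerivAt (fun y => (innerSL ℝ (y - pr y) : E n →L[ℝ] ℝ))
        ((SYM_L n).comp (ContinuousLinearMap.id ℝ (E n) - P)) x := by
      have := (SYM_L n).hasFDerivAt (x := x - pr x) |>.comp x ((hasFDerivAt_id x).sub hP)
      exact this
    have hs := second_derivative_symmetric hG hx v w
    simp only [ContinuousLinearMap.comp_apply, SYM_L_apply, ContinuousLinearMap.coe_sub',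
      Pi.sub_apply, ContinuousLinearMap.id_apply, innerSL_apply_apply] at hs
    rw [inner_sub_left, inner_sub_left, real_inner_comm v w] at hs
    have : (inner ℝ (P v) w : ℝ) = inner ℝ (P w) v := by linarith
    rw [this, real_inner_comm]
  · intro v
    have hline : HasDerivAt (fun t : ℝ => pr (x + t • v)) (P v) 0 := hP.hasLineDerivAt v
    have hs := hline.tendsto_slope_zero
    simp only [zero_add, zero_smul, add_zero] at hs
    have hl : Tendsto (fun t : ℝ => ‖t⁻¹ • (pr (x + t • v) - pr x)‖ ^ 2) (𝓝[≠] 0) (𝓝 (‖P v‖ ^ 2)) :=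
      (hs.norm).pow 2
    have hr : Tendsto (fun t : ℝ => (inner ℝ (t⁻¹ • (pr (x + t • v) - pr x)) v : ℝ)) (𝓝[≠] 0)
        (𝓝 (inner ℝ (P v) v)) := hs.inner tendsto_const_nhds
    refine le_of_tendsto_of_tendsto hl hr ?_
    filter_upwards [self_mem_nhdsWithin] with t ht
    have ht : t ≠ 0 := ht
    have h3 := hF (x + t • v) x
    rw [add_sub_cancel_left, real_inner_smul_right] at h3
    rw [norm_smul, mul_pow, real_inner_smul_left]
    have e1 : ‖t⁻¹‖ ^ 2 = t⁻¹ * t⁻¹ := by
      rw [Real.norm_eq_abs, sq_abs, sq]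
    rw [e1]
    have h4 : t⁻¹ * t⁻¹ * ‖pr (x + t • v) - pr x‖ ^ 2
        ≤ t⁻¹ * t⁻¹ * (t * inner ℝ (pr (x + t • v) - pr x) v) :=
      mul_le_mul_of_nonneg_left h3 (mul_self_nonneg _)
    refine h4.trans (le_of_eq ?_)
    field_simp

end H41WI
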