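import Mathlib
import Pool.Agent.H41R2.WI.Defs
import Pool.Agent.H212R2.KLS.T1

set_option autoImplicit false

open MeasureTheory Set
open scoped ENNReal NNReal Pointwise

namespace H41WI

theorem TEN_zero (a : ℝ) (K : Set (Fin 0 → ℝ)) :
    (∑' z : Fin 0 → ℤ, K.indicator (fun _ => (1 : ℝ≥0∞)) (fun i => (z i : ℝ)))
      ≤ ∫⁻ x, Fs a K x := by
  have hv : (volume : Measure (Fin 0 → ℝ)) univ = 1 := by
    rw [Measure.volume_pi_eq_dirac (fun i => i.elim0)]; simp
  rw [lintegral_unique, hv, mul_one, tsum_fintype, Fintype.sum_unique]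
  have h1 : ∀ w : Fin 0 → ℝ, K.indicator (fun _ => (1 : ℝ≥0∞)) w ≤ Fs a K default := by
    intro w
    obtain rfl : w = default := Subsingleton.elim _ _
    by_cases hK : (default : Fin 0 → ℝ) ∈ K
    · rw [indicator_of_mem hK]
      unfold Fs
      refine le_trans ?_ (le_iSup₂ (f := fun y _ => ENNReal.ofReal (Real.exp (-(a * ∑ i, ((default : Fin 0 → ℝ) i - y i) ^ 2)))) default hK)
      simp
    · rw [indicator_of_notMem hK]
      exact bot_le
  exact h1 _

theorem TEN_ind (m : ℕ) (K : Set (Fin (m+1) → ℝ)) (k : ℤ) (z : Fin m → ℤ) :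
    K.indicator (fun _ => (1 : ℝ≥0∞)) (fun i => ((Fin.cons k z : Fin (m+1) → ℤ) i : ℝ)) =
    (slice K (k:ℝ)).indicator (fun _ => (1 : ℝ≥0∞)) (fun i => (z i : ℝ)) := by
  have h1 : (fun i => (((Fin.cons k z : Fin (m+1) → ℤ) i : ℤ) : ℝ)) =
      (Fin.cons (k:ℝ) (fun i => (z i : ℝ)) : Fin (m+1) → ℝ) := by
    ext i
    refine Fin.cases ?_ (fun j => ?_) i <;> simp
  rw [h1]
  by_cases h : (Fin.cons (k:ℝ) (fun i => (z i : ℝ)) : Fin (m+1) → ℝ) ∈ K
  · have h' : (fun i => (z i : ℝ)) ∈ slice K (k:ℝ) := h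
    rw [indicator_of_mem h, indicator_of_mem h']
  · have h' : (fun i => (z i : ℝ)) ∉ slice K (k:ℝ) := h
    rw [indicator_of_notMem h, indicator_of_notMem h']

theorem TEN_comb (m : ℕ) (K : Set (Fin (m+1) → ℝ)) (hK : Convex ℝ K) (x y t : ℝ)
    (ht0 : 0 < t) (ht1 : t < 1) (u v : Fin m → ℝ) (hu : u ∈ slice K x) (hv : v ∈ slice K y) :
    (1 - t) • u + t • v ∈ slice K ((1 - t) * x + t * y) := by
  have h := hK hu hv (by linarith : 0 ≤ 1 - t) ht0.le (by ring)
  unfold slice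
  rw [mem_ofPred_eq]
  convert h using 1
  ext i
  refine Fin.cases ?_ (fun j => ?_) i <;> simp

theorem TEN_slice_convex (m : ℕ) (K : Set (Fin (m+1) → ℝ)) (hK : Convex ℝ K) (x : ℝ) :
    Convex ℝ (slice K x) := by
  intro u hu v hv p q hp hq hpq
  have h := hK hu hv hp hq hpq
  unfold slice
  rw [mem_ofPred_eq]
  convert h using 1
  ext i
  refine Fin.cases ?_ (fun j => ?_) i
  · simp only [Fin.cons_zero, Pi.add_apply, Pi.smul_apply, smul_eq_mul]
    rw [← add_mul, hpq, one_mul]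
  · simp

open Pool.Agent.PZ871.PLaux (measurable_cons lintegral_succ)

theorem TEN (hS : S_SUM) (hM : S_MEA) (hF : S_FLC) (hG : S_GLB) : S_TEN := by
  intro a c ha hc hO m
  induction m with
  | zero =>
    intro K _
    rw [pow_zero, one_mul]
    exact TEN_zero a K
  | succ m ih =>
    intro K hK
    have hcons := measurable_cons m
    have hcons2 : ∀ x : ℝ, Measurable (fun v : Fin m → ℝ => (Fin.cons x v : Fin (m + 1) → ℝ)) :=
      fun x => hcons.comp (measurable_const.prodMk measurable_id)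
    set f : ℝ → ℝ≥0∞ := fun z => ∫⁻ y, Fs a (slice K z) y with hf
    set G : ℝ → ℝ≥0∞ := fun x => ∫⁻ y : Fin m → ℝ, Fs a K (Fin.cons x y : Fin (m+1) → ℝ) with hGd
    have hLC : LC f := by
      intro x y t ht0 ht1
      refine Pool.Agent.H212R2.KLS.PLt.pln t ht0 ht1 m _ _ _ (hM a m _) (hM a m _) (hM a m _) ?_
      intro u v
      exact hF a m _ _ _ t ha.le ht0 ht1 (fun y1 h1 y2 h2 => TEN_comb m K hK x y t ht0 ht1 y1 y2 h1 h2) u v
    have hGL : ∀ x z : ℝ, ENNReal.ofReal (Real.exp (-(a * (x - z) ^ 2))) * f z ≤ G x := by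
      intro x z
      rw [hf, hGd]
      simp only
      rw [← lintegral_const_mul _ (hM a m _)]
      exact lintegral_mono (fun y => hG a m K x z y)
    have key := hS a c ha hc hO f G hLC hGL
    have e1 : (∑' z : Fin (m+1) → ℤ, K.indicator (fun _ => (1 : ℝ≥0∞)) (fun i => (z i : ℝ))) =
        ∑' k : ℤ, ∑' z : Fin m → ℤ, (slice K (k:ℝ)).indicator (fun _ => (1 : ℝ≥0∞)) (fun i => (z i : ℝ)) := by
      rw [← (Fin.consEquiv (fun _ : Fin (m+1) => ℤ)).tsum_eq, ENNReal.tsum_prod']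
      refine tsum_congr (fun k => tsum_congr (fun z => ?_))
      exact TEN_ind m K k z
    rw [e1]
    have e2 : ∫⁻ x, Fs a K x = ∫⁻ x, G x := lintegral_succ m _ (hM a (m+1) K)
    rw [e2]
    calc (∑' k : ℤ, ∑' z : Fin m → ℤ, (slice K (k:ℝ)).indicator (fun _ => (1 : ℝ≥0∞)) (fun i => (z i : ℝ)))
        ≤ ∑' k : ℤ, ENNReal.ofReal c ^ m * f (k:ℝ) :=
          ENNReal.tsum_le_tsum (fun k => ih (slice K (k:ℝ)) (TEN_slice_convex m K hK k))
      _ = ENNReal.ofReal c ^ m * ∑' k : ℤ, f (k:ℝ) := ENNReal.tsum_mul_left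
      _ ≤ ENNReal.ofReal c ^ m * (ENNReal.ofReal c * ∫⁻ x, G x) := by gcongr
      _ = ENNReal.ofReal c ^ (m+1) * ∫⁻ x, G x := by rw [pow_succ, mul_assoc]

end H41WI
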