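import Mathlib
import Pool.Agent.H41R2.WI.Defs

set_option autoImplicit false

open MeasureTheory Set
open scoped ENNReal NNReal Pointwise

namespace H41WI

theorem TRF_dist {n : ℕ} (x y : Fin n → ℝ) :
    dist (WithLp.toLp 2 x : E n) (WithLp.toLp 2 y : E n) ^ 2 = ∑ i, (x i - y i) ^ 2 := by
  rw [EuclideanSpace.dist_eq, Real.sq_sqrt (Finset.sum_nonneg fun i _ => sq_nonneg _)]
  refine Finset.sum_congr rfl fun i _ => ?_
  rw [Real.dist_eq, sq_abs]

theorem TRF_pt (a : ℝ) (n : ℕ) (K : Set (E n)) (ha : 0 ≤ a) (hK : IsCompact K)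
    (hne : K.Nonempty) (x : Fin n → ℝ) :
    Fs a {y : Fin n → ℝ | (WithLp.toLp 2 y : E n) ∈ K} x =
      ENNReal.ofReal (Real.exp (-(a * Metric.infDist (WithLp.toLp 2 x : E n) K ^ 2))) := by
  unfold Fs
  apply le_antisymm
  · refine iSup₂_le fun y hy => ENNReal.ofReal_le_ofReal (Real.exp_le_exp.2 ?_)
    have h1 : Metric.infDist (WithLp.toLp 2 x : E n) K ≤
        dist (WithLp.toLp 2 x : E n) (WithLp.toLp 2 y : E n) := Metric.infDist_le_dist_of_mem hy
    have h2 : Metric.infDist (WithLp.toLp 2 x : E n) K ^ 2 ≤ ∑ i, (x i - y i) ^ 2 := by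
      rw [← TRF_dist]
      exact pow_le_pow_left₀ Metric.infDist_nonneg h1 2
    have := mul_le_mul_of_nonneg_left h2 ha
    linarith
  · obtain ⟨y0, hy0, hd⟩ := hK.exists_infDist_eq_dist hne (WithLp.toLp 2 x : E n)
    have hy1 : (WithLp.toLp 2 (WithLp.ofLp y0) : E n) = y0 := rfl
    have h3 : Metric.infDist (WithLp.toLp 2 x : E n) K ^ 2 =
        ∑ i, (x i - WithLp.ofLp y0 i) ^ 2 := by
      rw [hd, ← TRF_dist, hy1]
    rw [h3]
    exact le_iSup₂ (f := fun (y : Fin n → ℝ) (_ : y ∈ {y : Fin n → ℝ | (WithLp.toLp 2 y : E n) ∈ K})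
      => ENNReal.ofReal (Real.exp (-(a * ∑ i, (x i - y i) ^ 2)))) (WithLp.ofLp y0) hy0

theorem TRF : S_TRF := by
  intro a n K ha hK hne
  unfold gint
  have h1 : (∫⁻ x : Fin n → ℝ, Fs a {y : Fin n → ℝ | (WithLp.toLp 2 y : E n) ∈ K} x) =
      ∫⁻ x : Fin n → ℝ, (fun z : E n =>
        ENNReal.ofReal (Real.exp (-(a * Metric.infDist z K ^ 2)))) (WithLp.toLp 2 x) :=
    lintegral_congr fun x => TRF_pt a n K ha hK hne x
  rw [h1]
  have hm : Measurable (fun z : E n =>
      ENNReal.ofReal (Real.exp (-(a * Metric.infDist z K ^ 2)))) := by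
    apply Measurable.ennreal_ofReal
    apply Real.measurable_exp.comp
    apply Measurable.neg
    apply Measurable.const_mul
    exact (Metric.continuous_infDist_pt K).measurable.pow_const 2
  exact (PiLp.volume_preserving_toLp (Fin n)).lintegral_comp hm

end H41WI
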