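import Pool.Agent.H41R2.WI.Defs

set_option autoImplicit false

open MeasureTheory Set
open scoped ENNReal NNReal Pointwise

namespace H41WI

theorem V0_kap_pos (n : ℕ) : 0 < kap n := by
  unfold kap
  refine div_pos (Real.rpow_pos_of_pos Real.pi_pos _) (Real.Gamma_pos_of_pos ?_)
  positivity

theorem V0_bounds (h : S_KPV) (n : ℕ) (K : Set (E n)) (hK : Body K) :
    ∃ R : ℝ, 0 ≤ R ∧ ∀ t : ℝ, 0 ≤ t → kap n * t ^ n ≤ pvol K t ∧ pvol K t ≤ kap n * (R + t) ^ n := by
  obtain ⟨x0, hx0⟩ := hK.ne
  obtain ⟨R, hR⟩ := hK.cpt.isBounded.subset_closedBall x0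
  have hR0 : 0 ≤ R := by
    have := hR hx0
    rw [Metric.mem_closedBall, dist_self] at this
    exact this
  refine ⟨R, hR0, fun t ht => ?_⟩
  have h1 : Metric.closedBall x0 t ⊆ K + Metric.closedBall (0 : E n) t := by
    intro y hy
    refine ⟨x0, hx0, y - x0, ?_, by simp⟩
    rw [mem_closedBall_zero_iff, ← dist_eq_norm]
    exact hy
  have h2 : K + Metric.closedBall (0 : E n) t ⊆ Metric.closedBall x0 (R + t) := by
    rintro _ ⟨k, hk, z, hz, rfl⟩
    have hk' := hR hk
    rw [Metric.mem_closedBall, dist_eq_norm] at hk'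
    rw [mem_closedBall_zero_iff] at hz
    rw [Metric.mem_closedBall, dist_eq_norm]
    have : k + z - x0 = (k - x0) + z := by abel
    show ‖k + z - x0‖ ≤ _
    rw [this]
    exact (norm_add_le _ _).trans (add_le_add hk' hz)
  have e1 := h n x0 t ht
  have e2 := h n x0 (R + t) (by positivity)
  have hkn := (V0_kap_pos n).le
  have hfin : volume (K + Metric.closedBall (0 : E n) t) ≠ ⊤ := by
    refine ne_top_of_le_ne_top ?_ (measure_mono h2)
    rw [e2]
    exact ENNReal.ofReal_ne_top
  constructor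
  · unfold pvol
    have h3 := ENNReal.toReal_mono hfin (measure_mono (μ := volume) h1)
    rw [e1, ENNReal.toReal_ofReal (by positivity)] at h3
    exact h3
  · unfold pvol
    have h3 := ENNReal.toReal_mono (by rw [e2]; exact ENNReal.ofReal_ne_top)
      (measure_mono (μ := volume) h2)
    rw [e2, ENNReal.toReal_ofReal (by positivity)] at h3
    exact h3

theorem V0 (h : S_KPV) : S_V0 := by
  intro n K V hK hV
  obtain ⟨R, hR0, hR⟩ := V0_bounds h n K hK
  have hkn := V0_kap_pos n
  set P : ℝ → ℝ := fun s => ∑ i ∈ Finset.range (n + 1), kap (n - i) * V i * s ^ i with hP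
  have hcont : Continuous P := by
    rw [hP]
    fun_prop
  have hP0 : P 0 = kap n * V 0 := by
    rw [hP]
    show ∑ i ∈ Finset.range (n + 1), kap (n - i) * V i * (0 : ℝ) ^ i = _
    rw [Finset.sum_eq_single 0]
    · simp
    · intro i _ hi
      simp [hi]
    · intro h0
      exact absurd (Finset.mem_range.2 (Nat.succ_pos n)) h0
  have hPs : ∀ s : ℝ, 0 < s → kap n ≤ P s ∧ P s ≤ kap n * (R * s + 1) ^ n := by
    intro s hs
    have ht : (0 : ℝ) ≤ s⁻¹ := by positivity
    have e1 := hV s⁻¹ ht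
    have e2 : pvol K s⁻¹ * s ^ n = P s := by
      rw [e1, Finset.sum_mul, hP]
      refine Finset.sum_congr rfl fun i hi => ?_
      have hin : i ≤ n := Nat.lt_succ_iff.1 (Finset.mem_range.1 hi)
      have e3 : s ^ n = s ^ (n - i) * s ^ i := by
        rw [← pow_add]
        congr 1
        omega
      rw [e3, inv_pow]
      field_simp
    obtain ⟨b1, b2⟩ := hR s⁻¹ ht
    have hsn : 0 ≤ s ^ n := by positivity
    constructor
    · have := mul_le_mul_of_nonneg_right b1 hsn
      rw [e2, mul_assoc, ← mul_pow, inv_mul_cancel₀ hs.ne', one_pow, mul_one] at this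
      exact this
    · have := mul_le_mul_of_nonneg_right b2 hsn
      rw [e2, mul_assoc, ← mul_pow, add_mul, inv_mul_cancel₀ hs.ne'] at this
      exact this
  have hlim : Filter.Tendsto P (nhdsWithin 0 (Set.Ioi 0)) (nhds (P 0)) :=
    (hcont.tendsto 0).mono_left nhdsWithin_le_nhds
  have hlim2 : Filter.Tendsto (fun s : ℝ => kap n * (R * s + 1) ^ n)
      (nhdsWithin 0 (Set.Ioi 0)) (nhds (kap n)) := by
    have hc : Continuous (fun s : ℝ => kap n * (R * s + 1) ^ n) := by fun_prop
    have := (hc.tendsto 0).mono_left (nhdsWithin_le_nhds (s := Set.Ioi (0 : ℝ)))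
    simpa using this
  have hev : ∀ᶠ s in nhdsWithin (0 : ℝ) (Set.Ioi 0), 0 < s := self_mem_nhdsWithin
  have g1 : kap n ≤ P 0 := ge_of_tendsto hlim (hev.mono fun s hs => (hPs s hs).1)
  have g2 : P 0 ≤ kap n := le_of_tendsto_of_tendsto hlim hlim2 (hev.mono fun s hs => (hPs s hs).2)
  rw [hP0] at g1 g2
  have : kap n * V 0 = kap n * 1 := by linarith
  exact mul_left_cancel₀ hkn.ne' this

end H41WI
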