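import Mathlib
import Pool.Agent.H41R2.WI.Defs

set_option autoImplicit false

open MeasureTheory Set
open scoped ENNReal NNReal Pointwise

namespace H41WI

theorem V1_ineq (h1 : S_SEG) (h2 : S_SCL) (h3 : S_GAU) (h4 : S_V0) (n : ℕ) (K : Set (E n))
    (V : ℕ → ℝ) (hK : Body K) (hV : Steiner K V) (x : E n) (hx : x ∈ K) (y : E n) (hy : y ∈ K)
    (τ : ℝ) (hτ : 0 < τ) : ‖x - y‖ ≤ ∑ i ∈ Finset.range n, V (i + 1) * τ ^ i := by
  have hB : Body (τ • K) := ⟨hK.cpt.smul τ, hK.cvx.smul τ, hK.ne.smul_set⟩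
  have hS := h2 n K V τ hτ hV
  have e1 := h1 n (τ • K) hB (τ • x) (Set.smul_mem_smul_set hx) (τ • y)
    (Set.smul_mem_smul_set hy)
  obtain ⟨e2, e3⟩ := h3 n (τ • K) (fun i => V i * τ ^ i) Real.pi Real.pi_pos hB.cpt hB.ne hS
  have e4 : 1 + ‖τ • x - τ • y‖ ≤ (gint Real.pi (τ • K)).toReal := by
    rw [ENNReal.ofReal_le_iff_le_toReal e2] at e1
    exact e1
  rw [e3, div_self Real.pi_ne_zero, Real.sqrt_one, ← smul_sub, norm_smul,
    Real.norm_of_nonneg hτ.le] at e4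
  simp only [one_pow, mul_one] at e4
  rw [Finset.sum_range_succ', h4 n K V hK hV, pow_zero, mul_one] at e4
  have e5 : ∑ i ∈ Finset.range n, V (i + 1) * τ ^ (i + 1) =
      τ * ∑ i ∈ Finset.range n, V (i + 1) * τ ^ i := by
    rw [Finset.mul_sum]
    refine Finset.sum_congr rfl fun i _ => ?_
    rw [pow_succ]
    ring
  rw [e5] at e4
  have e6 : τ * ‖x - y‖ ≤ τ * ∑ i ∈ Finset.range n, V (i + 1) * τ ^ i := by linarith
  exact le_of_mul_le_mul_left e6 hτ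

theorem V1 (h1 : S_SEG) (h2 : S_SCL) (h3 : S_GAU) (h4 : S_V0) : S_V1 := by
  intro n K V hn hK hV x hx y hy
  have hc : Continuous (fun τ : ℝ => ∑ i ∈ Finset.range n, V (i + 1) * τ ^ i) := by
    fun_prop
  have ht : Filter.Tendsto (fun τ : ℝ => ∑ i ∈ Finset.range n, V (i + 1) * τ ^ i)
      (nhdsWithin 0 (Set.Ioi 0)) (nhds (V 1)) := by
    have h0 : ∑ i ∈ Finset.range n, V (i + 1) * (0 : ℝ) ^ i = V 1 := by
      obtain ⟨m, rfl⟩ : ∃ m, n = m + 1 := ⟨n - 1, by omega⟩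
      rw [Finset.sum_range_succ']
      simp
    rw [← h0]
    exact (hc.tendsto 0).mono_left nhdsWithin_le_nhds
  refine ge_of_tendsto ht ?_
  filter_upwards [self_mem_nhdsWithin] with τ hτ
  exact V1_ineq h1 h2 h3 h4 n K V hK hV x hx y hy τ hτ

end H41WI
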