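import Pool.Agent.H41R2.WI.WILLS
import Pool.Agent.H41R2.WI.AL0
import Pool.Agent.H41R2.WI.AL1
import Pool.Agent.H41R2.WI.AL2
import Pool.Agent.H41R2.WI.ALV
import Pool.Agent.H41R2.WI.ARE
import Pool.Agent.H41R2.WI.BIG
import Pool.Agent.H41R2.WI.CLO
import Pool.Agent.H41R2.WI.CNT
import Pool.Agent.H41R2.WI.DET
import Pool.Agent.H41R2.WI.EL1
import Pool.Agent.H41R2.WI.EL2
import Pool.Agent.H41R2.WI.FLC
import Pool.Agent.H41R2.WI.FRM
import Pool.Agent.H41R2.WI.GAU
import Pool.Agent.H41R2.WI.GLB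
import Pool.Agent.H41R2.WI.GRD
import Pool.Agent.H41R2.WI.IIG
import Pool.Agent.H41R2.WI.INT
import Pool.Agent.H41R2.WI.INV
import Pool.Agent.H41R2.WI.KPV
import Pool.Agent.H41R2.WI.LAY
import Pool.Agent.H41R2.WI.LBG
import Pool.Agent.H41R2.WI.MEA
import Pool.Agent.H41R2.WI.MIL
import Pool.Agent.H41R2.WI.ML0
import Pool.Agent.H41R2.WI.MOT
import Pool.Agent.H41R2.WI.MOV
import Pool.Agent.H41R2.WI.N1
import Pool.Agent.H41R2.WI.NI
import Pool.Agent.H41R2.WI.NII
import Pool.Agent.H41R2.WI.NM1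
import Pool.Agent.H41R2.WI.NM2
import Pool.Agent.H41R2.WI.NNG
import Pool.Agent.H41R2.WI.NULs
import Pool.Agent.H41R2.WI.O11
import Pool.Agent.H41R2.WI.OPS
import Pool.Agent.H41R2.WI.PAR
import Pool.Agent.H41R2.WI.PLC
import Pool.Agent.H41R2.WI.PLT
import Pool.Agent.H41R2.WI.PLV
import Pool.Agent.H41R2.WI.PRJ
import Pool.Agent.H41R2.WI.R1
import Pool.Agent.H41R2.WI.R2
import Pool.Agent.H41R2.WI.R3
import Pool.Agent.H41R2.WI.R4
import Pool.Agent.H41R2.WI.RAD
import Pool.Agent.H41R2.WI.REG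
import Pool.Agent.H41R2.WI.SCL
import Pool.Agent.H41R2.WI.SEG
import Pool.Agent.H41R2.WI.SML
import Pool.Agent.H41R2.WI.SMN
import Pool.Agent.H41R2.WI.STP
import Pool.Agent.H41R2.WI.SUM
import Pool.Agent.H41R2.WI.SYM
import Pool.Agent.H41R2.WI.TEN
import Pool.Agent.H41R2.WI.TRF
import Pool.Agent.H41R2.WI.V0
import Pool.Agent.H41R2.WI.V1

set_option autoImplicit false

namespace H41WI

theorem main_O11 : S_O11 := O11 IIG CLO EL1 EL2
theorem main_REG : S_REG := REG CLO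
theorem main_R2 : S_R2 := R2 main_REG MIL NI NII
theorem main_R3 : S_R3 := R3 main_REG ML0
theorem main_OPS : S_OPS := OPS IIG R1 main_R2 main_R3 R4
theorem main_SUM : S_SUM := SUM INT
theorem main_TEN : S_TEN := TEN main_SUM MEA FLC GLB
theorem main_CNT : S_CNT := CNT main_TEN TRF
theorem main_LAY : S_LAY := LAY PAR
theorem main_GAU : S_GAU := GAU main_LAY RAD
theorem main_PLC : S_PLC := t_PLC main_GAU SCL PLV PLT MOT MOV
theorem main_SYM : S_SYM := SYM FRM GRD
theorem main_INV : S_INV := INV FRM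
theorem main_ARE : S_ARE := ARE FRM main_SYM DET main_INV NUL
theorem main_STP : S_STP := STP PRJ FRM main_SYM DET main_ARE PAR
theorem main_NNG : S_NNG := NNG main_STP
theorem main_V0 : S_V0 := V0 KPV
theorem main_V1 : S_V1 := V1 SEG SCL main_GAU main_V0
theorem main_SML : S_SML := SML AL2 ALV
theorem main_LBG : S_LBG := LBG AL0 AL1 AL2
theorem main_BIG : S_BIG := BIG AL0 main_LBG NM1 NM2
theorem main_SMN : S_SMN := SMN AL0 main_SML
theorem main_N1 : S_N1 := N1 main_V0 main_V1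

/-- Wills' conjecture -/
theorem main : S_WILLS :=
  WILLS main_O11 main_OPS main_CNT main_GAU main_PLC main_NNG main_V0 main_V1 AL0 main_BIG
    main_SMN main_N1

end H41WI
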