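import Mathlib
import Pool.Agent.H41R2.WI.Defs

set_option autoImplicit false

open MeasureTheory Set
open scoped ENNReal NNReal Pointwise

namespace H41WI

theorem NM1_rho_le : rho ≤ 0.236 := by
  unfold rho
  have h1 : Real.log (Real.pi / 2) ≤ 0.472 := by
    rw [Real.log_le_iff_le_exp (by positivity)]
    have h2 := Real.quadratic_le_exp_of_nonneg (x := 0.472) (by norm_num)
    have h3 := Real.pi_lt_d4
    norm_num at h2 h3 ⊢
    linarith
  norm_num at h1 ⊢
  linarith

theorem NM1_rho_nonneg : 0 ≤ rho := by
  unfold rho
  have h1 : 0 ≤ Real.log (Real.pi / 2) := by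
    apply Real.log_nonneg
    have := Real.pi_gt_three
    linarith
  linarith

theorem NM1_log (x y L : ℝ) (hx : 0 < x) (hxy : x ≤ y) (hL : L ≤ 1 - x⁻¹) : L ≤ Real.log y := by
  have h1 := Real.one_sub_inv_le_log_of_pos hx
  have h2 := Real.log_le_log hx hxy
  linarith

theorem NM1 : S_NM1 := by
  intro n e hn he hen
  have hr := NM1_rho_le
  have hr0 := NM1_rho_nonneg
  have hpi := Real.pi_lt_d4
  have hk : 4 * Real.pi / 11 - 1 ≤ 0.1424 := by
    norm_num at hpi ⊢
    linarith
  have hk0 : 0 ≤ 4 * Real.pi / 11 - 1 := by
    have := Real.pi_gt_three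
    linarith
  set k := 4 * Real.pi / 11 - 1 with hkdef
  rcases le_or_gt e 1 with h1 | h1
  · rw [min_eq_right h1]
    have hL : (2/3 : ℝ) ≤ Real.log (n / (e+2)) := by
      apply NM1_log 3 _ _ (by norm_num)
      · rw [le_div_iff₀ (by linarith)]
        linarith
      · norm_num
    nlinarith
  · rw [min_eq_left h1.le]
    rcases le_or_gt e 2 with h2 | h2
    · have hL : (2/3 : ℝ) ≤ Real.log (n / (e+2)) := by
        have : (3/2:ℝ)^2 ≤ n / (e+2) := by
          rw [le_div_iff₀ (by linarith)]
          linarith
        have h4 := Real.log_le_log (by positivity) this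
        rw [Real.log_pow] at h4
        have h5 := Real.one_sub_inv_le_log_of_pos (x := (3/2:ℝ)) (by norm_num)
        norm_num at h4 h5 ⊢
        linarith
      nlinarith
    · rcases le_or_gt e (7/2) with h3 | h3
      · have hL : (7/18 : ℝ) ≤ Real.log (n / (e+2)) := by
          apply NM1_log (18/11) _ _ (by norm_num)
          · rw [le_div_iff₀ (by linarith)]
            linarith
          · norm_num
        nlinarith
      · have hL : (5/18 : ℝ) ≤ Real.log (n / (e+2)) := by
          apply NM1_log (18/13) _ _ (by norm_num)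
          · rw [le_div_iff₀ (by linarith)]
            linarith
          · norm_num
        nlinarith

end H41WI
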