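import Pool.Agent.H41R2.WI.Defs

set_option autoImplicit false

open MeasureTheory Set Filter
open scoped ENNReal NNReal Pointwise Topology

namespace H41WI

theorem REG_gauss (w : ℝ) :
    (∫ y in (0 : ℝ)..w, Real.exp (-y ^ 2)) =
      √Real.pi / 2 - ∫ y in Set.Ioi w, Real.exp (-y ^ 2) := by
  have hg : Integrable (fun y : ℝ => Real.exp (-y ^ 2)) := by
    have := integrable_exp_neg_mul_sq (b := 1) one_pos
    simpa only [neg_mul, one_mul] using this
  have h1 : (∫ y in Set.Ioi (0 : ℝ), Real.exp (-y ^ 2)) = √Real.pi / 2 := by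
    have := integral_gaussian_Ioi 1
    simpa only [neg_mul, one_mul, div_one] using this
  have h2 := intervalIntegral.integral_interval_add_Ioi (a := (0 : ℝ)) (b := w)
    (f := fun y : ℝ => Real.exp (-y ^ 2)) (μ := volume) hg.integrableOn hg.integrableOn
  rw [h1] at h2
  linarith

theorem REG (h : S_CLO) : S_REG := by
  intro s w hs hw hws
  have hpi := Real.pi_pos
  have hsp : 0 < √Real.pi := Real.sqrt_pos.2 hpi
  have hsq : √Real.pi ^ 2 = Real.pi := Real.sq_sqrt hpi.le
  have ha : 0 < Real.pi * s ^ 2 := by positivity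
  have ht : 0 < 2 * √Real.pi * s * w := by positivity
  have hta : 2 * √Real.pi * s * w ≤ 2 * (Real.pi * s ^ 2) := by
    have : 2 * √Real.pi * s * w ≤ 2 * √Real.pi * s * (√Real.pi * s) :=
      mul_le_mul_of_nonneg_left hws (by positivity)
    calc _ ≤ _ := this
      _ = 2 * (√Real.pi ^ 2 * s ^ 2) := by ring
      _ = _ := by rw [hsq]
  rw [h _ _ ha ht hta]
  have e1 : 2 * √Real.pi * s * w / (2 * (Real.pi * s ^ 2)) = w / (√Real.pi * s) := by
    rw [div_eq_div_iff (by positivity) (by positivity)]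
    linear_combination (2 * s ^ 2 * w) * hsq
  have e2 : (2 * √Real.pi * s * w) ^ 2 / (4 * (Real.pi * s ^ 2)) = w ^ 2 := by
    rw [mul_pow, mul_pow, mul_pow, hsq]; field_simp; norm_num
  rw [e1, e2, mul_add]
  have h3 : s * (∫ x in (0 : ℝ)..(w / (√Real.pi * s)), Real.exp (-(Real.pi * s ^ 2 * x ^ 2))) =
      (1 / √Real.pi) * ∫ y in (0 : ℝ)..w, Real.exp (-y ^ 2) := by
    have hc : √Real.pi * s ≠ 0 := by positivity
    have := intervalIntegral.integral_comp_mul_left (a := 0) (b := w / (√Real.pi * s))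
      (fun y : ℝ => Real.exp (-y ^ 2)) hc
    have e3 : ∀ x : ℝ, Real.exp (-(√Real.pi * s * x) ^ 2) = Real.exp (-(Real.pi * s ^ 2 * x ^ 2)) := by
      intro x
      congr 1
      rw [mul_pow, mul_pow, hsq]
    simp only [e3] at this
    rw [this]
    rw [mul_zero, mul_div_cancel₀ _ hc, smul_eq_mul, mul_inv]
    field_simp
  rw [h3, REG_gauss w]
  have e4 : (1 / √Real.pi) * (√Real.pi / 2 - ∫ y in Set.Ioi w, Real.exp (-y ^ 2)) =
      1 / 2 - (1 / √Real.pi) * ∫ y in Set.Ioi w, Real.exp (-y ^ 2) := by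
    rw [mul_sub]
    congr 1
    field_simp
  rw [e4]
  congr 1
  field_simp

end H41WI
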