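import Pool.Agent.H41R2.WI.Defs

set_option autoImplicit false

open MeasureTheory Set
open scoped ENNReal NNReal Pointwise

namespace H41WI

/-- nonnegativity of the right-hand side, and it is at least `1` -/
theorem WILLS_one_le (hAL0 : S_AL0) (n : ℕ) (V : ℕ → ℝ) (hV : ∀ i ≤ n, 0 ≤ V i) (h0 : V 0 = 1) :
    1 ≤ ∑ i ∈ Finset.range (n + 1), alp n i * V i := by
  have h1 : alp n 0 * V 0 ≤ ∑ i ∈ Finset.range (n + 1), alp n i * V i := by
    apply Finset.single_le_sum (f := fun i => alp n i * V i)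
    · intro i hi
      have hi' : i ≤ n := by
        have := Finset.mem_range.1 hi
        omega
      exact mul_nonneg ((hAL0 n).2.2 i hi').1.le (hV i hi')
    · exact Finset.mem_range.2 (by omega)
  rw [(hAL0 n).1, h0] at h1
  simpa using h1

theorem WILLS_dist {n : ℕ} (x y : Fin n → ℤ) (hxy : x ≠ y) :
    1 ≤ ‖(WithLp.toLp 2 (fun j => (x j : ℝ)) : E n) - WithLp.toLp 2 (fun j => (y j : ℝ))‖ := by
  obtain ⟨j, hj⟩ : ∃ j, x j ≠ y j := by
    by_contra h
    push Not at h
    exact hxy (funext h)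
  have h1 : (1 : ℝ) ≤ |(x j : ℝ) - y j| := by
    have h2 : (1 : ℤ) ≤ |x j - y j| := Int.one_le_abs (sub_ne_zero.2 hj)
    have h3 : ((1 : ℤ) : ℝ) ≤ ((|x j - y j| : ℤ) : ℝ) := by exact_mod_cast h2
    simpa using h3
  have h4 := EuclideanSpace.norm_eq
    ((WithLp.toLp 2 (fun j => (x j : ℝ)) : E n) - WithLp.toLp 2 (fun j => (y j : ℝ)))
  rw [h4]
  apply Real.le_sqrt_of_sq_le
  have h5 : (1 : ℝ) ^ 2 ≤ ‖((WithLp.toLp 2 (fun j => (x j : ℝ)) : E n)
      - WithLp.toLp 2 (fun j => (y j : ℝ))) j‖ ^ 2 := by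
    simp only [PiLp.sub_apply, Real.norm_eq_abs]
    gcongr
  refine h5.trans ?_
  exact Finset.single_le_sum (f := fun i => ‖((WithLp.toLp 2 (fun j => (x j : ℝ)) : E n)
      - WithLp.toLp 2 (fun j => (y j : ℝ))) i‖ ^ 2) (fun i _ => sq_nonneg _) (Finset.mem_univ j)

/-- real form of the counting bound -/
theorem WILLS_cnt (hCNT : S_CNT) (hGAU : S_GAU) {a c : ℝ} (ha : 0 < a) (hc : 0 < c)
    (h : OneD a c) (n : ℕ) (K : Set (E n)) (hK : Body K) (V : ℕ → ℝ) (hS : Steiner K V) :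
    (((Zpts K).ncard : ℕ) : ℝ) ≤
      c ^ n * ∑ i ∈ Finset.range (n + 1), V i * √(Real.pi / a) ^ (n - i) := by
  obtain ⟨hfin, hle⟩ := hCNT a c ha hc h n K hK
  obtain ⟨hne, heq⟩ := hGAU n K V a ha hK.cpt hK.ne hS
  rw [← heq]
  have h1 : ((((Zpts K).ncard : ℕ) : ℝ≥0∞)).toReal ≤ (ENNReal.ofReal c ^ n * gint a K).toReal :=
    ENNReal.toReal_mono (ENNReal.mul_ne_top (by simp) hne) hle
  rw [ENNReal.toReal_mul, ENNReal.toReal_pow, ENNReal.toReal_ofReal hc.le] at h1
  simpa using h1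

theorem WILLS (hO11 : S_O11) (hOPS : S_OPS) (hCNT : S_CNT) (hGAU : S_GAU) (hPLC : S_PLC)
    (hNNG : S_NNG) (hV0 : S_V0) (hV1 : S_V1) (hAL0 : S_AL0) (hBIG : S_BIG) (hSMN : S_SMN)
    (hN1 : S_N1) : S_WILLS := by
  intro n K V hn hK hS
  have hnn := (hNNG n K hK).2 V hS
  have h0 := hV0 n K V hK hS
  have hone := WILLS_one_le hAL0 n V hnn h0
  by_cases hsub : (Zpts K).ncard ≤ 1
  · have : (((Zpts K).ncard : ℕ) : ℝ) ≤ 1 := by exact_mod_cast hsub
    exact this.trans hone
  push Not at hsub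
  obtain ⟨x, y, hx, hy, hxy⟩ := (Set.one_lt_ncard_iff
    (Set.finite_of_ncard_pos (by omega))).1 hsub
  have hV1' : 1 ≤ V 1 := (WILLS_dist x y hxy).trans (hV1 n K V hn hK hS _ hx _ hy)
  -- bound (I)
  have hI : (((Zpts K).ncard : ℕ) : ℝ) ≤
      ∑ i ∈ Finset.range (n + 1), V i * √(4 * Real.pi / 11) ^ (n - i) := by
    have := WILLS_cnt hCNT hGAU (a := 11 / 4) (c := 1) (by norm_num) one_pos hO11 n K hK V hS
    rw [one_pow, one_mul] at this
    have e : Real.pi / (11 / 4) = 4 * Real.pi / 11 := by ring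
    rwa [e] at this
  -- bound (II)
  have hII : ∀ s : ℝ, 1 ≤ s → (((Zpts K).ncard : ℕ) : ℝ) ≤
      (1 + Real.exp (-(4 * (s - 1))) / 17) ^ n *
        ∑ i ∈ Finset.range (n + 1), V i * s ^ i := by
    intro s hs
    have hs0 : 0 < s := by linarith
    have hcs : 0 < cs s := by
      unfold cs
      have := Real.exp_pos (-(4 * (s - 1)))
      positivity
    have := WILLS_cnt hCNT hGAU (a := Real.pi * s ^ 2) (c := cs s) (by positivity) hcs
      (hOPS s hs) n K hK V hS
    refine this.trans (le_of_eq ?_)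
    have e1 : √(Real.pi / (Real.pi * s ^ 2)) = s⁻¹ := by
      have : Real.pi / (Real.pi * s ^ 2) = (s⁻¹) ^ 2 := by
        field_simp
      rw [this, Real.sqrt_sq (by positivity)]
    rw [e1]
    unfold cs
    rw [mul_pow, mul_comm (s ^ n), mul_assoc, Finset.mul_sum]
    congr 1
    apply Finset.sum_congr rfl
    intro i hi
    have hi' : i ≤ n := by
      have := Finset.mem_range.1 hi
      omega
    have e2 : s ^ n = s ^ i * s ^ (n - i) := by
      rw [← pow_add]; congr 1; omega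
    rw [e2, inv_pow]
    field_simp
  rcases Nat.lt_or_ge n 2 with h2 | h2
  · have hn1 : n = 1 := by omega
    subst hn1
    have := hN1 K V hK hS
    have e : ∑ i ∈ Finset.range (1 + 1), alp 1 i * V i = 1 + V 1 := by
      rw [Finset.sum_range_succ, Finset.sum_range_one, (hAL0 1).1, (hAL0 1).2.1, h0]
      ring
    rw [e]
    exact this
  rcases Nat.lt_or_ge n 9 with h9 | h9
  · exact hSMN n V _ h2 (by omega) hnn h0 hV1' hI
  · have hW : 2 ≤ Wt n V := by
      unfold Wt
      have : V 0 + V 1 ≤ ∑ i ∈ Finset.range (n + 1), V i := by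
        have h01 : V 0 + V 1 = ∑ i ∈ Finset.range 2, V i := by
          rw [Finset.sum_range_succ, Finset.sum_range_one]
        rw [h01]
        apply Finset.sum_le_sum_of_subset_of_nonneg
        · intro i hi
          have := Finset.mem_range.1 hi
          exact Finset.mem_range.2 (by omega)
        · intro i hi _
          have := Finset.mem_range.1 hi
          exact hnn i (by omega)
      linarith
    exact hBIG n V _ h9 hnn h0 hW (hPLC n K V hK hS hnn (by linarith)) hI hII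

end H41WI
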